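import Pool.Agent.T2h48.AT.Stm

set_option autoImplicit false

namespace Pool.Agent.T2h48.AT.BAS

open Pool.Agent.T2h48.AT

variable (F M : Type) [Field F] [Field M] [Algebra F M] {n : ℕ} (ξ : Fin n → M)

/-- the algebraic matroid of the coordinates -/
noncomputable def N : Matroid (Fin n) := (AlgebraicIndependent.matroid F M).comap ξ

theorem indep_iff (U : Finset (Fin n)) : (N F M ξ).Indep (U : Set (Fin n)) ↔ Ind F ξ U := by
  unfold N
  rw [Matroid.comap_indep_iff, AlgebraicIndependent.matroid_indep_iff]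
  constructor
  · rintro ⟨h1, h2⟩
    exact (algebraicIndependent_image h2).2 h1
  · intro h
    have h2 : Set.InjOn ξ (U : Set (Fin n)) := by
      intro x hx y hy hxy
      have := AlgebraicIndependent.injective h (a₁ := ⟨x, hx⟩) (a₂ := ⟨y, hy⟩) hxy
      exact congrArg Subtype.val this
    exact ⟨(algebraicIndependent_image h2).1 h, h2⟩

theorem mem_closure_iff (U : Finset (Fin n)) (l : Fin n) :
    l ∈ (N F M ξ).closure (U : Set (Fin n)) ↔ Dep F ξ U l := by
  unfold N
  rw [Matroid.comap_closure_eq, Set.mem_preimage, AlgebraicIndependent.matroid_closure_eq,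
    SetLike.mem_coe, Subalgebra.mem_algebraicClosure]
  rfl

theorem ground : (N F M ξ).E = Set.univ := rfl

theorem t_BAS : S_BAS := by
  classical
  intro F M _ _ _ n ξ
  constructor
  · intro W
    obtain ⟨I, hI⟩ := (N F M ξ).exists_isBasis (W : Set (Fin n)) (Set.subset_univ _)
    have hIW : I ⊆ (W : Set (Fin n)) := hI.subset
    refine ⟨W.filter fun l => l ∈ I, Finset.filter_subset _ _, ?_, ?_⟩
    · rw [← indep_iff]
      have : ((W.filter fun l => l ∈ I : Finset (Fin n)) : Set (Fin n)) = I := by
        ext l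
        simp only [Finset.coe_filter, Set.mem_ofPred_eq]
        exact ⟨fun h => h.2, fun h => ⟨hIW h, h⟩⟩
      rw [this]
      exact hI.indep
    · intro l hl
      rw [← mem_closure_iff]
      have : ((W.filter fun l => l ∈ I : Finset (Fin n)) : Set (Fin n)) = I := by
        ext l
        simp only [Finset.coe_filter, Set.mem_ofPred_eq]
        exact ⟨fun h => h.2, fun h => ⟨hIW h, h⟩⟩
      rw [this]
      exact hI.subset_closure hl
  · intro U U₀ hU hU₀
    have h1 : (N F M ξ).Indep (U : Set (Fin n)) := (indep_iff F M ξ U).2 hU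
    have h2 : (N F M ξ).closure (U₀ : Set (Fin n)) = Set.univ := by
      rw [Set.eq_univ_iff_forall]
      intro l
      exact (mem_closure_iff F M ξ U₀ l).2 (hU₀ l)
    have h3 : (N F M ξ).eRank ≤ (U₀ : Set (Fin n)).encard := by
      rw [← Matroid.eRk_univ_eq, ← h2, Matroid.eRk_closure_eq]
      exact Matroid.eRk_le_encard _ _
    have h4 := h1.encard_le_eRank.trans h3
    rw [Set.encard_coe_eq_coe_finsetCard, Set.encard_coe_eq_coe_finsetCard] at h4
    refine ⟨by exact_mod_cast h4, fun h5 l => ?_⟩
    have h6 : (N F M ξ).IsBase (U : Set (Fin n)) := by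
      refine h1.isBase_of_eRk_ge U.finite_toSet ?_
      rw [h1.eRk_eq_encard]
      refine h3.trans (le_of_eq ?_)
      rw [Set.encard_coe_eq_coe_finsetCard, Set.encard_coe_eq_coe_finsetCard, h5]
    rw [← mem_closure_iff, h6.closure_eq]
    exact Set.mem_univ _

end Pool.Agent.T2h48.AT.BAS

theorem Pool.Agent.T2h48.AT.t_BAS : Pool.Agent.T2h48.AT.S_BAS := Pool.Agent.T2h48.AT.BAS.t_BAS
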