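import Pool.Agent.T2h48.AT.Stm2
import Mathlib.Algebra.MvPolynomial.SchwartzZippel

/-! Task CNT of project AT (helper25). -/

set_option autoImplicit false

namespace Pool.Agent.T2h48.AT.CNT

open MvPolynomial Pool.Agent.T2h48.AT

theorem t_CNT : S_CNT := by
  classical
  intro F _ _ D g hg
  refine ⟨2 * g.totalDegree, fun K _ _ _ hK => ?_⟩
  have : Fintype K := Fintype.ofFinite K
  have hinj : Function.Injective (algebraMap F K) := (algebraMap F K).injective
  have hgK : map (algebraMap F K) g ≠ 0 := by
    intro h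
    exact hg (map_injective _ hinj (h.trans (map_zero _).symm))
  have hdeg : (map (algebraMap F K) g).totalDegree ≤ g.totalDegree := Finset.sup_mono (support_map_subset _ _)
  have hsz := schwartz_zippel_totalDegree hgK (Finset.univ : Finset K)
  rw [Nat.card_eq_fintype_card] at hK ⊢
  set q := Fintype.card K with hq
  have hq0 : 0 < q := Fintype.card_pos
  set Z := ((Fintype.piFinset fun _ : Fin D => (Finset.univ : Finset K)).filter
    fun f => eval f (map (algebraMap F K) g) = 0) with hZ
  have hZ' : 2 * Z.card ≤ q ^ D := by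
    have h1 : (Z.card : ℚ≥0) / ((q : ℚ≥0) ^ D) ≤ (g.totalDegree : ℚ≥0) / (q : ℚ≥0) := by
      refine hsz.trans ?_
      rw [Finset.card_univ]
      have : ((map (algebraMap F K) g).totalDegree : ℚ≥0) ≤ (g.totalDegree : ℚ≥0) := by
        exact_mod_cast hdeg
      gcongr
    have hqD : (0 : ℚ≥0) < (q : ℚ≥0) ^ D := by positivity
    have hqq : (0 : ℚ≥0) < (q : ℚ≥0) := by exact_mod_cast hq0
    rw [div_le_div_iff₀ hqD hqq] at h1
    have h2 : Z.card * q ≤ g.totalDegree * q ^ D := by exact_mod_cast h1
    have h3 : 2 * Z.card * q ≤ q ^ D * q := by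
      calc 2 * Z.card * q = 2 * (Z.card * q) := by ring
        _ ≤ 2 * (g.totalDegree * q ^ D) := by omega
        _ = q ^ D * (2 * g.totalDegree) := by ring
        _ ≤ q ^ D * q := Nat.mul_le_mul_left _ hK.le
    exact Nat.le_of_mul_le_mul_right h3 hq0
  have hN : {u : Fin D → K | aeval u g ≠ 0}.ncard = q ^ D - Z.card := by
    have h4 : {u : Fin D → K | aeval u g ≠ 0} = ((Finset.univ \ Z : Finset (Fin D → K)) : Set (Fin D → K)) := by
      ext u
      simp only [Set.mem_ofPred_eq, Finset.coe_sdiff, Finset.coe_univ, Set.mem_sdiff, Set.mem_univ,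
        true_and, Finset.mem_coe, hZ, Finset.mem_filter, Fintype.mem_piFinset, Finset.mem_univ,
        implies_true]
      rw [eval_map, aeval_def]
    rw [h4, Set.ncard_coe_finset, Finset.card_sdiff_of_subset (Finset.subset_univ _), Finset.card_univ,
      Fintype.card_fun, Fintype.card_fin]
  rw [hN]
  omega

end Pool.Agent.T2h48.AT.CNT
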