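import Pool.Agent.T2h48.AT.Stm

/-!
# COMB: strips of edges in a linear triple system
-/

set_option autoImplicit false

namespace Pool.Agent.T2h48.AT.Comb

open Finset Classical

variable {E V : Type}

/-- number of vertices minus number of edges -/
noncomputable def dl (r : Fin 3 → E → V) (S : Finset E) : ℤ :=
  (∑ j, ((S.image (r j)).card : ℤ)) - S.card

/-- two edges have at most one vertex in common -/
def Lin (r : Fin 3 → E → V) : Prop :=
  ∀ i j : Fin 3, i ≠ j → ∀ e f : E, r i e = r i f → r j e = r j f → e = f

lemma dl_union (r : Fin 3 → E → V) (S T : Finset E) :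
    dl r (S ∪ T) + dl r (S ∩ T) ≤ dl r S + dl r T := by
  unfold dl
  have h1 : ((S ∪ T).card : ℤ) + (S ∩ T).card = S.card + T.card := by
    exact_mod_cast card_union_add_card_inter S T
  have h2 : ∀ j, (((S ∪ T).image (r j)).card : ℤ) + ((S ∩ T).image (r j)).card ≤
      (S.image (r j)).card + (T.image (r j)).card := by
    intro j
    rw [image_union]
    have h3 := card_union_add_card_inter (S.image (r j)) (T.image (r j))
    have h4 : ((S ∩ T).image (r j)).card ≤ (S.image (r j) ∩ T.image (r j)).card :=
      card_le_card (image_inter_subset _ _ _)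
    exact_mod_cast (by omega :
      (S.image (r j) ∪ T.image (r j)).card + ((S ∩ T).image (r j)).card ≤
        (S.image (r j)).card + (T.image (r j)).card)
  have h3 := sum_le_sum fun j (_ : j ∈ (univ : Finset (Fin 3))) => h2 j
  rw [sum_add_distrib, sum_add_distrib] at h3
  linarith

lemma fib_le {r : Fin 3 → E → V} (hr : Lin r) (S : Finset E) (a : V) (j : Fin 3) (hj : (0 : Fin 3) ≠ j) :
    (S.filter fun e => r 0 e = a).card ≤ (S.image (r j)).card := by
  rw [← card_image_of_injOn (s := S.filter fun e => r 0 e = a) (f := r j)]
  · exact card_le_card (image_subset_image (filter_subset _ _))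
  · intro e he f hf hef
    simp only [coe_filter, Set.mem_setOf_eq] at he hf
    exact hr 0 j hj e f (he.2.trans hf.2.symm) hef

lemma dl_two {r : Fin 3 → E → V} (hr : Lin r) {S : Finset E} (hS : S.Nonempty)
    (h : (S.image (r 0)).card ≤ 2) : 2 ≤ dl r S := by
  unfold dl
  rw [Fin.sum_univ_three]
  have hsum := card_eq_sum_card_image (r 0) S
  have hpos : 0 < (S.image (r 0)).card := card_pos.2 (hS.image _)
  have hpos2 : 0 < (S.image (r 2)).card := card_pos.2 (hS.image _)
  have h1 : ∀ a, (S.filter fun e => r 0 e = a).card ≤ (S.image (r 1)).card := fun a =>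
    fib_le hr S a 1 (by decide)
  have h2 : ∀ a, (S.filter fun e => r 0 e = a).card ≤ (S.image (r 2)).card := fun a =>
    fib_le hr S a 2 (by decide)
  have hc : (S.image (r 0)).card = 1 ∨ (S.image (r 0)).card = 2 := by omega
  rcases hc with hc | hc
  · obtain ⟨a, ha⟩ := card_eq_one.1 hc
    rw [ha, sum_singleton] at hsum
    have := h1 a
    rw [hc]
    omega
  · obtain ⟨a, b, hab, ha⟩ := card_eq_two.1 hc
    rw [ha, sum_pair hab] at hsum
    have := h1 a
    have := h2 b
    rw [hc]
    omega

lemma card_img_insert (f : E → V) (S : Finset E) (e : E) :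
    ((insert e S).image f).card = (S.image f).card + (if f e ∈ S.image f then 0 else 1) := by
  rw [image_insert]
  split_ifs with h
  · rw [insert_eq_of_mem h, add_zero]
  · rw [card_insert_of_notMem h]

lemma step1 (r : Fin 3 → E → V) (S : Finset E) (e : E)
    (h : r 1 e ∈ S.image (r 1) ∨ r 2 e ∈ S.image (r 2)) : dl r (insert e S) ≤ dl r S + 1 := by
  by_cases he : e ∈ S
  · rw [insert_eq_of_mem he]
    linarith
  · unfold dl
    rw [Fin.sum_univ_three, Fin.sum_univ_three, card_img_insert, card_img_insert, card_img_insert,
      card_insert_of_notMem he]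
    rcases h with h | h
    · rw [if_pos h]
      split_ifs <;> push_cast <;> linarith
    · rw [if_pos h]
      split_ifs <;> push_cast <;> linarith

lemma step2 (r : Fin 3 → E → V) (S : Finset E) (e : E) (h0 : r 0 e ∈ S.image (r 0))
    (h : r 1 e ∈ S.image (r 1) ∨ r 2 e ∈ S.image (r 2)) : dl r (insert e S) ≤ dl r S := by
  by_cases he : e ∈ S
  · rw [insert_eq_of_mem he]
  · unfold dl
    rw [Fin.sum_univ_three, Fin.sum_univ_three, card_img_insert, card_img_insert, card_img_insert,
      card_insert_of_notMem he, if_pos h0]
    rcases h with h | h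
    · rw [if_pos h]
      split_ifs <;> push_cast <;> linarith
    · rw [if_pos h]
      split_ifs <;> push_cast <;> linarith

lemma step3 (r : Fin 3 → E → V) (S : Finset E) (e : E) (he : e ∉ S) (h0 : r 0 e ∈ S.image (r 0))
    (h1 : r 1 e ∈ S.image (r 1)) (h2 : r 2 e ∈ S.image (r 2)) :
    dl r (insert e S) = dl r S - 1 := by
  unfold dl
  rw [Fin.sum_univ_three, Fin.sum_univ_three, card_img_insert, card_img_insert, card_img_insert,
    card_insert_of_notMem he, if_pos h0, if_pos h1, if_pos h2]
  push_cast
  ring

/-- the first `k` edges of a strip -/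
noncomputable def st (ψ : ℕ → E) (k : ℕ) : Finset E := (range k).image ψ

lemma st_succ (ψ : ℕ → E) (k : ℕ) : st ψ (k + 1) = insert (ψ k) (st ψ k) := by
  unfold st
  rw [range_add_one, image_insert]

lemma mem_st {ψ : ℕ → E} {i k : ℕ} (h : i < k) : ψ i ∈ st ψ k :=
  mem_image_of_mem _ (mem_range.2 h)

/-- a strip -/
structure Strip (r : Fin 3 → E → V) (m : ℕ) (ψ : ℕ → E) : Prop where
  h1 : ∀ k, k + 1 < m → r (if Even k then 1 else 2) (ψ (k + 1)) = r (if Even k then 1 else 2) (ψ k)
  h0 : ∀ k, k + 2 < m → r 0 (ψ (k + 2)) = r 0 (ψ k)

lemma shr {r : Fin 3 → E → V} {m : ℕ} {ψ : ℕ → E} (h : Strip r m ψ) {k : ℕ} (hk : k + 1 < m) :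
    r 1 (ψ (k + 1)) ∈ (st ψ (k + 1)).image (r 1) ∨ r 2 (ψ (k + 1)) ∈ (st ψ (k + 1)).image (r 2) := by
  have := h.h1 k hk
  by_cases hev : Even k
  · rw [if_pos hev] at this
    left
    rw [this]
    exact mem_image_of_mem _ (mem_st (Nat.lt_succ_self k))
  · rw [if_neg hev] at this
    right
    rw [this]
    exact mem_image_of_mem _ (mem_st (Nat.lt_succ_self k))

lemma st_one (r : Fin 3 → E → V) (ψ : ℕ → E) : dl r (st ψ 1) = 2 := by
  have : st ψ 1 = {ψ 0} := by
    unfold st
    simp
  rw [this]
  unfold dl
  rw [Fin.sum_univ_three]
  simp

lemma st_le {r : Fin 3 → E → V} {m : ℕ} {ψ : ℕ → E} (h : Strip r m ψ) :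
    ∀ k, k ≤ m → dl r (st ψ k) ≤ 3 := by
  intro k
  induction k with
  | zero =>
    intro _
    unfold st dl
    simp
  | succ k ih =>
    intro hk
    rcases k with _ | k
    · rw [st_one]
      norm_num
    · have h1 := ih (by omega)
      rcases k with _ | k
      · rw [st_succ]
        have := step1 r (st ψ 1) (ψ 1) (shr h (by omega))
        rw [st_one] at this
        simpa using this
      · rw [st_succ]
        refine (step2 r _ _ ?_ (shr h (by omega))).trans h1
        rw [h.h0 k (by omega)]
        exact mem_image_of_mem _ (mem_st (by omega))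

lemma even_ne (k : ℕ) : (if Even k then (1 : Fin 3) else 2) ≠ (if Even (k + 1) then (1 : Fin 3) else 2) := by
  by_cases h : Even k
  · have h' : ¬ Even (k + 1) := by
      rw [Nat.even_add_one]
      exact not_not.2 h
    rw [if_pos h, if_neg h']
    decide
  · have h' : Even (k + 1) := Nat.even_add_one.2 h
    rw [if_neg h, if_pos h']
    decide

lemma st_two {r : Fin 3 → E → V} (hr : Lin r) {m : ℕ} {ψ : ℕ → E} (h : Strip r m ψ) :
    ∀ k, k + 1 ≤ m → ¬ Set.InjOn ψ (range (k + 1) : Set ℕ) → dl r (st ψ (k + 1)) ≤ 2 := by
  intro k
  induction k with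
  | zero =>
    intro _ _
    rw [st_one]
  | succ k ih =>
    intro hk hinj
    by_cases hin : Set.InjOn ψ (range (k + 1) : Set ℕ)
    · -- the first repetition
      have hrep : ∃ i, i < k + 1 ∧ ψ (k + 1) = ψ i := by
        by_contra hcon
        push Not at hcon
        apply hinj
        intro a ha b hb hab
        simp only [coe_range, Set.mem_Iio] at ha hb
        rcases Nat.lt_succ_iff_lt_or_eq.1 ha with ha | rfl
        · rcases Nat.lt_succ_iff_lt_or_eq.1 hb with hb | rfl
          · exact hin (by simpa using ha) (by simpa using hb) hab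
          · exact absurd hab.symm (hcon a ha)
        · rcases Nat.lt_succ_iff_lt_or_eq.1 hb with hb | rfl
          · exact absurd hab (hcon b hb)
          · rfl
      obtain ⟨i, hi, hrep⟩ := hrep
      rw [st_succ, hrep, insert_eq_of_mem (mem_st hi)]
      rcases k with _ | l
      · rw [st_one]
      · have hx := h.h1 l (by omega)
        have hx' := h.h1 (l + 1) (by omega)
        have h0 := h.h0 l (by omega)
        have hne : ψ (l + 1) ≠ ψ l := by
          intro h'
          have := hin (by simp) (by simp) h'
          omega
        rcases Nat.lt_succ_iff_lt_or_eq.1 hi with hi | rfl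
        · rcases Nat.lt_succ_iff_lt_or_eq.1 hi with hi | rfl
          · rcases l with _ | q
            · omega
            · rw [st_succ, step3]
              · have := st_le h (q + 2) (by omega)
                linarith
              · intro hmem
                unfold st at hmem
                rw [mem_image] at hmem
                obtain ⟨b, hb, hbe⟩ := hmem
                rw [mem_range] at hb
                have := hin (by simp; omega) (by simp) hbe
                omega
              · rw [h.h0 q (by omega)]
                exact mem_image_of_mem _ (mem_st (by omega))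
              · by_cases hev : Even (q + 1)
                · rw [if_pos hev] at hx
                  rw [hx]
                  exact mem_image_of_mem _ (mem_st (by omega))
                · have hev' : Even (q + 1 + 1) := Nat.even_add_one.2 hev
                  rw [if_pos hev'] at hx'
                  rw [← hx', hrep]
                  exact mem_image_of_mem _ (mem_st (by omega))
              · by_cases hev : Even (q + 1)
                · have hev' : ¬ Even (q + 1 + 1) := by
                    rw [Nat.even_add_one]
                    exact not_not.2 hev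
                  rw [if_neg hev'] at hx'
                  rw [← hx', hrep]
                  exact mem_image_of_mem _ (mem_st (by omega))
                · rw [if_neg hev] at hx
                  rw [hx]
                  exact mem_image_of_mem _ (mem_st (by omega))
          · exfalso
            apply hne
            refine hr _ _ (even_ne i) _ _ hx ?_
            rw [← hx', hrep]
        · exfalso
          apply hne
          refine hr 0 (if Even l then 1 else 2) ?_ _ _ ?_ hx
          · split_ifs <;> decide
          · rw [← hrep]
            exact h0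
    · rcases k with _ | k
      · exfalso
        apply hin
        intro a ha b hb _
        simp at ha hb
        omega
      · have h1 := ih (by omega) hin
        rw [st_succ]
        refine (step2 r _ _ ?_ (shr h (by omega))).trans h1
        rw [h.h0 k (by omega)]
        exact mem_image_of_mem _ (mem_st (by omega))

lemma st_img {r : Fin 3 → E → V} {m : ℕ} {ψ : ℕ → E} (h : Strip r m ψ) :
    ((st ψ m).image (r 0)).card ≤ 2 := by
  have : (st ψ m).image (r 0) ⊆ {r 0 (ψ 0), r 0 (ψ 1)} := by
    intro v hv
    rw [mem_image] at hv
    obtain ⟨e, he, rfl⟩ := hv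
    unfold st at he
    rw [mem_image] at he
    obtain ⟨k, hk, rfl⟩ := he
    rw [mem_range] at hk
    induction k using Nat.strong_induction_on with
    | _ k ih =>
      rcases k with _ | _ | k
      · simp
      · simp
      · rw [h.h0 k hk]
        exact ih k (by omega) (by omega)
  refine (card_le_card this).trans ?_
  exact card_le_two

lemma ivt (f : ℕ → ℕ) (hf : ∀ k, f (k + 1) ≤ f k + 1) (m : ℕ) (h0 : f 0 ≤ m) :
    ∀ n, m ≤ f n → ∃ k ≤ n, f k = m := by
  intro n
  induction n with
  | zero =>
    intro h
    exact ⟨0, le_rfl, le_antisymm h0 h⟩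
  | succ n ih =>
    intro h
    by_cases h1 : m ≤ f n
    · obtain ⟨k, hk, hk'⟩ := ih h1
      exact ⟨k, by omega, hk'⟩
    · have := hf n
      exact ⟨n + 1, le_rfl, by omega⟩

end Pool.Agent.T2h48.AT.Comb

namespace Pool.Agent.T2h48.AT

open Finset Classical Comb

theorem t_COMB : S_COMB := by
  intro E V r hr m N hm e₀ ψ h00 h1 h0 hcard
  -- it suffices to find a set of `m` edges with small defect
  by_contra hno
  have key : ∀ T : Finset E, T.card = m → 3 < dl r T := by
    intro T hT
    by_contra hle
    push Not at hle
    apply hno
    refine ⟨T, hT, ?_⟩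
    have h2 : ∀ j, ((r j) '' (T : Set E)).ncard = (T.image (r j)).card := by
      intro j
      rw [← coe_image, Set.ncard_coe_finset]
    have h3 : (∑ j, ((r j) '' (T : Set E)).ncard : ℤ) ≤ m + 3 := by
      simp only [h2]
      unfold dl at hle
      rw [hT] at hle
      linarith
    exact_mod_cast h3
  have hst : ∀ i, Strip r m (ψ i) := fun i => ⟨h1 i, h0 i⟩
  -- no strip is injective
  have hni : ∀ i, dl r (st (ψ i) m) ≤ 2 := by
    intro i
    obtain ⟨k, rfl⟩ : ∃ k, m = k + 1 := ⟨m - 1, by omega⟩
    by_cases hin : Set.InjOn (ψ i) (range (k + 1) : Set ℕ)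
    · have hc : (st (ψ i) (k + 1)).card = k + 1 := by
        unfold st
        rw [card_image_of_injOn hin, card_range]
      have := key _ hc
      have := st_le (hst i) (k + 1) le_rfl
      linarith
    · exact st_two hr (hst i) k le_rfl hin
  have h2 : ∀ e : E, dl r {e} = 2 := by
    intro e
    unfold dl
    rw [Fin.sum_univ_three]
    simp
  have main : ∀ A : Finset (Fin N), dl r (insert e₀ (A.biUnion fun i => st (ψ i) m)) ≤ 2 ∧
      (insert e₀ (A.biUnion fun i => st (ψ i) m)).card < m := by
    intro A
    induction A using Finset.induction_on with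
    | empty =>
      rw [biUnion_empty]
      change dl r {e₀} ≤ 2 ∧ ({e₀} : Finset E).card < m
      refine ⟨(h2 e₀).le, ?_⟩
      rw [card_singleton]
      rcases Nat.lt_or_ge 1 m with h | h
      · exact h
      · exfalso
        have := key {e₀} (by rw [card_singleton]; omega)
        rw [h2] at this
        norm_num at this
    | insert i A hi ih =>
      obtain ⟨ih1, ih2⟩ := ih
      set W := insert e₀ (A.biUnion fun i => st (ψ i) m) with hW
      have hWi : insert e₀ ((insert i A).biUnion fun i => st (ψ i) m) = W ∪ st (ψ i) m := by
        rw [biUnion_insert, hW, insert_union, union_comm (st (ψ i) m)]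
      rw [hWi]
      have hsub : ∀ k, k ≤ m → st (ψ i) k ⊆ st (ψ i) m := by
        intro k hk
        unfold st
        exact image_subset_image (range_subset_range.2 hk)
      have hint : ∀ k, 1 ≤ k → k ≤ m → 2 ≤ dl r (W ∩ st (ψ i) k) := by
        intro k hk1 hk
        refine dl_two hr ⟨e₀, ?_⟩ ?_
        · rw [mem_inter]
          refine ⟨mem_insert_self _ _, ?_⟩
          rw [← h00 i]
          exact mem_st (by omega)
        · refine (card_le_card (image_subset_image ?_)).trans (st_img (hst i))
          exact inter_subset_right.trans (hsub k hk)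
      have h3 : ∀ k, k ≤ m → dl r (W ∪ st (ψ i) k) ≤ 3 := by
        intro k hk
        rcases Nat.eq_zero_or_pos k with rfl | hpos
        · have : st (ψ i) 0 = ∅ := by
            unfold st
            simp
          rw [this, union_empty]
          linarith
        · have h4 := dl_union r W (st (ψ i) k)
          have h5 := hint k hpos hk
          have h6 := st_le (hst i) k hk
          linarith
      refine ⟨?_, ?_⟩
      · have h4 := dl_union r W (st (ψ i) m)
        have h5 := hint m hm le_rfl
        have h6 := hni i
        linarith
      · by_contra hge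
        push Not at hge
        obtain ⟨k, hk, hk'⟩ := ivt (fun k => (W ∪ st (ψ i) k).card) (by
          intro k
          rw [st_succ, union_insert]
          exact card_insert_le _ _) m (by
          have : st (ψ i) 0 = ∅ := by
            unfold st
            simp
          change (W ∪ st (ψ i) 0).card ≤ m
          rw [this, union_empty]
          exact ih2.le) m hge
        have h4 := key _ hk'
        have h5 := h3 k hk
        change 3 < dl r (W ∪ st (ψ i) k) at h4
        linarith
  have hfin := (main univ).2
  have hsub : {e | ∃ i, ∃ k < m, e = ψ i k} ⊆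
      ((insert e₀ (univ.biUnion fun i => st (ψ i) m) : Finset E) : Set E) := by
    rintro e ⟨i, k, hk, rfl⟩
    rw [mem_coe, mem_insert, mem_biUnion]
    exact Or.inr ⟨i, mem_univ _, mem_st hk⟩
  have := Set.ncard_le_ncard hsub (Finset.finite_toSet _)
  rw [Set.ncard_coe_finset] at this
  omega

end Pool.Agent.T2h48.AT
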