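import Pool.Agent.T2h48.AT.Stm

/-!
# Task CORE: configurations of near points with few vertices
-/

set_option autoImplicit false

namespace Pool.Agent.T2h48.AT.CORE

theorem dep_mono {F M : Type} [Field F] [Field M] [Algebra F M] {n : ℕ} {ξ : Fin n → M}
    {V W : Finset (Fin n)} (hVW : V ⊆ W) {l : Fin n} (h : Dep F ξ V l) : Dep F ξ W l := by
  refine IsAlgebraic.tower_top_of_subalgebra_le (Algebra.adjoin_mono (Set.image_mono ?_)) h
  exact_mod_cast hVW

theorem sum3 (m : ℕ) (f : Fin 3 → ℕ) (i j : Fin 3) (hij : i ≠ j) (hi : f i ≤ 1) (hj : f j ≤ 1)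
    (hk : ∀ k, f k ≤ m) : ∑ k, f k ≤ m + 3 := by
  have h0 := hk 0
  have h1 := hk 1
  have h2 := hk 2
  clear hk
  rw [Fin.sum_univ_three]
  fin_cases i <;> fin_cases j <;> simp_all <;> omega

/-- the nodes of the strips: `node i 0 = none`, `node i (k + 1) = some (i, k)` -/
def node {N m' : ℕ} (i : Fin N) : ℕ → Option (Fin N × Fin (m' + 1))
  | 0 => none
  | (k + 1) => if h : k < m' + 1 then some (i, ⟨k, h⟩) else none

end Pool.Agent.T2h48.AT.CORE

namespace Pool.Agent.T2h48.AT

open CORE

theorem t_CORE (h1 : S_BAS) (h2 : S_EXT) (h3 : S_UNIQ) (h4 : S_COMB) : S_CORE := by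
  intro F M _ _ _ n a ξ c U₀ hind hdep m hm U hU hcard
  classical
  obtain ⟨hbas, hcmp⟩ := h1 F M n ξ
  obtain ⟨m', rfl⟩ := Nat.exists_eq_add_of_le' hm
  have hU0 : 0 < U₀.card := by
    by_contra h
    have h0 : U₀.card = 0 := by omega
    have h5 := hcard 0
    rw [h0] at h5
    omega
  have hn : 0 < n := by
    have h5 : U₀.card ≤ n := by simpa using Finset.card_le_univ U₀
    omega
  by_cases hA : ∀ i j : Fin 3, i ≠ j → ∀ l,
      Dep F ξ (Finset.univ.image (c i) ∪ Finset.univ.image (c j)) l
  · -- case A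
    obtain ⟨N, hN⟩ : ∃ N, N = n * (m' + 2) := ⟨_, rfl⟩
    obtain ⟨R, _, _, _, ε, x, hnear, hcon, hct⟩ := h2 F M n ξ U₀ hind hdep
      (Fin N × Fin (m' + 1)) ((Fin N × Fin (m' + 1)) × Bool)
      (fun k => node k.1.1 (k.1.2.1 + 1))
      (fun k => if k.2 = true then node k.1.1 (k.1.2.1 - 1) else node k.1.1 k.1.2.1)
      (fun k => if k.2 = true then (if k.1.2.1 = 0 then ∅ else U 0)
        else U (if Even k.1.2.1 then 1 else 2))
    -- the count
    obtain ⟨K, hK, hK'⟩ : ∃ K, (∀ j, (U j).card ≤ K) ∧ (2 * m' + 1) * K < (m' + 1) * U₀.card := by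
      obtain ⟨j, -, hj⟩ := Finset.exists_max_image (Finset.univ : Finset (Fin 3)) (fun j => (U j).card)
        ⟨0, Finset.mem_univ _⟩
      refine ⟨(U j).card, fun i => hj i (Finset.mem_univ _), ?_⟩
      have h5 := hcard j
      rw [show 2 * (m' + 2) - 3 = 2 * m' + 1 by omega, show m' + 2 - 1 = m' + 1 by omega] at h5
      exact h5
    set r := (Set.range fun b : Fin N × Fin (m' + 1) => x (some b)).ncard with hr
    have hsum : ∑ k : (Fin N × Fin (m' + 1)) × Bool, (if k.2 = true then (if k.1.2.1 = 0 then ∅ else U 0)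
        else U (if Even k.1.2.1 then 1 else 2)).card ≤ N * ((2 * m' + 1) * K) := by
      rw [Fintype.sum_prod_type, Fintype.sum_prod_type]
      have h5 : ∀ i : Fin N, ∑ k : Fin (m' + 1), ∑ b : Bool,
          (if b = true then (if k.1 = 0 then ∅ else U 0) else U (if Even k.1 then 1 else 2)).card
          ≤ (2 * m' + 1) * K := by
        intro i
        have h6 : ∀ k : Fin (m' + 1), ∑ b : Bool,
          (if b = true then (if k.1 = 0 then ∅ else U 0) else U (if Even k.1 then 1 else 2)).card
            = (if k.1 = 0 then ∅ else U 0).card + (U (if Even k.1 then 1 else 2)).card := by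
          intro k
          rw [Fintype.sum_bool]
          simp
        simp_rw [h6]
        rw [Finset.sum_add_distrib]
        have h7 : ∑ k : Fin (m' + 1), (U (if Even k.1 then 1 else 2)).card ≤ (m' + 1) * K := by
          calc _ ≤ ∑ k : Fin (m' + 1), K := Finset.sum_le_sum fun k _ => hK _
            _ = (m' + 1) * K := by simp
        have h8 : ∑ k : Fin (m' + 1), (if k.1 = 0 then ∅ else U 0).card ≤ m' * K := by
          rw [Fin.sum_univ_succ]
          have h9 : (if (0 : Fin (m' + 1)).1 = 0 then (∅ : Finset (Fin n)) else U 0).card = 0 := by simp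
          rw [h9, zero_add]
          calc _ ≤ ∑ k : Fin m', K := by
                refine Finset.sum_le_sum fun k _ => ?_
                rw [if_neg (by simp)]
                exact hK 0
            _ = m' * K := by simp
        calc _ ≤ m' * K + (m' + 1) * K := Nat.add_le_add h8 h7
          _ = (2 * m' + 1) * K := by ring
      calc _ ≤ ∑ i : Fin N, (2 * m' + 1) * K := Finset.sum_le_sum fun i _ => h5 i
        _ = N * ((2 * m' + 1) * K) := by simp
    have hmr : m' + 2 ≤ r := by
      have h5 := hct.trans (Nat.add_le_add_left hsum _)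
      rw [Fintype.card_prod, Fintype.card_fin, Fintype.card_fin] at h5
      have h6 : N * ((2 * m' + 1) * K + 1) ≤ N * ((m' + 1) * U₀.card) := Nat.mul_le_mul_left N hK'
      have h7 : N ≤ n * r := by
        nlinarith
      rw [hN] at h7
      exact Nat.le_of_mul_le_mul_left h7 hn
    -- the combinatorial statement
    let E := {y : Fin n → R // Near ε ξ y}
    let rr : Fin 3 → E → (Fin a → R) := fun j y => y.1 ∘ c j
    let ψ : Fin N → ℕ → E := fun i k => ⟨x (node i k), hnear _⟩
    have hlin : ∀ i j : Fin 3, i ≠ j → ∀ e f : E, rr i e = rr i f → rr j e = rr j f → e = f := by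
      intro i j hij e f hi hj
      apply Subtype.ext
      funext l
      refine h3 F M R ε n ξ e.1 f.1 e.2 f.2 _ l ?_ (hA i j hij l)
      intro u hu
      rcases Finset.mem_union.1 hu with h | h
      · obtain ⟨t, -, rfl⟩ := Finset.mem_image.1 h
        exact congrFun hi t
      · obtain ⟨t, -, rfl⟩ := Finset.mem_image.1 h
        exact congrFun hj t
    have hrow : ∀ (j : Fin 3) (e f : E), (∀ l ∈ U j, e.1 l = f.1 l) → rr j e = rr j f := by
      intro j e f h
      funext t
      exact h3 F M R ε n ξ e.1 f.1 e.2 f.2 (U j) (c j t) h (hU j t)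
    obtain ⟨T, hT, hTs⟩ := h4 E (Fin a → R) rr hlin (m' + 2) N (by omega) ⟨x none, hnear _⟩ ψ
      (fun i => rfl) (by
        intro i k hk
        apply hrow
        intro l hl
        have h5 := hcon ((i, ⟨k, by omega⟩), false) l (by simpa using hl)
        simpa using h5) (by
        intro i k hk
        apply hrow
        intro l hl
        have h5 := hcon ((i, ⟨k + 1, by omega⟩), true) l (by simpa using hl)
        simpa using h5) (by
        refine hmr.trans ?_
        have hfin : {e : E | ∃ i, ∃ k < m' + 2, e = ψ i k}.Finite := by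
          refine (Set.finite_range (fun p : Fin N × Fin (m' + 2) => ψ p.1 p.2)).subset ?_
          rintro e ⟨i, k, hk, rfl⟩
          exact ⟨(i, ⟨k, hk⟩), rfl⟩
        refine le_trans ?_ (Set.ncard_image_le (f := Subtype.val) hfin)
        refine Set.ncard_le_ncard ?_ (hfin.image _)
        rintro y ⟨⟨i, k⟩, rfl⟩
        refine ⟨ψ i (k.1 + 1), ⟨i, k.1 + 1, by omega, rfl⟩, ?_⟩
        change x (node i (k.1 + 1)) = x (some (i, k))
        rw [node, dif_pos k.2])
    refine ⟨R, inferInstance, inferInstance, inferInstance, ε,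
      T.map ⟨Subtype.val, Subtype.val_injective⟩, by rw [Finset.card_map, hT], ?_, ?_⟩
    · intro y hy
      obtain ⟨e, -, rfl⟩ := Finset.mem_map.1 hy
      exact e.2
    · refine le_trans (le_of_eq ?_) hTs
      refine Finset.sum_congr rfl fun j _ => ?_
      congr 1
      ext z
      simp only [Finset.coe_map, Function.Embedding.coeFn_mk, Set.mem_image, Finset.mem_coe]
      constructor
      · rintro ⟨_, ⟨e, he, rfl⟩, rfl⟩
        exact ⟨e, he, rfl⟩
      · rintro ⟨e, he, rfl⟩
        exact ⟨e.1, ⟨e, he, rfl⟩, rfl⟩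
  · -- case B
    push Not at hA
    obtain ⟨i, j, hij, l, hl⟩ := hA
    obtain ⟨V, hVW, hVind, hVdep⟩ := hbas (Finset.univ.image (c i) ∪ Finset.univ.image (c j))
    have hVcard : V.card < U₀.card := by
      obtain ⟨h5, h6⟩ := hcmp V U₀ hVind hdep
      rcases h5.lt_or_eq with h | h
      · exact h
      · exact absurd (dep_mono hVW (h6 h l)) hl
    obtain ⟨N, hN⟩ : ∃ N, N = n * (m' + 2) := ⟨_, rfl⟩
    obtain ⟨R, _, _, _, ε, x, hnear, hcon, hct⟩ := h2 F M n ξ U₀ hind hdep
      (Fin N) (Fin N) some (fun _ => none) (fun _ => V)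
    set r := (Set.range fun b : Fin N => x (some b)).ncard with hr
    have hmr : m' + 2 ≤ r := by
      have h5 := hct
      rw [Fintype.card_fin, Finset.sum_const, Finset.card_univ, Fintype.card_fin, smul_eq_mul] at h5
      have h6 : N * (V.card + 1) ≤ N * U₀.card := Nat.mul_le_mul_left N hVcard
      have h7 : N ≤ n * r := by nlinarith
      rw [hN] at h7
      exact Nat.le_of_mul_le_mul_left h7 hn
    have hr' : (Finset.univ.image fun b : Fin N => x (some b)).card = r := by
      rw [hr, ← Set.ncard_coe_finset]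
      congr 1
      simp
    obtain ⟨T, hTs, hT⟩ := Finset.exists_subset_card_eq (hmr.trans (le_of_eq hr'.symm))
    have hTx : ∀ y ∈ T, ∃ b : Fin N, x (some b) = y := by
      intro y hy
      obtain ⟨b, -, hb⟩ := Finset.mem_image.1 (hTs hy)
      exact ⟨b, hb⟩
    have hsame : ∀ y ∈ T, ∀ u ∈ Finset.univ.image (c i) ∪ Finset.univ.image (c j), y u = x none u := by
      intro y hy u hu
      obtain ⟨b, rfl⟩ := hTx y hy
      exact h3 F M R ε n ξ _ _ (hnear _) (hnear _) V u (hcon b) (hVdep u hu)
    refine ⟨R, inferInstance, inferInstance, inferInstance, ε, T, hT, ?_, ?_⟩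
    · intro y hy
      obtain ⟨b, rfl⟩ := hTx y hy
      exact hnear _
    · refine sum3 (m' + 2) _ i j hij ?_ ?_ ?_
      · refine (Set.ncard_le_ncard (t := {x none ∘ c i}) ?_ (Set.finite_singleton _)).trans
          (by rw [Set.ncard_singleton])
        rintro _ ⟨y, hy, rfl⟩
        rw [Set.mem_singleton_iff]
        funext t
        exact hsame y hy _ (Finset.mem_union_left _ (Finset.mem_image_of_mem _ (Finset.mem_univ _)))
      · refine (Set.ncard_le_ncard (t := {x none ∘ c j}) ?_ (Set.finite_singleton _)).trans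
          (by rw [Set.ncard_singleton])
        rintro _ ⟨y, hy, rfl⟩
        rw [Set.mem_singleton_iff]
        funext t
        exact hsame y hy _ (Finset.mem_union_right _ (Finset.mem_image_of_mem _ (Finset.mem_univ _)))
      · intro k
        refine (Set.ncard_image_le (Finset.finite_toSet T)).trans ?_
        rw [Set.ncard_coe_finset, hT]

end Pool.Agent.T2h48.AT
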