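import Pool.Agent.T2h48.AT.Stm

/-! # COUNT -/

set_option autoImplicit false

namespace Pool.Agent.T2h48.AT

theorem count_algHom_finite (F A K : Type) [Field F] [CommRing A] [Algebra F A]
    [Algebra.FiniteType F A] [Field K] [Finite K] [Algebra F K] : Finite (A →ₐ[F] K) := by
  obtain ⟨S, hS⟩ := (inferInstance : Algebra.FiniteType F A).out
  refine Finite.of_injective (fun (φ : A →ₐ[F] K) (x : S) => φ x) ?_
  intro φ φ' h
  refine AlgHom.ext_of_adjoin_eq_top hS fun x hx => ?_
  exact congrFun h ⟨x, hx⟩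

theorem t_COUNT : S_COUNT := by
  classical
  intro F A _ _ _ _ _ _ a v G halg
  obtain ⟨S, hS⟩ := (inferInstance : Algebra.FiniteType F A).out
  set R := Algebra.adjoin F (Set.range v ∪ (G : Set A)) with hR
  have hch : ∀ g : A, ∃ p : Polynomial R, p ≠ 0 ∧ Polynomial.aeval g p = 0 := fun g =>
    halg.isAlgebraic g
  choose p hp0 hp using hch
  have hlc : ∀ g : A, ((p g).leadingCoeff : A) ≠ 0 := by
    intro g h
    exact hp0 g (Polynomial.leadingCoeff_eq_zero.1 (Subtype.ext h))
  refine ⟨∏ g ∈ S, ((p g).leadingCoeff : A), ∏ g ∈ S, (p g).natDegree,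
    Finset.prod_ne_zero_iff.2 fun g _ => hlc g, ?_⟩
  intro t ht k _ _ _
  have hk : Fintype k := Fintype.ofFinite k
  have hfin : Finite (A →ₐ[F] k) := count_algHom_finite F A k
  have hf : Fintype (A →ₐ[F] k) := Fintype.ofFinite _
  set s : Finset (A →ₐ[F] k) := Finset.univ.filter fun ψ => ψ t ≠ 0 with hs
  let f : (A →ₐ[F] k) → (Fin a → k) × (G → k) := fun ψ => (fun i => ψ (v i), fun g => ψ g)
  have h1 : s.card ≤ (∏ g ∈ S, (p g).natDegree) * (s.image f).card := by
    refine Finset.card_le_mul_card_image s _ ?_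
    intro y hy
    obtain ⟨ψ₀, hψ₀, rfl⟩ := Finset.mem_image.1 hy
    have hψ₀' : ψ₀ t ≠ 0 := (Finset.mem_filter.1 hψ₀).2
    set P : A → Polynomial k := fun g => (p g).map (ψ₀.toRingHom.comp R.val.toRingHom) with hP
    have hPlc : ∀ g ∈ S, ψ₀ ((p g).leadingCoeff : A) ≠ 0 := by
      intro g hg h
      apply hψ₀'
      obtain ⟨b, rfl⟩ := (Finset.dvd_prod_of_mem (fun g => ((p g).leadingCoeff : A)) hg).trans ht
      rw [map_mul, h, zero_mul]
    have hP0 : ∀ g ∈ S, P g ≠ 0 := by
      intro g hg h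
      apply hPlc g hg
      have := congrArg (fun q => Polynomial.coeff q (p g).natDegree) h
      simp only [hP, Polynomial.coeff_map, Polynomial.coeff_natDegree, Polynomial.coeff_zero] at this
      exact this
    have hPd : ∀ g, (P g).natDegree ≤ (p g).natDegree := fun g => Polynomial.natDegree_map_le
    have hroot : ∀ ψ : A →ₐ[F] k, f ψ = f ψ₀ → ∀ g, (P g).eval (ψ g) = 0 := by
      intro ψ hψ g
      have hag : ∀ r : R, ψ r = ψ₀ r := by
        have hle : R ≤ AlgHom.equalizer ψ ψ₀ := by
          rw [hR]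
          apply Algebra.adjoin_le
          rintro x (⟨i, rfl⟩ | hx)
          · exact congrFun (congrArg Prod.fst hψ) i
          · exact congrFun (congrArg Prod.snd hψ) ⟨x, hx⟩
        intro r
        exact hle r.2
      have hcomp : ψ₀.toRingHom.comp R.val.toRingHom = ψ.toRingHom.comp R.val.toRingHom := by
        refine RingHom.ext fun r => (hag r).symm
      have h2 := congrArg ψ.toRingHom (hp g)
      rw [Polynomial.aeval_def, Polynomial.hom_eval₂, map_zero] at h2
      rw [hP]
      simp only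
      rw [Polynomial.eval_map, hcomp]
      exact h2
    have h3 : (s.filter fun x => f x = f ψ₀).card ≤
        (Fintype.piFinset fun g : S => (P g).roots.toFinset).card := by
      refine Finset.card_le_card_of_injOn (fun ψ (g : S) => ψ g) ?_ ?_
      · intro ψ hψ
        rw [Finset.mem_coe, Fintype.mem_piFinset]
        intro g
        rw [Multiset.mem_toFinset, Polynomial.mem_roots (hP0 g g.2)]
        exact hroot ψ (Finset.mem_filter.1 (Finset.mem_coe.1 hψ)).2 g
      · intro ψ _ ψ' _ h
        refine AlgHom.ext_of_adjoin_eq_top hS fun x hx => ?_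
        exact congrFun h ⟨x, hx⟩
    refine h3.trans ?_
    rw [Fintype.card_piFinset]
    rw [← Finset.prod_coe_sort S (fun g => (p g).natDegree)]
    refine Finset.prod_le_prod' fun g _ => ?_
    exact (Multiset.toFinset_card_le _).trans ((Polynomial.card_roots' _).trans (hPd g))
  have h2 : (s.image f).card ≤ (s.image fun ψ (i : Fin a) => ψ (v i)).card * Nat.card k ^ G.card := by
    have h3 : s.image f ⊆ (s.image fun ψ (i : Fin a) => ψ (v i)) ×ˢ (Finset.univ : Finset (G → k)) := by
      intro y hy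
      obtain ⟨ψ, hψ, rfl⟩ := Finset.mem_image.1 hy
      rw [Finset.mem_product]
      exact ⟨Finset.mem_image_of_mem _ hψ, Finset.mem_univ _⟩
    refine (Finset.card_le_card h3).trans ?_
    rw [Finset.card_product, Finset.card_univ, Fintype.card_fun, Nat.card_eq_fintype_card,
      Fintype.card_coe]
  have h3 : Nat.card {ψ : A →ₐ[F] k // ψ t ≠ 0} = s.card := by
    rw [Nat.card_eq_fintype_card, Fintype.card_subtype]
  have h4 : (Set.range fun (ψ : {ψ : A →ₐ[F] k // ψ t ≠ 0}) (i : Fin a) => ψ.1 (v i)).ncard =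
      (s.image fun ψ (i : Fin a) => ψ (v i)).card := by
    rw [← Set.ncard_coe_finset]
    congr 1
    ext y
    constructor
    · rintro ⟨ψ, rfl⟩
      rw [Finset.mem_coe, Finset.mem_image]
      exact ⟨ψ.1, Finset.mem_filter.2 ⟨Finset.mem_univ _, ψ.2⟩, rfl⟩
    · intro hy
      obtain ⟨ψ, hψ, rfl⟩ := Finset.mem_image.1 (Finset.mem_coe.1 hy)
      exact ⟨⟨ψ, (Finset.mem_filter.1 hψ).2⟩, rfl⟩
  rw [h3, h4]
  exact h1.trans (Nat.mul_le_mul_left _ h2)

end Pool.Agent.T2h48.AT
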