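import Pool.Agent.T2h48.AT.Stm2

/-!
# EQN: the quantifier-free formula of the family
-/

set_option autoImplicit false

namespace Pool.Agent.T2h48.AT

open MvPolynomial Pool.Agent.T2h48.DW

namespace EQNS

/-- the coordinate `z` of the edge -/
def zc {d : ℕ} (z : Fin 3 × Fin d) : Fin ((d + 2) + (d + 2) + (d + 2)) :=
  cc (d + 2) z.1 (Fin.castAdd 2 z.2)

/-- the free coordinates -/
def uv {d D r : ℕ} (w : Fin 3 × Fin d ≃ Fin D ⊕ Fin r) (m : Fin D) :
    Fin ((d + 2) + (d + 2) + (d + 2)) :=
  zc (w.symm (Sum.inl m))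

section
variable {F : Type} [Field F] {s d D r : ℕ} (w : Fin 3 × Fin d ≃ Fin D ⊕ Fin r)
  (φ : Par s D r → F) (g : MvPolynomial (Fin D) F)

/-- the equations of the labels -/
noncomputable def EL (F : Type) [Field F] (d : ℕ) : QF F ((d + 2) + (d + 2) + (d + 2)) :=
  all ((Finset.univ : Finset (Fin 3 × Fin 2)).toList.map fun z =>
    QF.eq (X (cc (d + 2) z.1 (Fin.natAdd d z.2)) - C (lab z.1 z.2)))

/-- the equations of the generic coordinates -/
noncomputable def EG : QF F ((d + 2) + (d + 2) + (d + 2)) :=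
  all ((Finset.univ : Finset (Fin r)).toList.map fun i =>
    QF.eq (X (zc (w.symm (Sum.inr i))) -
      ∑ α : Fin D → Fin s, C (φ (i, α)) * ∏ m, X (uv w m) ^ (α m : ℕ)))

/-- the formula -/
noncomputable def EE : QF F ((d + 2) + (d + 2) + (d + 2)) :=
  QF.and (EL F d) (QF.and (EG w φ) (QF.neg (QF.eq (rename (uv w) g))))

theorem lab_map {K : Type} [Field K] [Algebra F K] (j : Fin 3) (i : Fin 2) :
    algebraMap F K (lab j i) = lab j i := by
  fin_cases j <;> fin_cases i <;> simp [lab]

theorem EE_holds {K : Type} [Field K] [Algebra F K] (p : Fin ((d + 2) + (d + 2) + (d + 2)) → K) :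
    (EE w φ g).Holds p ↔ (∀ (j : Fin 3) (i : Fin 2), p (cc (d + 2) j (Fin.natAdd d i)) = lab j i) ∧
      (∀ i : Fin r, p (zc (w.symm (Sum.inr i))) =
        val (fun α : Fin D → Fin s => algebraMap F K (φ (i, α))) fun m => p (uv w m)) ∧
      aeval (fun m => p (uv w m)) g ≠ 0 := by
  show (EL F d).Holds p ∧ (EG w φ).Holds p ∧ ¬ (aeval p (rename (uv w) g) = 0) ↔ _
  have h1 : (EL F d).Holds p ↔
      ∀ (j : Fin 3) (i : Fin 2), p (cc (d + 2) j (Fin.natAdd d i)) = lab j i := by
    unfold EL
    rw [all_holds]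
    simp only [List.mem_map, Finset.mem_toList, Finset.mem_univ, true_and, forall_exists_index,
      forall_apply_eq_imp_iff]
    constructor
    · intro h j i
      have h2 : aeval p (X (cc (d + 2) j (Fin.natAdd d i)) - C (lab j i) :
        MvPolynomial (Fin ((d + 2) + (d + 2) + (d + 2))) F) = 0 := h (j, i)
      rw [map_sub, aeval_X, sub_eq_zero, algHom_C, lab_map] at h2
      exact h2
    · intro h z
      show aeval p (X (cc (d + 2) z.1 (Fin.natAdd d z.2)) - C (lab z.1 z.2) :
        MvPolynomial (Fin ((d + 2) + (d + 2) + (d + 2))) F) = 0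
      rw [map_sub, aeval_X, sub_eq_zero, algHom_C, lab_map]
      exact h z.1 z.2
  have h2 : (EG w φ).Holds p ↔ ∀ i : Fin r, p (zc (w.symm (Sum.inr i))) =
        val (fun α : Fin D → Fin s => algebraMap F K (φ (i, α))) fun m => p (uv w m) := by
    unfold EG
    rw [all_holds]
    simp only [List.mem_map, Finset.mem_toList, Finset.mem_univ, true_and, forall_exists_index,
      forall_apply_eq_imp_iff]
    refine forall_congr' fun i => ?_
    show aeval p (X (zc (w.symm (Sum.inr i))) -
      ∑ α : Fin D → Fin s, C (φ (i, α)) * ∏ m, X (uv w m) ^ (α m : ℕ) :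
        MvPolynomial (Fin ((d + 2) + (d + 2) + (d + 2))) F) = 0 ↔ _
    rw [map_sub, aeval_X, sub_eq_zero, map_sum]
    unfold val
    simp only [map_mul, map_prod, map_pow, aeval_X, algHom_C]
  rw [h1, h2, aeval_rename]
  rfl

theorem EE_iff {K : Type} [Field K] [Algebra F K] (p : Fin ((d + 2) + (d + 2) + (d + 2)) → K) :
    (EE w φ g).Holds p ↔ ∃ u : Fin D → K, aeval u g ≠ 0 ∧
      ∀ j, p ∘ cc (d + 2) j = vtx w (fun z => algebraMap F K (φ z)) j u := by
  rw [EE_holds]
  constructor
  · rintro ⟨h1, h2, h3⟩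
    refine ⟨fun m => p (uv w m), h3, fun j => ?_⟩
    funext l
    unfold vtx
    refine Fin.addCases (fun i => ?_) (fun i => ?_) l
    · rw [Fin.append_left, Function.comp_apply]
      unfold vert pt
      show p (zc (j, i)) = _
      rcases hw : w (j, i) with m | i'
      · rw [Sum.elim_inl]
        unfold uv
        rw [← hw, Equiv.symm_apply_apply]
      · rw [Sum.elim_inr, ← h2 i', ← hw, Equiv.symm_apply_apply]
    · rw [Fin.append_right, Function.comp_apply]
      exact h1 j i
  · rintro ⟨u, h1, h2⟩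
    have h3 : ∀ z : Fin 3 × Fin d, p (zc z) = pt w (fun z => algebraMap F K (φ z)) u z := by
      intro z
      have h4 := congrFun (h2 z.1) (Fin.castAdd 2 z.2)
      unfold vtx at h4
      rw [Fin.append_left, Function.comp_apply] at h4
      exact h4
    have h4 : (fun m => p (uv w m)) = u := by
      funext m
      unfold uv
      rw [h3]
      unfold pt
      rw [Equiv.apply_symm_apply, Sum.elim_inl]
    rw [h4]
    refine ⟨fun j i => ?_, fun i => ?_, h1⟩
    · have h5 := congrFun (h2 j) (Fin.natAdd d i)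
      unfold vtx at h5
      rw [Fin.append_right, Function.comp_apply] at h5
      exact h5
    · rw [h3]
      unfold pt
      rw [Equiv.apply_symm_apply, Sum.elim_inr]

end

/-- the three points are distinct -/
theorem vtx_ne {s d D r : ℕ} (w : Fin 3 × Fin d ≃ Fin D ⊕ Fin r) {K : Type} [Field K]
    (φ : Par s D r → K) (u u' : Fin D → K) (j j' : Fin 3) (h : j ≠ j') :
    vtx w φ j u ≠ vtx w φ j' u' := by
  intro he
  apply h
  have h1 : ∀ i : Fin 2, (lab j i : K) = lab j' i := by
    intro i
    have h5 := congrFun he (Fin.natAdd d i)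
    unfold vtx at h5
    rw [Fin.append_right, Fin.append_right] at h5
    exact h5
  have h2 := h1 0
  have h3 := h1 1
  fin_cases j <;> fin_cases j' <;> simp_all [lab]

end EQNS

open EQNS in
theorem t_EQN : S_EQN := by
  intro F _ s d D r w φ g
  refine ⟨EE w φ g, fun K _ _ => ?_⟩
  ext e
  constructor
  · rintro ⟨x, y, z, -, -, -, he, hE⟩
    rw [EE_iff] at hE
    obtain ⟨u, hu, hj⟩ := hE
    obtain ⟨c0, c1, c2⟩ := cc_append x y z
    refine ⟨u, hu, ?_⟩
    rw [he]
    ext v
    simp only [Set.mem_insert_iff, Set.mem_singleton_iff, Set.mem_range]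
    have h0 := hj 0
    have h1 := hj 1
    have h2 := hj 2
    rw [c0] at h0
    rw [c1] at h1
    rw [c2] at h2
    constructor
    · rintro (h | h | h)
      · exact ⟨0, by rw [h, h0]⟩
      · exact ⟨1, by rw [h, h1]⟩
      · exact ⟨2, by rw [h, h2]⟩
    · rintro ⟨j, rfl⟩
      fin_cases j
      · exact Or.inl h0.symm
      · exact Or.inr (Or.inl h1.symm)
      · exact Or.inr (Or.inr h2.symm)
  · rintro ⟨u, hu, he⟩
    obtain ⟨v, hv⟩ : ∃ v, v = fun j => vtx w (fun z => algebraMap F K (φ z)) j u := ⟨_, rfl⟩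
    have hvj : ∀ j, vtx w (fun z => algebraMap F K (φ z)) j u = v j := fun j => by rw [hv]
    obtain ⟨c0, c1, c2⟩ := cc_append (v 0) (v 1) (v 2)
    have hne : ∀ j j' : Fin 3, j ≠ j' → v j ≠ v j' := by
      intro j j' h
      rw [← hvj, ← hvj]
      exact vtx_ne w _ u u j j' h
    refine ⟨v 0, v 1, v 2, hne _ _ (by decide), hne _ _ (by decide), hne _ _ (by decide), ?_, ?_⟩
    · rw [he]
      ext t
      simp only [Set.mem_insert_iff, Set.mem_singleton_iff, Set.mem_range, hvj]
      constructor
      · rintro ⟨j, rfl⟩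
        fin_cases j
        · exact Or.inl rfl
        · exact Or.inr (Or.inl rfl)
        · exact Or.inr (Or.inr rfl)
      · rintro (h | h | h)
        · exact ⟨0, h.symm⟩
        · exact ⟨1, h.symm⟩
        · exact ⟨2, h.symm⟩
    · rw [EE_iff]
      refine ⟨u, hu, fun j => ?_⟩
      rw [hvj]
      fin_cases j
      · exact c0
      · exact c1
      · exact c2

end Pool.Agent.T2h48.AT
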