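import Pool.Agent.T2h48.AT.Stm

set_option autoImplicit false

namespace Pool.Agent.T2h48.AT.EXT

open MvPolynomial

/-- the ideal of a point -/
theorem ker_eq_span {M σ : Type} [Field M] (a : σ → M) :
    RingHom.ker (MvPolynomial.aeval a : MvPolynomial σ M →ₐ[M] M) =
      Ideal.span (Set.range fun i : σ => (X i - C (a i) : MvPolynomial σ M)) := by
  apply le_antisymm
  · intro f hf
    rw [RingHom.mem_ker] at hf
    set I := Ideal.span (Set.range fun i : σ => (X i - C (a i) : MvPolynomial σ M)) with hI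
    have h1 : Ideal.Quotient.mkₐ M I = (Algebra.ofId M (MvPolynomial σ M ⧸ I)).comp
        (MvPolynomial.aeval a : MvPolynomial σ M →ₐ[M] M) := by
      refine MvPolynomial.algHom_ext fun i => ?_
      rw [AlgHom.comp_apply, aeval_X]
      change Ideal.Quotient.mk I (X i) = Ideal.Quotient.mk I (C (a i))
      rw [Ideal.Quotient.eq]
      exact Ideal.subset_span ⟨i, rfl⟩
    have h2 := congrArg (fun φ : MvPolynomial σ M →ₐ[M] (MvPolynomial σ M ⧸ I) => φ f) h1
    simp only [AlgHom.comp_apply, hf, map_zero] at h2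
    exact Ideal.Quotient.eq_zero_iff_mem.1 h2
  · rw [Ideal.span_le]
    rintro _ ⟨i, rfl⟩
    rw [SetLike.mem_coe, RingHom.mem_ker, map_sub, aeval_X, ← MvPolynomial.algebraMap_eq,
      AlgHom.commutes]
    exact sub_self _

section

variable {F M : Type} [Field F] [Field M] [Algebra F M] {n : ℕ} (ξ : Fin n → M) (B : Type)

/-- the points -/
noncomputable def z : Option B → Fin n → MvPolynomial (B × Fin n) M
  | none, l => C (ξ l)
  | some b, l => X (b, l)

/-- specialisation -/
noncomputable def e0 : MvPolynomial (B × Fin n) M →ₐ[M] M := aeval fun i => ξ i.2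

theorem e0_z (b : Option B) (l : Fin n) : e0 ξ B (z ξ B b l) = ξ l := by
  cases b with
  | none =>
    change e0 ξ B (C (ξ l)) = ξ l
    rw [← MvPolynomial.algebraMap_eq, AlgHom.commutes]
    rfl
  | some b =>
    change e0 ξ B (X (b, l)) = ξ l
    unfold e0
    rw [aeval_X]

theorem e0_aeval (b : Option B) (f : MvPolynomial (Fin n) F) :
    e0 ξ B (aeval (z ξ B b) f) = aeval ξ f := by
  have h1 : ((e0 ξ B).restrictScalars F).comp
      (aeval (z ξ B b) : MvPolynomial (Fin n) F →ₐ[F] MvPolynomial (B × Fin n) M) =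
      (aeval ξ : MvPolynomial (Fin n) F →ₐ[F] M) := by
    refine MvPolynomial.algHom_ext fun l => ?_
    rw [AlgHom.comp_apply, aeval_X, aeval_X]
    exact e0_z ξ B b l
  exact congrArg (fun φ : MvPolynomial (Fin n) F →ₐ[F] M => φ f) h1

end

end Pool.Agent.T2h48.AT.EXT

namespace Pool.Agent.T2h48.AT

open MvPolynomial EXT

theorem t_EXT (h1 : S_MIN) (h2 : S_HTP) (h3 : S_KRU) : S_EXT := by
  classical
  intro F M _ _ _ n ξ U₀ hU hD B κ _ _ p p' U
  obtain ⟨s, hs, hs0, hsf⟩ := h1 F M n ξ U₀ hU hD
  let m : Ideal (MvPolynomial (B × Fin n) M) := RingHom.ker (e0 ξ B)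
  have hmp : m.IsPrime := RingHom.ker_isPrime _
  have hht : (Fintype.card (B × Fin n) : ℕ∞) ≤ m.height := h2 M (B × Fin n) fun i => ξ i.2
  let g : (B × {g // g ∈ s}) ⊕ (Σ k : κ, {l // l ∈ U k}) → MvPolynomial (B × Fin n) M :=
    Sum.elim (fun i => aeval (z ξ B (some i.1)) i.2.1)
      (fun i => z ξ B (p i.1) i.2.1 - z ξ B (p' i.1) i.2.1)
  have hg : ∀ k, g k ∈ m := by
    rintro (⟨b, f, hf⟩ | ⟨k, l, hl⟩)
    · change e0 ξ B (aeval (z ξ B (some b)) f) = 0
      rw [e0_aeval]
      exact hs0 f hf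
    · change e0 ξ B (z ξ B (p k) l - z ξ B (p' k) l) = 0
      rw [map_sub, e0_z, e0_z, sub_self]
  obtain ⟨Q, hQp, hgQ, hQm, hQh⟩ := h3 (MvPolynomial (B × Fin n) M) m _ g hg
  have hQ0 : ∀ a ∈ Q, ((e0 ξ B).restrictScalars F) a = 0 := fun a ha => hQm ha
  let ε : (MvPolynomial (B × Fin n) M ⧸ Q) →ₐ[F] M :=
    Ideal.Quotient.liftₐ Q ((e0 ξ B).restrictScalars F) hQ0
  have hε : ∀ a, ε (Ideal.Quotient.mk Q a) = e0 ξ B a := fun a => rfl
  let x : Option B → Fin n → (MvPolynomial (B × Fin n) M ⧸ Q) :=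
    fun b l => Ideal.Quotient.mk Q (z ξ B b l)
  have hx : ∀ (b : Option B) (f : MvPolynomial (Fin n) F),
      aeval (x b) f = Ideal.Quotient.mk Q (aeval (z ξ B b) f) := by
    intro b f
    have e1 : (aeval (x b) : MvPolynomial (Fin n) F →ₐ[F] (MvPolynomial (B × Fin n) M ⧸ Q)) =
        (Ideal.Quotient.mkₐ F Q).comp (aeval (z ξ B b)) := by
      refine MvPolynomial.algHom_ext fun l => ?_
      rw [AlgHom.comp_apply, aeval_X, aeval_X]
      rfl
    exact congrArg (fun φ : MvPolynomial (Fin n) F →ₐ[F] (MvPolynomial (B × Fin n) M ⧸ Q) => φ f) e1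
  refine ⟨MvPolynomial (B × Fin n) M ⧸ Q, inferInstance, inferInstance, inferInstance, ε, x,
    ?_, ?_, ?_⟩
  · intro b
    refine ⟨fun l => ?_, fun f hf => ?_⟩
    · rw [hε, e0_z]
    · rw [hx]
      cases b with
      | none =>
        have e1 : aeval (z ξ B none) f = C (σ := B × Fin n) (aeval ξ f) := by
          have e2 : (aeval (z ξ B none) : MvPolynomial (Fin n) F →ₐ[F] MvPolynomial (B × Fin n) M) =
              ((Algebra.ofId M (MvPolynomial (B × Fin n) M)).restrictScalars F).comp (aeval ξ) := by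
            refine MvPolynomial.algHom_ext fun l => ?_
            rw [AlgHom.comp_apply, aeval_X, aeval_X]
            rfl
          exact congrArg (fun φ : MvPolynomial (Fin n) F →ₐ[F] MvPolynomial (B × Fin n) M => φ f) e2
        rw [e1, hf, C_0, map_zero]
      | some b =>
        rw [Ideal.Quotient.eq_zero_iff_mem]
        obtain ⟨y, k, hy, hyk⟩ := hsf f hf
        have e1 : Ideal.span (s : Set (MvPolynomial (Fin n) F)) ≤
            Q.comap (aeval (z ξ B (some b)) :
              MvPolynomial (Fin n) F →ₐ[F] MvPolynomial (B × Fin n) M).toRingHom := by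
          rw [Ideal.span_le]
          intro h hh
          exact hgQ (Sum.inl (b, ⟨h, hh⟩))
        have e2 : aeval (z ξ B (some b)) (y * f ^ k) ∈ Q := e1 hyk
        rw [map_mul, map_pow] at e2
        rcases hQp.mem_or_mem e2 with e3 | e3
        · exfalso
          have e4 : e0 ξ B (aeval (z ξ B (some b)) y) = 0 := hQm e3
          rw [e0_aeval] at e4
          exact hy e4
        · exact hQp.mem_of_pow_mem k e3
  · intro k l hl
    change Ideal.Quotient.mk Q _ = Ideal.Quotient.mk Q _
    rw [Ideal.Quotient.eq]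
    exact hgQ (Sum.inr ⟨k, l, hl⟩)
  · -- the number of generators
    set Y : Set (Fin n → (MvPolynomial (B × Fin n) M ⧸ Q)) := Set.range fun b : B => x (some b)
      with hY
    have hYf : Y.Finite := Set.finite_range _
    let T : Finset (MvPolynomial (B × Fin n) M ⧸ Q) :=
      (Finset.univ ×ˢ hYf.toFinset).image fun i : Fin n × (Fin n → _) =>
        i.2 i.1 - Ideal.Quotient.mk Q (C (ξ i.1))
    have hT : (T.card : ℕ∞) ≤ (n * Y.ncard : ℕ) := by
      have : T.card ≤ n * Y.ncard := by
        refine Finset.card_image_le.trans ?_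
        rw [Finset.card_product, Finset.card_univ, Fintype.card_fin,
          Set.ncard_eq_toFinset_card Y hYf]
      exact_mod_cast this
    have hmT : m.map (Ideal.Quotient.mk Q) = Ideal.span (T : Set (MvPolynomial (B × Fin n) M ⧸ Q)) := by
      have e1 : m = Ideal.span (Set.range fun i : B × Fin n =>
          (X i - C (ξ i.2) : MvPolynomial (B × Fin n) M)) := ker_eq_span fun i : B × Fin n => ξ i.2
      rw [e1, Ideal.map_span]
      congr 1
      ext w
      constructor
      · rintro ⟨_, ⟨⟨b, l⟩, rfl⟩, rfl⟩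
        rw [Finset.mem_coe, Finset.mem_image]
        refine ⟨(l, x (some b)), ?_, ?_⟩
        · rw [Finset.mem_product]
          exact ⟨Finset.mem_univ _, hYf.mem_toFinset.2 ⟨b, rfl⟩⟩
        · rw [map_sub]
          rfl
      · intro hw
        rw [Finset.mem_coe, Finset.mem_image] at hw
        obtain ⟨⟨l, y⟩, hly, rfl⟩ := hw
        rw [Finset.mem_product] at hly
        obtain ⟨b, rfl⟩ := hYf.mem_toFinset.1 hly.2
        refine ⟨_, ⟨(b, l), rfl⟩, ?_⟩
        rw [map_sub]
        rfl
    have hmp' : (m.map (Ideal.Quotient.mk Q)).IsPrime := Ideal.isPrime_map_quotientMk_of_isPrime hQm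
    have hht' : (m.map (Ideal.Quotient.mk Q)).height ≤ (T.card : ℕ∞) := by
      refine Ideal.height_le_card_of_mem_minimalPrimes_span_finset ?_
      rw [← hmT, Ideal.minimalPrimes_eq_subsingleton_self]
      exact Set.mem_singleton _
    have hcard : (Fintype.card ((B × {g // g ∈ s}) ⊕ (Σ k : κ, {l // l ∈ U k})) : ℕ∞) =
        ((Fintype.card B * s.card + ∑ k, (U k).card : ℕ) : ℕ∞) := by
      congr 1
      rw [Fintype.card_sum, Fintype.card_prod, Fintype.card_sigma, Fintype.card_coe]
      congr 1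
      exact Finset.sum_congr rfl fun k _ => Fintype.card_coe _
    have hfin : ((Fintype.card (B × Fin n) : ℕ) : ℕ∞) ≤
        ((n * Y.ncard + (Fintype.card B * s.card + ∑ k, (U k).card) : ℕ) : ℕ∞) := by
      refine hht.trans (hQh.trans ?_)
      rw [hcard]
      push_cast
      refine add_le_add ?_ le_rfl
      exact_mod_cast hht'.trans hT
    have hfin' : Fintype.card B * n ≤
        n * Y.ncard + (Fintype.card B * s.card + ∑ k, (U k).card) := by
      have : Fintype.card (B × Fin n) = Fintype.card B * n := by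
        rw [Fintype.card_prod, Fintype.card_fin]
      rw [this] at hfin
      exact_mod_cast hfin
    have h5 : Fintype.card B * (s.card + U₀.card) ≤ Fintype.card B * n := Nat.mul_le_mul_left _ hs
    rw [mul_add] at h5
    omega

end Pool.Agent.T2h48.AT
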