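import Pool.Agent.T2h48.AT.Stm2

/-!
# FAM: specialisation to a finite field
-/

set_option autoImplicit false

namespace Pool.Agent.T2h48.AT

open MvPolynomial Pool.Agent.T2h48.DW

theorem FAM_spec {k F K α β : Type} [Field k] [Field F] [Field K] [Algebra k F] [Algebra F K]
    [Algebra k K] [IsScalarTower k F K] (φ : α → F) (u : β → K) (g₀ : MvPolynomial (α ⊕ β) k) :
    aeval u (aeval (Sum.elim (fun z => C (φ z)) X) g₀ : MvPolynomial β F) =
      aeval (Sum.elim (fun z => algebraMap F K (φ z)) u) g₀ := by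
  induction g₀ using MvPolynomial.induction_on with
  | C a =>
    rw [algHom_C, algHom_C, IsScalarTower.algebraMap_apply k F (MvPolynomial β F),
      MvPolynomial.algebraMap_eq, algHom_C, ← IsScalarTower.algebraMap_apply]
  | add x y hx hy => rw [map_add, map_add, map_add, hx, hy]
  | mul_X x i hx =>
    rw [map_mul, map_mul, map_mul, hx, aeval_X, aeval_X]
    congr 1
    rcases i with i | i
    · rw [Sum.elim_inl, Sum.elim_inl, algHom_C]
    · rw [Sum.elim_inr, Sum.elim_inr, aeval_X]

theorem t_FAM (h1 : S_NB) (h2 : S_SPEC) : S_FAM := by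
  intro p _ s d D r w hs hineq
  obtain ⟨g₀, hg₀, H⟩ := h1 (ZMod p) s d D r w hs hineq
  obtain ⟨n, hn, hχ⟩ := h2 (ZMod p) (MvPolynomial (Par s D r ⊕ Fin D) (ZMod p)) g₀ hg₀
  have hfin : Finite (GaloisField p n) := inferInstance
  obtain ⟨χ, hχ⟩ := hχ (GaloisField p n) (by rw [GaloisField.finrank p (by omega)])
  have hχe : χ g₀ = aeval (Sum.elim (fun z => χ (X (Sum.inl z))) (fun m => χ (X (Sum.inr m)))) g₀ := by
    have h3 : χ = aeval (Sum.elim (fun z => χ (X (Sum.inl z))) (fun m => χ (X (Sum.inr m)))) := by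
      apply MvPolynomial.algHom_ext
      intro i
      rw [aeval_X]
      rcases i with i | i
      · rw [Sum.elim_inl]
      · rw [Sum.elim_inr]
    exact congrArg (fun f : MvPolynomial (Par s D r ⊕ Fin D) (ZMod p) →ₐ[ZMod p] GaloisField p n =>
      f g₀) h3
  refine ⟨GaloisField p n, inferInstance, hfin, inferInstance, fun z => χ (X (Sum.inl z)),
    aeval (Sum.elim (fun z => C (χ (X (Sum.inl z)))) X) g₀, ?_, ?_⟩
  · intro h0
    apply hχ
    rw [hχe]
    have h3 := FAM_spec (K := GaloisField p n) (fun z => χ (X (Sum.inl z)))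
      (fun m => χ (X (Sum.inr m))) g₀
    rw [h0, map_zero] at h3
    exact h3.symm
  · intro K _ _ U hU hne
    letI : Algebra (ZMod p) K :=
      ((algebraMap (GaloisField p n) K).comp (algebraMap (ZMod p) (GaloisField p n))).toAlgebra
    haveI : IsScalarTower (ZMod p) (GaloisField p n) K := IsScalarTower.of_algebraMap_eq fun x => rfl
    have h3 := FAM_spec (K := K) (fun z => χ (X (Sum.inl z))) (U ⟨0, hs⟩) g₀
    rw [h3] at hne
    exact H K _ U hU hne

end Pool.Agent.T2h48.AT
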