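import Pool.Agent.T2h48.AT.Stm2

/-!
# HD: edges and parameters
-/

set_option autoImplicit false

namespace Pool.Agent.T2h48.AT

open MvPolynomial Pool.Agent.T2h48.DW
open scoped Classical

namespace HDS

section
variable {s d D r : ℕ} (w : Fin 3 × Fin d ≃ Fin D ⊕ Fin r) {K : Type} [Field K]
  (φ : Par s D r → K)

/-- the label determines the type -/
theorem lab_inj (j j' : Fin 3) (h : ∀ i : Fin 2, (lab j i : K) = lab j' i) : j = j' := by
  have h2 := h 0
  have h3 := h 1
  fin_cases j <;> fin_cases j' <;> simp_all [lab]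

theorem vtx_type (u u' : Fin D → K) (j j' : Fin 3) (he : vtx w φ j u = vtx w φ j' u') :
    j = j' := by
  apply lab_inj (K := K)
  intro i
  have h5 := congrFun he (Fin.natAdd d i)
  unfold vtx at h5
  rw [Fin.append_right, Fin.append_right] at h5
  exact h5

/-- the edge as a finset -/
noncomputable def Ed (u : Fin D → K) : Finset (Fin (d + 2) → K) :=
  Finset.univ.image fun j : Fin 3 => vtx w φ j u

theorem coe_Ed (u : Fin D → K) :
    (Ed w φ u : Set (Fin (d + 2) → K)) = Set.range fun j : Fin 3 => vtx w φ j u := by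
  unfold Ed
  rw [Finset.coe_image, Finset.coe_univ, Set.image_univ]

theorem vtx_det {u u' : Fin D → K} (h : ∀ j, vtx w φ j u = vtx w φ j u') : u = u' := by
  have h3 : ∀ z : Fin 3 × Fin d, pt w φ u z = pt w φ u' z := by
    intro z
    have h4 := congrFun (h z.1) (Fin.castAdd 2 z.2)
    unfold vtx at h4
    rw [Fin.append_left, Fin.append_left] at h4
    exact h4
  funext m
  have h4 := h3 (w.symm (Sum.inl m))
  unfold pt at h4
  rw [Equiv.apply_symm_apply, Sum.elim_inl, Sum.elim_inl] at h4
  exact h4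

theorem Ed_inj : Function.Injective (Ed w φ) := by
  intro u u' h
  apply vtx_det w φ
  intro j
  have h1 : vtx w φ j u ∈ Ed w φ u := Finset.mem_image.2 ⟨j, Finset.mem_univ _, rfl⟩
  rw [h] at h1
  obtain ⟨j', -, hj'⟩ := Finset.mem_image.1 h1
  have h2 := vtx_type w φ u' u j' j hj'
  rw [h2] at hj'
  exact hj'.symm

end

theorem fam_eq {F : Type} [Field F] {s d D r : ℕ} (w : Fin 3 × Fin d ≃ Fin D ⊕ Fin r)
    (φ : Par s D r → F) (g : MvPolynomial (Fin D) F) (K : Type) [Field K] [Algebra F K] :
    fam w φ g K = Ed w (fun z => algebraMap F K (φ z)) '' {u : Fin D → K | aeval u g ≠ 0} := by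
  ext e
  constructor
  · rintro ⟨u, hu, he⟩
    refine ⟨u, hu, ?_⟩
    rw [← Finset.coe_inj, he, coe_Ed]
  · rintro ⟨u, hu, rfl⟩
    exact ⟨u, hu, coe_Ed _ _ _⟩

end HDS

open HDS in
theorem t_HD : S_HD := by
  intro F _ s d D r w φ g hs K _ _ _ H
  obtain ⟨ψ, hψ⟩ : ∃ ψ : Par s D r → K, ψ = fun z => algebraMap F K (φ z) := ⟨_, rfl⟩
  have hfam := fam_eq w φ g K
  rw [← hψ] at H hfam
  refine ⟨?_, ?_, ?_⟩
  · rintro ⟨S, hS, hc, hd⟩
    have hE : ∀ l : Fin s, ∃ u : Fin D → K, aeval u g ≠ 0 ∧
        Ed w ψ u = ((S.equivFinOfCardEq hc).symm l : Finset (Fin (d + 2) → K)) := by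
      intro l
      have h1 := hS _ ((S.equivFinOfCardEq hc).symm l).2
      rw [hfam] at h1
      obtain ⟨u, hu, he⟩ := h1
      exact ⟨u, hu, he⟩
    choose U hU hUe using hE
    have hinj : Function.Injective U := by
      intro l l' h
      have h1 := hUe l
      rw [h, hUe l'] at h1
      exact ((S.equivFinOfCardEq hc).symm.injective (Subtype.ext h1)).symm
    have h1 := H U hinj (hU _)
    -- the vertices of each type
    have h2 : ∀ j : Fin 3, (Set.range fun l => vert w ψ j (U l)).ncard =
        (Finset.univ.image fun l => vtx w ψ j (U l)).card := by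
      intro j
      have h3 : Function.Injective fun x : Fin d → K => (Fin.append x (lab j) : Fin (d + 2) → K) := by
        intro x y hxy
        funext i
        have h4 := congrFun hxy (Fin.castAdd 2 i)
        simp only [Fin.append_left] at h4
        exact h4
      rw [← Set.ncard_image_of_injective _ h3, ← Set.ncard_coe_finset]
      congr 1
      rw [Finset.coe_image, Finset.coe_univ, Set.image_univ, ← Set.range_comp]
      rfl
    have h3 : ∑ j, (Finset.univ.image fun l => vtx w ψ j (U l)).card =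
        (Finset.univ.biUnion fun j => Finset.univ.image fun l => vtx w ψ j (U l)).card := by
      rw [Finset.card_biUnion]
      intro j _ j' _ hne
      rw [Function.onFun, Finset.disjoint_left]
      intro v hv hv'
      obtain ⟨l, -, hl⟩ := Finset.mem_image.1 hv
      obtain ⟨l', -, hl'⟩ := Finset.mem_image.1 hv'
      exact hne (vtx_type w ψ (U l) (U l') j j' (hl.trans hl'.symm))
    have h4 : (Finset.univ.biUnion fun j => Finset.univ.image fun l => vtx w ψ j (U l)).card ≤
        {v | ∃ e ∈ S, v ∈ e}.ncard := by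
      rw [← Set.ncard_coe_finset]
      refine Set.ncard_le_ncard ?_ (Set.toFinite _)
      intro v hv
      rw [Finset.mem_coe, Finset.mem_biUnion] at hv
      obtain ⟨j, -, hj⟩ := hv
      obtain ⟨l, -, hl⟩ := Finset.mem_image.1 hj
      refine ⟨_, ((S.equivFinOfCardEq hc).symm l).2, ?_⟩
      rw [← hUe l, ← hl]
      exact Finset.mem_image.2 ⟨j, Finset.mem_univ _, rfl⟩
    rw [Finset.sum_congr rfl fun j _ => h2 j, h3] at h1
    omega
  · rw [hfam]
    exact Set.ncard_image_of_injective _ (Ed_inj w ψ)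
  · have h1 : covered (fam w φ g K) ⊆
        (fun p : Fin 3 × (Fin d → K) => (Fin.append p.2 (lab p.1) : Fin (d + 2) → K)) ''
          Set.univ := by
      rintro v ⟨e, he, hv⟩
      rw [hfam] at he
      obtain ⟨u, -, rfl⟩ := he
      obtain ⟨j, -, rfl⟩ := Finset.mem_image.1 hv
      exact ⟨(j, vert w ψ j u), trivial, rfl⟩
    refine (Set.ncard_le_ncard h1 (Set.toFinite _)).trans ?_
    refine (Set.ncard_image_le (Set.toFinite _)).trans ?_
    rw [Set.ncard_univ, Nat.card_prod, Nat.card_fun]
    simp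

end Pool.Agent.T2h48.AT
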