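import Pool.Agent.T2h48.AT.Stm

set_option autoImplicit false

namespace Pool.Agent.T2h48.AT.HTP

open MvPolynomial

variable {M σ : Type} [Field M] (a : σ → M)

open Classical in
/-- substitute `a i` for `X i`, `i ∈ S` -/
noncomputable def phi (S : Finset σ) : MvPolynomial σ M →ₐ[M] MvPolynomial σ M :=
  aeval fun i => if i ∈ S then C (a i) else X i

open Classical in
theorem phi_X (S : Finset σ) (i : σ) : phi a S (X i) = if i ∈ S then C (a i) else X i := by
  unfold phi
  rw [aeval_X]

instance isPrime_ker (S : Finset σ) : (RingHom.ker (phi a S)).IsPrime := RingHom.ker_isPrime _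

theorem ker_lt (S : Finset σ) (i : σ) (hi : i ∉ S) [DecidableEq σ] :
    RingHom.ker (phi a S) < RingHom.ker (phi a (insert i S)) := by
  refine lt_of_le_of_ne ?_ ?_
  · intro f hf
    rw [RingHom.mem_ker] at hf ⊢
    have h1 : phi a (insert i S) = (phi a {i}).comp (phi a S) := by
      refine MvPolynomial.algHom_ext fun j => ?_
      rw [AlgHom.comp_apply, phi_X, phi_X]
      by_cases hj : j ∈ S
      · rw [if_pos hj, if_pos (Finset.mem_insert_of_mem hj), ← MvPolynomial.algebraMap_eq,
          AlgHom.commutes]
      · rw [if_neg hj, phi_X]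
        by_cases hji : j = i
        · rw [if_pos (by rw [hji]; exact Finset.mem_insert_self _ _), if_pos (by rw [hji]; simp)]
        · rw [if_neg (by rw [Finset.mem_insert]; tauto), if_neg (by simpa using hji)]
    rw [h1, AlgHom.comp_apply, hf, map_zero]
  · intro heq
    have h1 : (X i - C (a i) : MvPolynomial σ M) ∈ RingHom.ker (phi a (insert i S)) := by
      rw [RingHom.mem_ker, map_sub, phi_X, if_pos (Finset.mem_insert_self _ _),
        ← MvPolynomial.algebraMap_eq, AlgHom.commutes, sub_self]
    rw [← heq, RingHom.mem_ker, map_sub, phi_X, if_neg hi, ← MvPolynomial.algebraMap_eq,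
      AlgHom.commutes, MvPolynomial.algebraMap_eq] at h1
    have h2 := congrArg (aeval (fun _ => a i + 1 : σ → M)) h1
    rw [map_sub, aeval_X, ← MvPolynomial.algebraMap_eq, AlgHom.commutes, map_zero] at h2
    simp at h2

theorem card_le (S : Finset σ) : (S.card : ℕ∞) ≤ (RingHom.ker (phi a S)).height := by
  classical
  induction S using Finset.induction_on with
  | empty => simp
  | insert i S hi ih =>
    rw [Finset.card_insert_of_notMem hi]
    push_cast
    exact (add_le_add ih le_rfl).trans (Ideal.height_add_one_le_of_lt_of_isPrime (ker_lt a S i hi))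

end Pool.Agent.T2h48.AT.HTP

namespace Pool.Agent.T2h48.AT

open MvPolynomial

theorem t_HTP : S_HTP := by
  intro M σ _ _ a
  refine (HTP.card_le a Finset.univ).trans (Ideal.height_mono ?_)
  intro f hf
  rw [RingHom.mem_ker] at hf ⊢
  have h1 : (MvPolynomial.aeval a : MvPolynomial σ M →ₐ[M] M) =
      (MvPolynomial.aeval a : MvPolynomial σ M →ₐ[M] M).comp (HTP.phi a Finset.univ) := by
    refine MvPolynomial.algHom_ext fun j => ?_
    rw [AlgHom.comp_apply, HTP.phi_X, if_pos (Finset.mem_univ j), ← MvPolynomial.algebraMap_eq,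
      AlgHom.commutes, aeval_X]
    rfl
  rw [h1, AlgHom.comp_apply, hf, map_zero]

end Pool.Agent.T2h48.AT
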