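import Pool.Agent.T2h48.AT.Stm

set_option autoImplicit false

namespace Pool.Agent.T2h48.AT.KRU

/-- a chain of primes of `S / J` gives a chain of primes of `S / Q`, `Q` the smallest one -/
theorem len_le {S : Type} [CommRing S] (J : Ideal S) (l : LTSeries (PrimeSpectrum (S ⧸ J))) :
    (l.length : ℕ∞) ≤ ((l.last.asIdeal.comap (Ideal.Quotient.mk J)).map
      (Ideal.Quotient.mk (l.head.asIdeal.comap (Ideal.Quotient.mk J)))).height := by
  set Q : Ideal S := l.head.asIdeal.comap (Ideal.Quotient.mk J) with hQ
  have hle : ∀ i : Fin (l.length + 1), Q ≤ (l i).asIdeal.comap (Ideal.Quotient.mk J) := by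
    intro i
    exact Ideal.comap_mono (show l.head.asIdeal ≤ (l i).asIdeal from l.head_le i)
  have hprime : ∀ i : Fin (l.length + 1), (((l i).asIdeal.comap (Ideal.Quotient.mk J)).map
      (Ideal.Quotient.mk Q)).IsPrime := by
    intro i
    exact Ideal.isPrime_map_quotientMk_of_isPrime (hle i)
  let f : Fin (l.length + 1) → PrimeSpectrum (S ⧸ Q) := fun i => ⟨_, hprime i⟩
  let l' : LTSeries (PrimeSpectrum (S ⧸ Q)) :=
    { length := l.length
      toFun := f
      step := by
        intro i
        have h1 : l i.castSucc < l i.succ := l.step i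
        change f i.castSucc < f i.succ
        refine lt_of_le_of_ne ?_ ?_
        · change (f i.castSucc).asIdeal ≤ (f i.succ).asIdeal
          exact Ideal.map_mono (Ideal.comap_mono (show (l i.castSucc).asIdeal ≤
            (l i.succ).asIdeal from h1.le))
        · intro h2
          have h3 := congrArg (fun z : PrimeSpectrum (S ⧸ Q) =>
            z.asIdeal.comap (Ideal.Quotient.mk Q)) h2
          change Ideal.comap _ (Ideal.map _ _) = Ideal.comap _ (Ideal.map _ _) at h3
          rw [Ideal.comap_map_mk (hle _), Ideal.comap_map_mk (hle _)] at h3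
          have h4 := Ideal.comap_injective_of_surjective _ Ideal.Quotient.mk_surjective h3
          exact h1.ne (PrimeSpectrum.ext h4) }
  have h := Order.length_le_height (p := l') (x := f (Fin.last _)) le_rfl
  rw [← PrimeSpectrum.height_eq_orderHeight] at h
  exact h

end Pool.Agent.T2h48.AT.KRU

namespace Pool.Agent.T2h48.AT

theorem t_KRU : S_KRU := by
  intro S _ _ m _ κ _ g hg
  classical
  have hs : Set.range g ⊆ (m : Set S) := by
    rintro _ ⟨k, rfl⟩
    exact hg k
  have hJ : Ideal.span (Set.range g) ≤ m := Ideal.span_le.2 hs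
  have h1 := Ideal.height_le_height_add_encard_of_subset (Set.range g) (p := m) hs
  have : (m.map (Ideal.Quotient.mk (Ideal.span (Set.range g)))).IsPrime :=
    Ideal.isPrime_map_quotientMk_of_isPrime hJ
  obtain ⟨l, hl, hlen⟩ := Ideal.exists_ltSeries_length_eq_height
    (m.map (Ideal.Quotient.mk (Ideal.span (Set.range g))))
  have h2 := KRU.len_le (Ideal.span (Set.range g)) l
  have h3 : l.last.asIdeal.comap (Ideal.Quotient.mk (Ideal.span (Set.range g))) = m := by
    rw [hl]
    exact Ideal.comap_map_mk hJ
  rw [h3] at h2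
  refine ⟨l.head.asIdeal.comap (Ideal.Quotient.mk (Ideal.span (Set.range g))), inferInstance,
    fun k => ?_, ?_, ?_⟩
  · rw [Ideal.mem_comap]
    have : Ideal.Quotient.mk (Ideal.span (Set.range g)) (g k) = 0 :=
      Ideal.Quotient.eq_zero_iff_mem.2 (Ideal.subset_span ⟨k, rfl⟩)
    rw [this]
    exact Ideal.zero_mem _
  · rw [← h3]
    exact Ideal.comap_mono (show l.head.asIdeal ≤ l.last.asIdeal from l.head_le _)
  · refine h1.trans ?_
    refine add_le_add ?_ ?_
    · rw [← hlen]
      exact h2
    · have h4 : (Set.range g).encard ≤ (Set.univ : Set κ).encard := by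
        rw [← Set.image_univ]
        exact Set.encard_image_le g Set.univ
      rw [Set.encard_univ] at h4
      refine h4.trans ?_
      rw [ENat.card_eq_coe_fintype_card]

end Pool.Agent.T2h48.AT
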