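import Pool.Agent.T2h48.AT.Stm2

/-! Task LIN of project AT (helper25). -/

set_option autoImplicit false

namespace Pool.Agent.T2h48.AT.LIN

open MvPolynomial Pool.Agent.T2h48.AT

/-- the polynomials of degree `< s` in each variable separate `s` points -/
theorem indep (L : Type) [Field L] (s D : ℕ) (U : Fin s → Fin D → L) (hU : Function.Injective U) :
    LinearIndependent L (fun (k : Fin s) (α : Fin D → Fin s) => ∏ m, U k m ^ (α m : ℕ)) := by
  classical
  rw [Fintype.linearIndependent_iff]
  intro a ha k
  have h1 : ∀ α : Fin D → Fin s, ∑ k, a k * ∏ m, U k m ^ (α m : ℕ) = 0 := by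
    intro α
    have := congrFun ha α
    rw [Finset.sum_apply] at this
    exact this
  have h2 : ∀ P : MvPolynomial (Fin D) L, P.totalDegree < s → ∑ k, a k * eval (U k) P = 0 := by
    intro P hP
    have h3 : ∀ k, eval (U k) P = ∑ β ∈ P.support, coeff β P * ∏ m, U k m ^ (β m) := fun k =>
      eval_eq' (U k) P
    simp only [h3, Finset.mul_sum]
    rw [Finset.sum_comm]
    refine Finset.sum_eq_zero fun β hβ => ?_
    have h4 : ∀ m, β m < s := by
      intro m
      refine lt_of_le_of_lt ?_ hP
      exact (monomial_le_degreeOf m hβ).trans (degreeOf_le_totalDegree P m)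
    have h5 := h1 fun m => ⟨β m, h4 m⟩
    have h6 : ∑ x, a x * (coeff β P * ∏ m, U x m ^ (β m)) =
        coeff β P * ∑ x, a x * ∏ m, U x m ^ (β m) := by
      rw [Finset.mul_sum]
      exact Finset.sum_congr rfl fun x _ => by ring
    rw [h6]
    change coeff β P * ∑ x, a x * ∏ m, U x m ^ ((⟨β m, h4 m⟩ : Fin s) : ℕ) = 0
    rw [h5, mul_zero]
  have hm : ∀ l : Fin s, l ≠ k → ∃ m : Fin D, U k m ≠ U l m := by
    intro l hl
    have : U k ≠ U l := fun h => hl (hU h).symm
    exact Function.ne_iff.1 this
  choose m hm' using hm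
  let f : Fin s → MvPolynomial (Fin D) L := fun l =>
    if h : l ≠ k then X (m l h) - C (U l (m l h)) else 1
  have hdeg : (∏ l ∈ Finset.univ.erase k, f l).totalDegree < s := by
    refine lt_of_le_of_lt (totalDegree_finsetProd _ _) ?_
    have h7 : ∑ l ∈ Finset.univ.erase k, (f l).totalDegree ≤
        ∑ l ∈ Finset.univ.erase k, 1 := by
      refine Finset.sum_le_sum fun l hl => ?_
      have hl' : l ≠ k := Finset.ne_of_mem_erase hl
      simp only [f, dif_pos hl']
      refine (totalDegree_sub_C_le _ _).trans ?_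
      exact (totalDegree_X _).le
    refine lt_of_le_of_lt h7 ?_
    rw [Finset.sum_const, smul_eq_mul, mul_one, Finset.card_erase_of_mem (Finset.mem_univ k),
      Finset.card_univ, Fintype.card_fin]
    exact Nat.sub_lt k.pos one_pos
  have h8 := h2 _ hdeg
  rw [Finset.sum_eq_single k] at h8
  · rcases mul_eq_zero.1 h8 with h9 | h9
    · exact h9
    · exfalso
      rw [eval_prod, Finset.prod_eq_zero_iff] at h9
      obtain ⟨l, hl, hl0⟩ := h9
      have hl' : l ≠ k := Finset.ne_of_mem_erase hl
      simp only [f, dif_pos hl', map_sub, eval_X, eval_C] at hl0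
      exact hm' l hl' (sub_eq_zero.1 hl0)
  · intro l _ hl
    have h10 : eval (U l) (∏ l ∈ Finset.univ.erase k, f l) = 0 := by
      rw [eval_prod]
      refine Finset.prod_eq_zero (Finset.mem_erase.2 ⟨hl, Finset.mem_univ l⟩) ?_
      simp only [f, dif_pos hl, map_sub, eval_X, eval_C, sub_self]
    rw [h10, mul_zero]
  · intro h
    exact (h (Finset.mem_univ k)).elim

theorem t_LIN : S_LIN := by
  classical
  intro L _ s D U hU
  have hv := indep L s D U hU
  let b := Module.Basis.extend hv.linearIndepOn_id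
  have hmem : ∀ k : Fin s, (fun α : Fin D → Fin s => ∏ m, U k m ^ (α m : ℕ)) ∈
      hv.linearIndepOn_id.extend (Set.subset_univ _) := fun k =>
    hv.linearIndepOn_id.subset_extend _ ⟨k, rfl⟩
  let e := b.indexEquiv (Pi.basisFun L (Fin D → Fin s))
  let b' := b.reindex e
  refine ⟨((Pi.basisFun L (Fin D → Fin s)).toMatrix b').transpose,
    (b'.toMatrix (Pi.basisFun L (Fin D → Fin s))).transpose,
    fun k => e ⟨_, hmem k⟩, ?_, ?_, ?_⟩
  · intro k l hkl
    have h1 := e.injective hkl
    exact hv.injective (congrArg Subtype.val h1)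
  · rw [← Matrix.transpose_mul, Module.Basis.toMatrix_mul_toMatrix_flip, Matrix.transpose_one]
  · intro k α
    rw [Matrix.transpose_apply, Module.Basis.toMatrix_apply, Pi.basisFun_repr]
    have h1 : b' (e ⟨_, hmem k⟩) = (fun α : Fin D → Fin s => ∏ m, U k m ^ (α m : ℕ)) := by
      show b.reindex e _ = _
      rw [Module.Basis.reindex_apply, Equiv.symm_apply_apply]
      exact Module.Basis.extend_apply_self _ _
    rw [h1]

end Pool.Agent.T2h48.AT.LIN
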