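import Pool.Agent.T2h48.AT.Stm

/-! # LOWER -/

set_option autoImplicit false

namespace Pool.Agent.T2h48.AT

theorem lower_basis (F A : Type) [Field F] [CommRing A] [IsDomain A] [Algebra F A]
    [Algebra.FiniteType F A] (a : ℕ) (v : Fin a → A) (U : Finset (Fin a))
    (hU : AlgebraicIndependent F (fun u : {u // u ∈ U} => v u)) :
    ∃ (G : Finset A) (D : ℕ), Algebra.trdeg F A = D ∧ G.card + U.card = D ∧
      Algebra.IsAlgebraic (Algebra.adjoin F (Set.range v ∪ (G : Set A))) A := by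
  classical
  obtain ⟨S, hS⟩ := (inferInstance : Algebra.FiniteType F A).out
  set I : Set A := Set.range (fun u : {u // u ∈ U} => v u) with hI
  have hI2 : AlgebraicIndepOn F id I := hU.to_subtype_range
  have h0 : Algebra.IsAlgebraic (Algebra.adjoin F (I ∪ S)) A := by
    have : Algebra.adjoin F (I ∪ (S : Set A)) = ⊤ := by
      rw [eq_top_iff, ← hS]
      exact Algebra.adjoin_mono Set.subset_union_right
    rw [this]
    constructor
    intro x
    exact isAlgebraic_algebraMap (⟨x, trivial⟩ : (⊤ : Subalgebra F A))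
  obtain ⟨u, hu1, hu2, hu3⟩ := exists_isTranscendenceBasis_between (R := F) I (I ∪ S)
    Set.subset_union_left hI2
  have hIfin : I.Finite := Set.finite_range _
  have hufin : u.Finite := (hIfin.union S.finite_toSet).subset hu2
  have hI5 : I.ncard = U.card := by
    rw [hI, ← Nat.card_coe_set_eq, Nat.card_range_of_injective hU.injective]
    simp
  have hdiff : (u \ I).Finite := hufin.subset Set.sdiff_subset
  refine ⟨hdiff.toFinset, u.ncard, ?_, ?_, ?_⟩
  · rw [← hu3.cardinalMk_eq_trdeg, ← Nat.card_coe_set_eq]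
    have : Finite u := hufin
    exact (Nat.cast_card (α := u)).symm
  · rw [← hI5]
    rw [← Set.ncard_eq_toFinset_card _ hdiff]
    exact Set.ncard_sdiff_add_ncard_of_subset hu1 hufin
  · have h3 := hu3.isAlgebraic
    rw [Subtype.range_coe] at h3
    have hle : Algebra.adjoin F u ≤ Algebra.adjoin F (Set.range v ∪ (hdiff.toFinset : Set A)) := by
      apply Algebra.adjoin_mono
      intro x hx
      by_cases hxI : x ∈ I
      · obtain ⟨y, rfl⟩ := hxI
        exact Or.inl ⟨y, rfl⟩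
      · right
        rw [Set.Finite.coe_toFinset]
        exact ⟨hx, hxI⟩
    constructor
    intro x
    obtain ⟨p, hp0, hp⟩ := h3.isAlgebraic x
    refine ⟨p.map (Subalgebra.inclusion hle).toRingHom, ?_, ?_⟩
    · rw [Polynomial.map_ne_zero_iff]
      · exact hp0
      · exact Subalgebra.inclusion_injective hle
    · rw [Polynomial.aeval_def, Polynomial.eval₂_map]
      exact hp

theorem t_LOWER (h1 : S_COUNT) (h2 : S_LWF) : S_LOWER := by
  intro F A _ _ _ _ _ _ a v U hU s₀ hs₀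
  obtain ⟨G, D, hD, hG, halg⟩ := lower_basis F A a v U hU
  obtain ⟨c, C₀, hc0, hc⟩ := h1 F A a v G halg
  obtain ⟨s, hs, hs'⟩ := h2 F A D hD
  obtain ⟨C, hC⟩ := hs' (s₀ * c) (mul_ne_zero hs₀ hc0)
  refine ⟨max C (C * C₀), s, hs, ?_⟩
  intro K _ _ _ hK hψ
  have h3 := hC K ((le_max_left _ _).trans_lt hK) hψ
  have h4 := hc (s₀ * c) (Dvd.intro_left s₀ rfl) K
  set X := (Set.range fun (ψ : {ψ : A →ₐ[F] K // ψ (s₀ * c) ≠ 0}) (i : Fin a) => ψ.1 (v i)).ncard
    with hX
  set X' := (Set.range fun (ψ : {ψ : A →ₐ[F] K // ψ s₀ ≠ 0}) (i : Fin a) => ψ.1 (v i)).ncard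
    with hX'
  have hXX : X ≤ X' := by
    refine Set.ncard_le_ncard ?_ (Set.toFinite _)
    rintro _ ⟨φ, rfl⟩
    refine ⟨⟨φ.1, ?_⟩, rfl⟩
    intro h
    apply φ.2
    rw [map_mul, h, zero_mul]
  have hq : 0 < Nat.card K ^ G.card := pow_pos Nat.card_pos _
  have h5 : Nat.card K ^ U.card * Nat.card K ^ G.card ≤ C * C₀ * X' * Nat.card K ^ G.card := by
    rw [← pow_add, add_comm U.card, hG]
    calc Nat.card K ^ D ≤ C * Nat.card {ψ : A →ₐ[F] K // ψ (s₀ * c) ≠ 0} := h3
      _ ≤ C * (C₀ * (X * Nat.card K ^ G.card)) := Nat.mul_le_mul_left _ h4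
      _ ≤ C * (C₀ * (X' * Nat.card K ^ G.card)) :=
        Nat.mul_le_mul_left _ (Nat.mul_le_mul_left _ (Nat.mul_le_mul_right _ hXX))
      _ = _ := by ring
  exact (Nat.le_of_mul_le_mul_right h5 hq).trans (Nat.mul_le_mul_right _ (le_max_right _ _))

end Pool.Agent.T2h48.AT
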