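import Pool.Agent.T2h48.AT.Stm
import Pool.Agent.T2h48.LF.T_RINGF

/-! # LWF -/

set_option autoImplicit false

namespace Pool.Agent.T2h48.AT

open Pool.Agent.T2h48.LP Pool.Agent.R410.LW

theorem trdeg_frac (p : ℕ) [Fact p.Prime] (F A M : Type) [Field F] [Finite F] [CharP F p] [CommRing A]
    [IsDomain A] [CharP A p] [Algebra F A] [Field M] [Algebra A M] [IsFractionRing A M]
    [Algebra (ZMod p) M] (D : ℕ) (hD : Algebra.trdeg F A = D) : Algebra.trdeg (ZMod p) M = D := by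
  let _ : Algebra (ZMod p) A := ZMod.algebra A p
  let _ : Algebra (ZMod p) F := ZMod.algebra F p
  have t1 : IsScalarTower (ZMod p) F A := IsScalarTower.of_algebraMap_eq' (RingHom.ext_zmod _ _)
  have t2 : IsScalarTower (ZMod p) A M := IsScalarTower.of_algebraMap_eq' (RingHom.ext_zmod _ _)
  have hinj : Function.Injective (algebraMap A M) := IsFractionRing.injective _ _
  have i0 : FaithfulSMul A M := (faithfulSMul_iff_algebraMap_injective _ _).2 hinj
  have i3 : Algebra.IsAlgebraic A M := IsLocalization.isAlgebraic _ (nonZeroDivisors A)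
  have i4 : Algebra.IsAlgebraic (ZMod p) F := by
    have : Module.Finite (ZMod p) F := Module.Finite.of_finite
    infer_instance
  have i5 : FaithfulSMul (ZMod p) A := (faithfulSMul_iff_algebraMap_injective _ _).2
    (algebraMap (ZMod p) A).injective
  have e1 := _root_.trdeg_add_eq (ZMod p) A (A := M)
  have e2 := _root_.trdeg_add_eq (ZMod p) F (A := A)
  rw [_root_.trdeg_eq_zero (R := A) (A := M), add_zero] at e1
  rw [_root_.trdeg_eq_zero (R := ZMod p) (A := F), zero_add] at e2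
  rw [← e1, ← e2, hD]

theorem t_LWF (hMAIN : LP.S_MAIN) : S_LWF := by
  intro F A _ _ _ _ _ _ D hD
  obtain ⟨p, hp⟩ := CharP.exists F
  have hpp : Fact p.Prime := ⟨CharP.char_is_prime F p⟩
  have hcA : CharP A p := charP_of_injective_algebraMap (FaithfulSMul.algebraMap_injective F A) p
  have hcM : CharP (FractionRing A) p :=
    charP_of_injective_algebraMap (IsFractionRing.injective A (FractionRing A)) p
  have hFZ : Algebra.FiniteType ℤ F := by
    have : Module.Finite ℤ F := Module.Finite.of_finite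
    infer_instance
  have hAZ : @Algebra.FiniteType ℤ A _ _ (Ring.toIntAlgebra A) :=
    Form.ft_int_of _ (Algebra.FiniteType.trans hFZ (inferInstance : Algebra.FiniteType F A))
  let _ : Algebra (ZMod p) (FractionRing A) := ZMod.algebra _ p
  have hd : Algebra.trdeg (ZMod p) (FractionRing A) = D := trdeg_frac p F A (FractionRing A) D hD
  obtain ⟨L, iL, fL, ⟨j⟩, hL⟩ := hMAIN p D (FractionRing A) (fg_of_ft (A := A)) hd
  obtain ⟨s, hs0, hs⟩ := hL A
  obtain ⟨a, ha0, ha⟩ := LP.exists_hom (A := A) (M := FractionRing A) (L := L) j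
  refine ⟨a, ha0, fun t ht => ?_⟩
  obtain ⟨C, hC0, hC⟩ := hs (t * s) (mul_ne_zero ht hs0) (Dvd.intro_left t rfl)
  refine ⟨max (2 * Nat.card F) ⌈4 * C ^ 2⌉₊, fun K _ _ _ hK hψ => ?_⟩
  obtain ⟨ψ, hψ⟩ := hψ
  have hcK : CharP K p := charP_of_injective_algebraMap (algebraMap F K).injective p
  have hfA : Finite (A →+* K) := LP.hom_finite _ _
  have h1 := hC K
  set q := Nat.card K with hq
  have hq4 : 4 * C ^ 2 ≤ q := by
    have h2 : 4 * C ^ 2 ≤ (⌈4 * C ^ 2⌉₊ : ℝ) := Nat.le_ceil _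
    have h3 : (⌈4 * C ^ 2⌉₊ : ℝ) ≤ q := by
      exact_mod_cast (le_max_right _ _).trans hK.le
    linarith
  have hq1 : 1 ≤ q := Nat.card_pos
  have hq1' : (1 : ℝ) ≤ q := by exact_mod_cast hq1
  have hsq : 2 * C ≤ √(q : ℝ) := by
    apply Real.le_sqrt_of_sq_le
    nlinarith
  have hsq1 : 1 ≤ √(q : ℝ) := Real.one_le_sqrt.2 hq1'
  have hfL : Finite (L →+* K) :=
    Finite.of_injective (fun (φ : L →+* K) (x : L) => φ x) fun φ φ' h =>
      RingHom.ext fun x => congrFun h x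
  have hne : 1 ≤ Nat.card (L →+* K) := by
    obtain ⟨χ⟩ := ha K ψ.toRingHom hψ
    have : Nonempty (L →+* K) := ⟨χ⟩
    exact Nat.card_pos
  have hne' : (1 : ℝ) ≤ Nat.card (L →+* K) := by exact_mod_cast hne
  set n := Nat.card {φ : A →+* K // φ (t * s) ≠ 0} with hn
  have hqD : (0 : ℝ) < (q : ℝ) ^ D := by positivity
  have h2 : (q : ℝ) ^ D ≤ 2 * n := by
    by_contra hlt
    push Not at hlt
    have h3 : (q : ℝ) ^ D / 2 < |(n : ℝ) - Nat.card (L →+* K) * (q : ℝ) ^ D| := by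
      rw [abs_sub_comm]
      refine lt_of_lt_of_le ?_ (le_abs_self _)
      nlinarith
    have h4 : (q : ℝ) ^ D / 2 * √(q : ℝ) <
        |(n : ℝ) - Nat.card (L →+* K) * (q : ℝ) ^ D| * √(q : ℝ) :=
      mul_lt_mul_of_pos_right h3 (by linarith)
    nlinarith
  have h2' : q ^ D ≤ 2 * n := by exact_mod_cast h2
  have h3 : n = Nat.card (F →+* K) * Nat.card {φ : A →ₐ[F] K // φ (t * s) ≠ 0} :=
    LF.card_total p A (t * s) hfA
  have hFK : Nat.card (F →+* K) ≤ Nat.card F := hom_le F K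
  have hfAF : Finite (A →ₐ[F] K) := LF.algHom_finite F A K
  have h5 : Nat.card {φ : A →ₐ[F] K // φ (t * s) ≠ 0} ≤ Nat.card {φ : A →ₐ[F] K // φ t ≠ 0} := by
    refine Nat.card_le_card_of_injective (fun φ => ⟨φ.1, fun h => φ.2 (by rw [map_mul, h, zero_mul])⟩) ?_
    intro φ φ' h
    apply Subtype.ext
    exact congrArg (fun z => z.1) h
  calc q ^ D ≤ 2 * n := h2'
    _ = 2 * (Nat.card (F →+* K) * Nat.card {φ : A →ₐ[F] K // φ (t * s) ≠ 0}) := by rw [h3]
    _ ≤ 2 * (Nat.card F * Nat.card {φ : A →ₐ[F] K // φ t ≠ 0}) :=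
        Nat.mul_le_mul_left _ (Nat.mul_le_mul hFK h5)
    _ = 2 * Nat.card F * Nat.card {φ : A →ₐ[F] K // φ t ≠ 0} := by ring
    _ ≤ _ := Nat.mul_le_mul_right _ (le_max_left _ _)

end Pool.Agent.T2h48.AT
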