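import Pool.Agent.T2h48.AT.Stm

/-!
# Task MIN: the ideal of the generic point is a minimal prime of an ideal with few generators
-/

set_option autoImplicit false

namespace Pool.Agent.T2h48.AT

open Polynomial

/-- the polynomial of an algebraic coordinate, with coefficients in the polynomial ring. -/
theorem min_lift {F M : Type} [Field F] [Field M] [Algebra F M] {n : ℕ} (ξ : Fin n → M)
    (U₀ : Finset (Fin n)) (l : Fin n) (h : Dep F ξ U₀ l) :
    ∃ G : Polynomial (MvPolynomial {u // u ∈ U₀} F), G ≠ 0 ∧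
      G.eval₂ (MvPolynomial.aeval (fun u : {u // u ∈ U₀} => ξ u) : MvPolynomial {u // u ∈ U₀} F →ₐ[F] M).toRingHom
        (ξ l) = 0 := by
  classical
  let φ : MvPolynomial {u // u ∈ U₀} F →ₐ[F] M := MvPolynomial.aeval (fun u => ξ u)
  have hrange : Algebra.adjoin F (ξ '' (U₀ : Set (Fin n))) = φ.range := by
    rw [← Algebra.adjoin_range_eq_range_aeval]
    congr 1
    ext y
    constructor
    · rintro ⟨u, hu, rfl⟩
      exact ⟨⟨u, hu⟩, rfl⟩
    · rintro ⟨u, rfl⟩
      exact ⟨u, u.2, rfl⟩
  let A := Algebra.adjoin F (ξ '' (U₀ : Set (Fin n)))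
  let φ' : MvPolynomial {u // u ∈ U₀} F →+* A :=
    (φ : MvPolynomial {u // u ∈ U₀} F →+* M).codRestrict A.toSubring (fun c => by
      change φ c ∈ A
      rw [show A = φ.range from hrange]
      exact ⟨c, rfl⟩)
  have hφ' : (algebraMap A M).comp φ' = φ.toRingHom := rfl
  obtain ⟨g, hg, hz⟩ := h
  obtain ⟨G, hG⟩ := Polynomial.map_surjective φ' (by
    intro b
    have h1 : (b : M) ∈ φ.range := by rw [← hrange]; exact b.2
    obtain ⟨c, hc⟩ := h1
    exact ⟨c, Subtype.ext hc⟩) g
  refine ⟨G, ?_, ?_⟩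
  · rintro rfl
    rw [Polynomial.map_zero] at hG
    exact hg hG.symm
  · change G.eval₂ φ.toRingHom (ξ l) = 0
    rw [← hφ', ← Polynomial.eval₂_map, hG]
    exact hz

theorem t_MIN : S_MIN := by
  intro F M _ _ _ n ξ U₀ hind hdep
  classical
  choose G hG0 hG using fun l => min_lift ξ U₀ l (hdep l)
  let ρ : MvPolynomial {u // u ∈ U₀} F →+* MvPolynomial (Fin n) F :=
    (MvPolynomial.rename (Subtype.val : {u // u ∈ U₀} → Fin n) :
      MvPolynomial {u // u ∈ U₀} F →ₐ[F] MvPolynomial (Fin n) F)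
  have hρ : (MvPolynomial.aeval ξ : MvPolynomial (Fin n) F →ₐ[F] M).toRingHom.comp ρ
      = (MvPolynomial.aeval (fun u : {u // u ∈ U₀} => ξ u) : MvPolynomial {u // u ∈ U₀} F →ₐ[F] M).toRingHom := by
    ext1
    · ext r
      simp [ρ]
    · rename_i u
      simp [ρ]
  have hρ' : ∀ c, MvPolynomial.aeval ξ (ρ c) = 0 → c = 0 := by
    intro c hc
    have h1 : MvPolynomial.aeval (fun u : {u // u ∈ U₀} => ξ u) c = 0 := by
      have h2 := RingHom.congr_fun hρ c
      rw [← hc]
      exact h2.symm
    have h3 : Function.Injective (MvPolynomial.aeval (fun u : {u // u ∈ U₀} => ξ u) :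
      MvPolynomial {u // u ∈ U₀} F →ₐ[F] M) := hind
    exact h3 (by rw [h1, map_zero])
  let p : Fin n → MvPolynomial (Fin n) F := fun l => (G l).eval₂ ρ (MvPolynomial.X l)
  have hp : ∀ l, MvPolynomial.aeval ξ (p l) = 0 := by
    intro l
    have h1 : MvPolynomial.aeval ξ (p l) = (G l).eval₂
        ((MvPolynomial.aeval ξ : MvPolynomial (Fin n) F →ₐ[F] M).toRingHom.comp ρ) (ξ l) := by
      change (MvPolynomial.aeval ξ : MvPolynomial (Fin n) F →ₐ[F] M).toRingHom
        ((G l).eval₂ ρ (MvPolynomial.X l)) = _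
      rw [Polynomial.hom_eval₂]
      congr 1
      simp
    rw [h1, hρ]
    exact hG l
  refine ⟨(Finset.univ \ U₀).image p, ?_, ?_, ?_⟩
  · have h1 : ((Finset.univ \ U₀).image p).card ≤ (Finset.univ \ U₀).card := Finset.card_image_le
    have h2 : (Finset.univ \ U₀).card + U₀.card = n := by
      rw [Finset.card_sdiff_add_card_eq_card (Finset.subset_univ U₀)]
      simp
    omega
  · intro g hg
    obtain ⟨l, -, rfl⟩ := Finset.mem_image.1 hg
    exact hp l
  · intro f hf
    by_contra hcon
    push Not at hcon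
    set I := Ideal.span (((Finset.univ \ U₀).image p : Finset (MvPolynomial (Fin n) F)) :
      Set (MvPolynomial (Fin n) F)) with hI
    let T : Submonoid (MvPolynomial (Fin n) F) :=
      { carrier := {w | ∃ (y : MvPolynomial (Fin n) F) (k : ℕ), MvPolynomial.aeval ξ y ≠ 0 ∧ w = y * f ^ k}
        one_mem' := ⟨1, 0, by simp, by simp⟩
        mul_mem' := by
          rintro a b ⟨y, k, hy, rfl⟩ ⟨y', k', hy', rfl⟩
          refine ⟨y * y', k + k', ?_, by ring⟩
          rw [map_mul]
          exact mul_ne_zero hy hy' }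
    obtain ⟨Q, hQ, hIQ, hQT⟩ := Ideal.exists_le_prime_disjoint I T (by
      rw [Set.disjoint_left]
      rintro w hw ⟨y, k, hy, rfl⟩
      exact hcon y k hy hw)
    have hfQ : f ∉ Q := by
      intro h
      exact Set.disjoint_left.1 hQT h ⟨1, 1, by simp, by simp⟩
    have hQP : ∀ w ∈ Q, MvPolynomial.aeval ξ w = 0 := by
      intro w hw
      by_contra hne
      exact Set.disjoint_left.1 hQT hw ⟨w, 0, hne, by simp⟩
    let χ : MvPolynomial {u // u ∈ U₀} F →+* (MvPolynomial (Fin n) F ⧸ Q) := (Ideal.Quotient.mk Q).comp ρ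
    let _ := χ.toAlgebra
    have halgmap : ∀ c, algebraMap (MvPolynomial {u // u ∈ U₀} F) (MvPolynomial (Fin n) F ⧸ Q) c
      = Ideal.Quotient.mk Q (ρ c) := fun c => rfl
    have hpQ : ∀ l, l ∉ U₀ → p l ∈ Q := by
      intro l hl
      apply hIQ
      apply Ideal.subset_span
      exact Finset.mem_coe.2 (Finset.mem_image.2 ⟨l, by simp [hl], rfl⟩)
    have halg : ∀ w : MvPolynomial (Fin n) F,
        IsAlgebraic (MvPolynomial {u // u ∈ U₀} F) (Ideal.Quotient.mk Q w) := by
      intro w
      induction w using MvPolynomial.induction_on with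
      | C a =>
        have h1 : Ideal.Quotient.mk Q (MvPolynomial.C a) =
            algebraMap (MvPolynomial {u // u ∈ U₀} F) (MvPolynomial (Fin n) F ⧸ Q) (MvPolynomial.C a) := by
          rw [halgmap]
          congr 1
          simp [ρ]
        rw [h1]
        exact isAlgebraic_algebraMap _
      | add a b ha hb =>
        rw [map_add]
        exact ha.add hb
      | mul_X a l ha =>
        rw [map_mul]
        refine ha.mul ?_
        by_cases hl : l ∈ U₀
        · have h1 : Ideal.Quotient.mk Q (MvPolynomial.X l) =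
              algebraMap (MvPolynomial {u // u ∈ U₀} F) (MvPolynomial (Fin n) F ⧸ Q) (MvPolynomial.X ⟨l, hl⟩) := by
            rw [halgmap]
            congr 1
            simp [ρ]
          rw [h1]
          exact isAlgebraic_algebraMap _
        · refine ⟨G l, hG0 l, ?_⟩
          have h1 : aeval (Ideal.Quotient.mk Q (MvPolynomial.X l)) (G l) = Ideal.Quotient.mk Q (p l) := by
            change (G l).eval₂ χ (Ideal.Quotient.mk Q (MvPolynomial.X l)) =
              Ideal.Quotient.mk Q ((G l).eval₂ ρ (MvPolynomial.X l))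
            rw [Polynomial.hom_eval₂]
          rw [h1]
          exact Ideal.Quotient.eq_zero_iff_mem.2 (hpQ l hl)
    obtain ⟨q, hq0, hq⟩ := (halg f).exists_nonzero_coeff_and_aeval_eq_zero (by
      rw [mem_nonZeroDivisors_iff_ne_zero]
      intro h
      exact hfQ (Ideal.Quotient.eq_zero_iff_mem.1 h))
    obtain ⟨w, hw⟩ := Ideal.Quotient.mk_surjective (aeval (Ideal.Quotient.mk Q f) (divX q))
    rw [← divX_mul_X_add q, map_add, map_mul, aeval_X, aeval_C, ← hw, halgmap, ← map_mul, ← map_add] at hq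
    have h2 := hQP _ (Ideal.Quotient.eq_zero_iff_mem.1 hq)
    rw [map_add, map_mul, hf, mul_zero, zero_add] at h2
    exact hq0 (hρ' _ h2)

end Pool.Agent.T2h48.AT
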