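import Pool.Agent.T2h48.AT.Stm2

/-! OPT -/

set_option autoImplicit false
set_option maxHeartbeats 1000000

namespace Pool.Agent.T2h48.AT

open MvPolynomial Pool.Agent.T2h48.DW

/-- the numerical part -/
theorem opt_num {s k q X N : ℕ} {ε : ℝ} (hs : 3 ≤ s) (hk : 1 ≤ k) (hε : 0 < ε)
    (hkε : 2 ≤ (((s - 1) * k : ℕ) : ℝ) * ε) (hq : 18 < q) (hN1 : 1 ≤ N)
    (hX : q ^ ((2 * s - 3) * k - 1) ≤ 2 * X) (hN : N ≤ 3 * q ^ ((s - 1) * k)) :
    (N : ℝ) ^ (2 - 1 / ((s : ℝ) - 1) - ε) ≤ (X : ℝ) := by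
  have hsr : (3 : ℝ) ≤ s := by exact_mod_cast hs
  have hqr : (18 : ℝ) < q := by exact_mod_cast hq
  have hN1r : (1 : ℝ) ≤ N := by exact_mod_cast hN1
  have hq0 : (0 : ℝ) < q := by linarith
  set d : ℕ := (s - 1) * k with hd
  set D : ℕ := (2 * s - 3) * k - 1 with hD
  have hd0 : 1 ≤ d := by
    rw [hd]
    have : 1 ≤ s - 1 := by omega
    exact Nat.one_le_iff_ne_zero.2 (Nat.mul_ne_zero (by omega) (by omega))
  have hD1 : D + 1 = (2 * s - 3) * k := by
    have : 1 ≤ (2 * s - 3) * k := Nat.one_le_iff_ne_zero.2 (Nat.mul_ne_zero (by omega) (by omega))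
    omega
  have hDr : (D : ℝ) + 1 = (2 * s - 3) * k := by
    have : (((D + 1 : ℕ)) : ℝ) = (((2 * s - 3) * k : ℕ) : ℝ) := by rw [hD1]
    rw [Nat.cast_mul, Nat.cast_sub (by omega)] at this
    push_cast at this
    exact this
  have hdr : (d : ℝ) = (s - 1) * k := by
    rw [hd, Nat.cast_mul, Nat.cast_sub (by omega)]
    push_cast
    ring
  set e : ℝ := 2 - 1 / ((s : ℝ) - 1) with he
  have hde : (d : ℝ) * e = D + 1 := by
    rw [hdr, hDr, he]
    have : (s : ℝ) - 1 ≠ 0 := by linarith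
    field_simp
    ring
  have hX1 : (1 : ℝ) ≤ X := by
    have h1 : 0 < q ^ D := by positivity
    have : 1 ≤ X := by omega
    exact_mod_cast this
  have hXr : (q : ℝ) ^ D ≤ 2 * X := by exact_mod_cast hX
  have hNr : (N : ℝ) ≤ 3 * (q : ℝ) ^ d := by exact_mod_cast hN
  rcases le_or_gt (e - ε) 0 with h0 | h0
  · exact (Real.rpow_le_one_of_one_le_of_nonpos hN1r h0).trans hX1
  have he2 : e ≤ 2 := by
    have : (0 : ℝ) < 1 / ((s : ℝ) - 1) := by
      apply div_pos one_pos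
      linarith
    linarith
  have h1 : (N : ℝ) ^ (e - ε) ≤ (3 * (q : ℝ) ^ d) ^ (e - ε) :=
    Real.rpow_le_rpow (by positivity) hNr h0.le
  have h2 : (3 * (q : ℝ) ^ d) ^ (e - ε) = 3 ^ (e - ε) * ((q : ℝ) ^ d) ^ (e - ε) :=
    Real.mul_rpow (by norm_num) (by positivity)
  have h3 : (3 : ℝ) ^ (e - ε) ≤ 9 := by
    calc (3 : ℝ) ^ (e - ε) ≤ (3 : ℝ) ^ (2 : ℝ) :=
          Real.rpow_le_rpow_of_exponent_le (by norm_num) (by linarith)
      _ = 9 := by norm_num
  have h4 : ((q : ℝ) ^ d) ^ (e - ε) ≤ (q : ℝ) ^ ((D : ℝ) - 1) := by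
    rw [← Real.rpow_natCast, ← Real.rpow_mul hq0.le]
    apply Real.rpow_le_rpow_of_exponent_le (by linarith)
    rw [mul_sub, hde]
    linarith
  have h5 : (q : ℝ) ^ ((D : ℝ) - 1) * q = (q : ℝ) ^ D := by
    rw [Real.rpow_sub_one hq0.ne', Real.rpow_natCast]
    field_simp
  have h6 : 0 < (q : ℝ) ^ ((D : ℝ) - 1) := by positivity
  rw [h2] at h1
  have h7 : (3 : ℝ) ^ (e - ε) * ((q : ℝ) ^ d) ^ (e - ε) ≤ 9 * (q : ℝ) ^ ((D : ℝ) - 1) :=
    mul_le_mul h3 h4 (by positivity) (by norm_num)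
  have h8 : 18 * (q : ℝ) ^ ((D : ℝ) - 1) ≤ (q : ℝ) ^ D := by
    rw [← h5, mul_comm]
    exact mul_le_mul_of_nonneg_left hqr.le h6.le
  linarith

theorem t_OPT (h1 : S_FAM) (h2 : S_CNT) (h3 : S_EQN) (h4 : S_HD) : S_OPT := by
  intro p _ s hs ε hε
  obtain ⟨k₀, hk₀⟩ := exists_nat_gt (2 / ε)
  set k : ℕ := k₀ + 2 with hk
  set d : ℕ := (s - 1) * k with hd
  set D : ℕ := (2 * s - 3) * k - 1 with hD
  have hkε : 2 ≤ ((d : ℕ) : ℝ) * ε := by
    have h5 : (k₀ : ℝ) ≤ d := by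
      have : k₀ ≤ d := by
        rw [hd]
        calc k₀ ≤ 1 * k := by omega
          _ ≤ (s - 1) * k := Nat.mul_le_mul_right _ (by omega)
      exact_mod_cast this
    have h6 : 2 / ε < d := lt_of_lt_of_le hk₀ h5
    rw [div_lt_iff₀ hε] at h6
    exact h6.le
  have e1 : (2 * s - 3) * k + s * k = 3 * ((s - 1) * k) := by
    obtain ⟨t, rfl⟩ : ∃ t, s = t + 3 := ⟨s - 3, by omega⟩
    have e2 : 2 * (t + 3) - 3 = 2 * t + 3 := by omega
    have e3 : t + 3 - 1 = t + 2 := by omega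
    rw [e2, e3]
    ring
  have hD1 : D + 1 = (2 * s - 3) * k := by
    have : 1 ≤ (2 * s - 3) * k := Nat.one_le_iff_ne_zero.2 (Nat.mul_ne_zero (by omega) (by omega))
    omega
  have hD4 : 4 ≤ D := by
    have : 3 * 2 ≤ (2 * s - 3) * k := Nat.mul_le_mul (by omega) (by omega)
    omega
  set r : ℕ := s * k + 1 with hr
  have hcard : Fintype.card (Fin 3 × Fin d) = Fintype.card (Fin D ⊕ Fin r) := by
    rw [Fintype.card_prod, Fintype.card_sum, Fintype.card_fin, Fintype.card_fin, Fintype.card_fin,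
      Fintype.card_fin]
    omega
  let w : Fin 3 × Fin d ≃ Fin D ⊕ Fin r := Fintype.equivOfCardEq hcard
  have hcond : (s - 1) * D < (2 * s - 3) * d := by
    have e4 : (s - 1) * (D + 1) = (2 * s - 3) * d := by
      rw [hD1, hd]
      ring
    rw [← e4]
    exact Nat.mul_lt_mul_of_pos_left (Nat.lt_succ_self D) (by omega)
  obtain ⟨F, iF, iFin, iC, φ, g, hg, hφ⟩ := h1 p s d D r w (by omega) hcond
  obtain ⟨C, hC⟩ := h2 F D g hg
  obtain ⟨E, hE⟩ := h3 F s d D r w φ g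
  refine ⟨F, iF, iFin, iC, d + 2, E, max C 18, fun K _ _ _ => ?_⟩
  obtain ⟨h5, h6, h7⟩ := h4 F s d D r w φ g (by omega) K (hφ K)
  rw [hE K]
  refine ⟨h5, fun hK => ?_⟩
  obtain ⟨hK1, hK2⟩ := max_lt_iff.1 hK
  have h8 := hC K hK1
  rw [← h6] at h8
  set X := (fam w φ g K).ncard with hX
  set N := (covered (fam w φ g K)).ncard with hN
  set q := Nat.card K with hq
  -- the number of the edges is at most `N ^ 3`
  have h9 : X ≤ N ^ 3 := by
    classical
    have hfin : Finite (Fin (d + 2) → K) := inferInstance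
    have hcf : (covered (fam w φ g K)).Finite := Set.toFinite _
    have h10 : fam w φ g K ⊆ (fun f : Fin 3 → (Fin (d + 2) → K) => Finset.univ.image f) ''
        {f | ∀ j, f j ∈ covered (fam w φ g K)} := by
      rintro e ⟨u, hu, he⟩
      refine ⟨fun j => vtx w (fun z => algebraMap F K (φ z)) j u, ?_, ?_⟩
      · intro j
        refine ⟨e, ⟨u, hu, he⟩, ?_⟩
        rw [← Finset.mem_coe, he]
        exact ⟨j, rfl⟩
      · apply Finset.coe_injective
        rw [he, Finset.coe_image, Finset.coe_univ, Set.image_univ]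
    have h11 : {f : Fin 3 → (Fin (d + 2) → K) | ∀ j, f j ∈ covered (fam w φ g K)}.ncard = N ^ 3 := by
      have : {f : Fin 3 → (Fin (d + 2) → K) | ∀ j, f j ∈ covered (fam w φ g K)} =
          ((Fintype.piFinset fun _ : Fin 3 => hcf.toFinset : Finset (Fin 3 → (Fin (d + 2) → K))) :
            Set (Fin 3 → (Fin (d + 2) → K))) := by
        ext f
        simp
      rw [this, Set.ncard_coe_finset, Fintype.card_piFinset, Finset.prod_const, Finset.card_univ,
        Fintype.card_fin, hN, Set.ncard_eq_toFinset_card _ hcf]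
    calc X ≤ ((fun f : Fin 3 → (Fin (d + 2) → K) => Finset.univ.image f) ''
        {f | ∀ j, f j ∈ covered (fam w φ g K)}).ncard := Set.ncard_le_ncard h10 (Set.toFinite _)
      _ ≤ {f : Fin 3 → (Fin (d + 2) → K) | ∀ j, f j ∈ covered (fam w φ g K)}.ncard :=
          Set.ncard_image_le (Set.toFinite _)
      _ = N ^ 3 := h11
  have h12 : q ≤ N := by
    by_contra hlt
    push Not at hlt
    have a1 : N ^ 3 ≤ q ^ 3 := Nat.pow_le_pow_left hlt.le 3
    have a2 : q ^ 4 ≤ q ^ D := Nat.pow_le_pow_right (by omega) hD4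
    have a3 : q ^ 4 = q ^ 3 * q := pow_succ q 3
    have a4 : 0 < q ^ 3 := by positivity
    have a5 : q ^ 3 * 18 < q ^ 3 * q := Nat.mul_lt_mul_of_pos_left hK2 a4
    omega
  refine ⟨h12, ?_⟩
  exact opt_num hs (by omega) hε hkε hK2 (by omega) h8 h7

end Pool.Agent.T2h48.AT
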