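import Pool.Agent.T2h48.AT.Stm

/-! # SPEC -/

set_option autoImplicit false

namespace Pool.Agent.T2h48.AT

theorem t_SPEC : S_SPEC := by
  intro F _ _ B _ _ _ _ t ht
  -- a maximal ideal of `B[1/t]`
  have h1 : Nontrivial (Localization.Away t) := by
    have hle : Submonoid.powers t ≤ nonZeroDivisors B :=
      powers_le_nonZeroDivisors_of_noZeroDivisors ht
    exact (IsLocalization.injective (Localization.Away t) hle).nontrivial
  obtain ⟨m, hm⟩ := Ideal.exists_maximal (Localization.Away t)
  have hft : Algebra.FiniteType F (Localization.Away t) := by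
    have : Algebra.FiniteType B (Localization.Away t) :=
      IsLocalization.finiteType_of_monoid_fg (Submonoid.powers t) _
    exact Algebra.FiniteType.trans (S := B) inferInstance this
  let _ : Field (Localization.Away t ⧸ m) := Ideal.Quotient.field m
  have hfin : Module.Finite F (Localization.Away t ⧸ m) :=
    finite_of_finite_type_of_isJacobsonRing F (Localization.Away t ⧸ m)
  refine ⟨Module.finrank F (Localization.Away t ⧸ m), Module.finrank_pos, ?_⟩
  intro K _ _ _ hd
  have hfin2 : Finite (Localization.Away t ⧸ m) := Module.finite_of_finite F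
  obtain ⟨ψ⟩ := (FiniteField.nonempty_algHom_iff_finrank_dvd (F := F)
    (K := Localization.Away t ⧸ m) (L := K)).2 hd
  refine ⟨(ψ.comp (Ideal.Quotient.mkₐ F m)).comp (IsScalarTower.toAlgHom F B (Localization.Away t)), ?_⟩
  have hu : IsUnit (algebraMap B (Localization.Away t) t) :=
    IsLocalization.Away.algebraMap_isUnit t
  exact (hu.map ((ψ.comp (Ideal.Quotient.mkₐ F m)) : Localization.Away t →ₐ[F] K)).ne_zero

end Pool.Agent.T2h48.AT
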