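import Pool.Agent.T2h48.AT.Stm2
import Mathlib.RingTheory.AlgebraicIndependent.TranscendenceBasis

/-! Task TD of project AT (helper25). -/

set_option autoImplicit false

namespace Pool.Agent.T2h48.AT.TD

open MvPolynomial Pool.Agent.T2h48.AT

open IntermediateField in
open scoped IntermediateField.algebraAdjoinAdjoin in
theorem trdeg_adjoin_le {k M σ : Type} [Field k] [Field M] [Algebra k M] [Finite σ] (v : σ → M) :
    Algebra.trdeg k (IntermediateField.adjoin k (Set.range v)) ≤ Nat.card σ := by
  have h1 : Algebra.trdeg k (Algebra.adjoin k (Set.range v)) ≤ Nat.card σ := by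
    have h : Algebra.adjoin k (Set.range v) = (MvPolynomial.aeval v : MvPolynomial σ k →ₐ[k] M).range :=
      Algebra.adjoin_range_eq_range_aeval k v
    rw [h]
    have := trdeg_le_of_surjective _ (MvPolynomial.aeval v : MvPolynomial σ k →ₐ[k] M).rangeRestrict_surjective
    refine this.trans ?_
    rw [MvPolynomial.trdeg_of_isDomain]
    simp [Nat.cast_card]
  have h4 : FaithfulSMul k (Algebra.adjoin k (Set.range v)) :=
    (faithfulSMul_iff_algebraMap_injective _ _).2 (RingHom.injective _)
  have h2 : Algebra.trdeg k (Algebra.adjoin k (Set.range v)) + Algebra.trdeg (Algebra.adjoin k (Set.range v))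
      (IntermediateField.adjoin k (Set.range v)) = Algebra.trdeg k (IntermediateField.adjoin k (Set.range v)) :=
    trdeg_add_eq _ _
  rw [← h2]
  have h3 : Algebra.IsAlgebraic (Algebra.adjoin k (Set.range v))
      (IntermediateField.adjoin k (Set.range v)) := inferInstance
  rw [trdeg_eq_zero (R := Algebra.adjoin k (Set.range v)), add_zero]
  exact h1

/-- an algebraically independent family in a field generated by few elements is small -/
theorem card_le {k M ι σ : Type} [Field k] [Field M] [Algebra k M] [Finite σ] [Fintype ι]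
    (v : σ → M) (x : ι → M) (hx : AlgebraicIndependent k x)
    (h : ∀ i, x i ∈ IntermediateField.adjoin k (Set.range v)) : Fintype.card ι ≤ Nat.card σ := by
  let x' : ι → IntermediateField.adjoin k (Set.range v) := fun i => ⟨x i, h i⟩
  have hx' : AlgebraicIndependent k x' := by
    refine AlgebraicIndependent.of_comp (IntermediateField.adjoin k (Set.range v)).val ?_
    exact hx
  have h1 := hx'.cardinalMk_le_trdeg.trans (trdeg_adjoin_le v)
  rw [Cardinal.mk_fintype] at h1
  exact_mod_cast h1

theorem t_TD (h : S_LIN) : S_TD := by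
  classical
  intro k M _ _ _ s d D r w φ U hs hU hind τ hτ hcard
  -- the field generated by the coordinates of the vertices
  let σ₀ : Type := (Σ j : Fin 3, {x // x ∈ Finset.univ.image (τ j)}) × Fin d
  let vv : σ₀ → M := fun z => vert w φ z.1.1 (U z.1.2.1) z.2
  let L := IntermediateField.adjoin k (Set.range vv)
  have hL : ∀ j l i, vert w φ j (U l) i ∈ L := by
    intro j l i
    rw [← hτ j l]
    exact IntermediateField.subset_adjoin k _
      ⟨⟨⟨j, ⟨τ j l, Finset.mem_image_of_mem _ (Finset.mem_univ l)⟩⟩, i⟩, rfl⟩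
  have hU1 : ∀ l m, U l m ∈ L := by
    intro l m
    have h1 := hL (w.symm (Sum.inl m)).1 l (w.symm (Sum.inl m)).2
    have h2 : vert w φ (w.symm (Sum.inl m)).1 (U l) (w.symm (Sum.inl m)).2 = U l m := by
      show Sum.elim (U l) _ (w ((w.symm (Sum.inl m)).1, (w.symm (Sum.inl m)).2)) = _
      rw [Prod.mk.eta, Equiv.apply_symm_apply, Sum.elim_inl]
    rwa [h2] at h1
  have hV1 : ∀ l i, val (fun α => φ (i, α)) (U l) ∈ L := by
    intro l i
    have h1 := hL (w.symm (Sum.inr i)).1 l (w.symm (Sum.inr i)).2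
    have h2 : vert w φ (w.symm (Sum.inr i)).1 (U l) (w.symm (Sum.inr i)).2 =
        val (fun α => φ (i, α)) (U l) := by
      show Sum.elim (U l) (fun i => val (fun α => φ (i, α)) (U l))
        (w ((w.symm (Sum.inr i)).1, (w.symm (Sum.inr i)).2)) = _
      rw [Prod.mk.eta, Equiv.apply_symm_apply, Sum.elim_inr]
    rwa [h2] at h1
  obtain ⟨T, T', ι, hι, hTT, hT⟩ := h L s D (fun l m => ⟨U l m, hU1 l m⟩) (by
    intro a b hab
    apply hU
    funext m
    exact congrArg Subtype.val (congrFun hab m))
  let c' : Fin r → (Fin D → Fin s) → M := fun i β => ∑ α, (T β α : M) * φ (i, α)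
  have hc1 : ∀ i l, c' i (ι l) ∈ L := by
    intro i l
    have h1 : c' i (ι l) = val (fun α => φ (i, α)) (U l) := by
      show ∑ α, (T (ι l) α : M) * φ (i, α) = ∑ α, φ (i, α) * ∏ m, U l m ^ (α m : ℕ)
      refine Finset.sum_congr rfl fun α _ => ?_
      rw [hT l α, mul_comm]
      congr 1
      push_cast
      rfl
    rw [h1]
    exact hV1 l i
  have hc2 : ∀ i α, φ (i, α) = ∑ β, (T' α β : M) * c' i β := by
    intro i α
    show _ = ∑ β, (T' α β : M) * ∑ γ, (T β γ : M) * φ (i, γ)
    have h1 : ∀ γ, ∑ β, (T' α β : M) * (T β γ : M) = if α = γ then 1 else 0 := by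
      intro γ
      have h2 := congrFun (congrFun hTT α) γ
      rw [Matrix.mul_apply, Matrix.one_apply] at h2
      have h3 := congrArg (fun z : L => (z : M)) h2
      push_cast at h3
      rw [h3]
      split_ifs <;> simp
    calc φ (i, α) = ∑ γ, (if α = γ then 1 else 0) * φ (i, γ) := by simp
      _ = ∑ γ, (∑ β, (T' α β : M) * (T β γ : M)) * φ (i, γ) := by simp only [h1]
      _ = ∑ γ, ∑ β, (T' α β : M) * ((T β γ : M) * φ (i, γ)) := by
        refine Finset.sum_congr rfl fun γ _ => ?_
        rw [Finset.sum_mul]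
        exact Finset.sum_congr rfl fun β _ => by ring
      _ = ∑ β, ∑ γ, (T' α β : M) * ((T β γ : M) * φ (i, γ)) := Finset.sum_comm
      _ = _ := Finset.sum_congr rfl fun β _ => by rw [Finset.mul_sum]
  let v : σ₀ ⊕ (Fin r × {β : Fin D → Fin s // β ∉ Finset.univ.image ι}) → M :=
    Sum.elim vv fun z => c' z.1 z.2.1
  have hLv : L ≤ IntermediateField.adjoin k (Set.range v) := by
    refine IntermediateField.adjoin.mono k _ _ ?_
    rintro _ ⟨z, rfl⟩
    exact ⟨Sum.inl z, rfl⟩
  have hc3 : ∀ i β, c' i β ∈ IntermediateField.adjoin k (Set.range v) := by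
    intro i β
    by_cases hβ : β ∈ Finset.univ.image ι
    · obtain ⟨l, -, rfl⟩ := Finset.mem_image.1 hβ
      exact hLv (hc1 i l)
    · exact IntermediateField.subset_adjoin k _ ⟨Sum.inr (i, ⟨β, hβ⟩), rfl⟩
  have hx : ∀ z, Sum.elim φ (U ⟨0, hs⟩) z ∈ IntermediateField.adjoin k (Set.range v) := by
    rintro (⟨i, α⟩ | m)
    · rw [Sum.elim_inl, hc2]
      exact sum_mem fun β _ => mul_mem (hLv (T' α β).2) (hc3 i β)
    · rw [Sum.elim_inr]
      exact hLv (hU1 _ m)
  have hmain := card_le v _ hind hx
  have hcσ : Nat.card (σ₀ ⊕ (Fin r × {β : Fin D → Fin s // β ∉ Finset.univ.image ι})) =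
      (∑ j, (Finset.univ.image (τ j)).card) * d + r * (s ^ D - s) := by
    rw [Nat.card_eq_fintype_card, Fintype.card_sum, Fintype.card_prod, Fintype.card_prod,
      Fintype.card_sigma, Fintype.card_fin, Fintype.card_fin]
    congr 2
    · exact Finset.sum_congr rfl fun j _ => Fintype.card_coe _
    · rw [Fintype.card_subtype_compl, Fintype.card_fun, Fintype.card_fin, Fintype.card_fin,
        Fintype.card_coe, Finset.card_image_of_injective _ hι, Finset.card_univ, Fintype.card_fin]
  rw [hcσ] at hmain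
  have hcι : Fintype.card (Par s D r ⊕ Fin D) = r * s ^ D + D := by
    rw [Fintype.card_sum, Fintype.card_prod, Fintype.card_fin, Fintype.card_fun, Fintype.card_fin,
      Fintype.card_fin]
  rw [hcι] at hmain
  have hsD : s ≤ s ^ D := by
    have h1 := Fintype.card_le_of_injective ι hι
    rwa [Fintype.card_fin, Fintype.card_fun, Fintype.card_fin, Fintype.card_fin] at h1
  have hw : 3 * d = D + r := by
    have h1 := Fintype.card_congr w
    rwa [Fintype.card_prod, Fintype.card_sum, Fintype.card_fin, Fintype.card_fin,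
      Fintype.card_fin, Fintype.card_fin] at h1
  have h5 : (∑ j, (Finset.univ.image (τ j)).card) * d ≤ (s + 3) * d := Nat.mul_le_mul_right d hcard
  obtain ⟨t, ht⟩ := Nat.exists_eq_add_of_le hsD
  rw [ht, Nat.add_sub_cancel_left] at hmain
  have h6 : r * s + D ≤ (s + 3) * d := by
    have : r * (s + t) + D ≤ (s + 3) * d + r * t := hmain.trans (by omega)
    rw [Nat.mul_add] at this
    omega
  -- `(3 d - D) s + D ≤ (s + 3) d`
  obtain ⟨s', rfl⟩ : ∃ s', s = s' + 1 := ⟨s - 1, by omega⟩
  have h7 : r * (s' + 1) + D ≤ (s' + 4) * d := h6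
  rcases Nat.eq_zero_or_pos s' with h0 | h0
  · subst h0
    simp
  · obtain ⟨s'', rfl⟩ : ∃ s'', s' = s'' + 1 := ⟨s' - 1, by omega⟩
    have h8 : 2 * (s'' + 1 + 1) - 3 = 2 * s'' + 1 := by omega
    have h9 : s'' + 1 + 1 - 1 = s'' + 1 := by omega
    rw [h8, h9]
    nlinarith

end Pool.Agent.T2h48.AT.TD
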