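import Pool.Agent.T2h48.AT.Stm

/-!
# Task UNIQ: near points are determined by the coordinates of a transcendence basis
-/

set_option autoImplicit false

namespace Pool.Agent.T2h48.AT.UNIQ

open Polynomial

/-- some power `z ^ (q ^ k)` of an algebraic element is a simple root of a polynomial. -/
theorem sep_pow {A M : Type} [CommRing A] [IsDomain A] [Field M] [Algebra A M]
    (hinj : Function.Injective (algebraMap A M)) (q : ℕ) [hq : ExpChar A q] (z : M) :
    ∀ (d k : ℕ) (g : A[X]), g.natDegree ≤ d → g ≠ 0 → aeval (z ^ q ^ k) g = 0 →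
      ∃ (k' : ℕ) (g' : A[X]), aeval (z ^ q ^ k') g' = 0 ∧ aeval (z ^ q ^ k') (derivative g') ≠ 0 := by
  intro d
  induction d with
  | zero =>
    intro k g hd hg hz
    exfalso
    have h0 : g.natDegree = 0 := by omega
    rw [Polynomial.eq_C_of_natDegree_eq_zero h0, aeval_C] at hz
    have h1 : g.coeff 0 = 0 := hinj (by rw [hz, map_zero])
    apply hg
    rw [Polynomial.eq_C_of_natDegree_eq_zero h0, h1, C_0]
  | succ d ih =>
    intro k g hd hg hz
    by_cases h1 : aeval (z ^ q ^ k) (derivative g) = 0
    swap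
    · exact ⟨k, g, hz, h1⟩
    have hnd : g.natDegree ≠ 0 := by
      intro h0
      rw [Polynomial.eq_C_of_natDegree_eq_zero h0, aeval_C] at hz
      have h1 : g.coeff 0 = 0 := hinj (by rw [hz, map_zero])
      apply hg
      rw [Polynomial.eq_C_of_natDegree_eq_zero h0, h1, C_0]
    by_cases h2 : derivative g = 0
    swap
    · exact ih k (derivative g) (by have := natDegree_derivative_lt hnd; omega) h2 h1
    -- inseparable case
    cases hq with
    | zero =>
      exfalso
      have : IsAddTorsionFree A := by infer_instance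
      exact hnd (Polynomial.derivative_eq_zero.1 h2)
    | prime hp =>
      have h3 : expand A q (contract q g) = g := expand_contract q h2 hp.ne_zero
      have h4 : g.natDegree = (contract q g).natDegree * q := by
        conv_lhs => rw [← h3]
        rw [natDegree_expand]
      have h5 : contract q g ≠ 0 := by
        intro h6
        rw [h6, map_zero] at h3
        exact hg h3.symm
      refine ih (k + 1) (contract q g) ?_ h5 ?_
      · have h6 : 2 ≤ q := hp.two_le
        nlinarith
      · rw [← h3, expand_aeval, ← pow_mul, ← pow_succ] at hz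
        exact hz

end Pool.Agent.T2h48.AT.UNIQ

namespace Pool.Agent.T2h48.AT

open Polynomial

theorem t_UNIQ : S_UNIQ := by
  intro F M R _ _ _ _ _ _ ε n ξ x x' hx hx' U l hU hdep
  classical
  -- the polynomial ring in the variables of `U`
  let φ : MvPolynomial {u // u ∈ U} F →ₐ[F] M := MvPolynomial.aeval (fun u => ξ u)
  have hrange : Algebra.adjoin F (ξ '' (U : Set (Fin n))) = φ.range := by
    rw [← Algebra.adjoin_range_eq_range_aeval]
    congr 1
    ext y
    constructor
    · rintro ⟨u, hu, rfl⟩
      exact ⟨⟨u, hu⟩, rfl⟩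
    · rintro ⟨u, rfl⟩
      exact ⟨u, u.2, rfl⟩
  let A := Algebra.adjoin F (ξ '' (U : Set (Fin n)))
  obtain ⟨q, hqM⟩ := ExpChar.exists F
  have : ExpChar R q := expChar_of_injective_algebraMap (algebraMap F R).injective q
  have : ExpChar A q := expChar_of_injective_algebraMap (algebraMap F A).injective q
  have hinj : Function.Injective (algebraMap A M) := Subtype.val_injective
  obtain ⟨g0, hg0, hz0⟩ := hdep
  obtain ⟨k, g, hg, hg'⟩ := UNIQ.sep_pow hinj q (ξ l) g0.natDegree 0 g0 le_rfl hg0
    (by simpa using hz0)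
  -- lift to a polynomial with coefficients in the polynomial ring
  have hsurj : ∀ b : A, ∃ c : MvPolynomial {u // u ∈ U} F, φ c = (b : M) := by
    intro b
    have h1 : (b : M) ∈ φ.range := by rw [← hrange]; exact b.2
    exact h1
  let φ' : MvPolynomial {u // u ∈ U} F →+* A :=
    (φ : MvPolynomial {u // u ∈ U} F →+* M).codRestrict A.toSubring (fun c => by
      change φ c ∈ A
      rw [show A = φ.range from hrange]
      exact ⟨c, rfl⟩)
  have hφ' : ∀ c, (algebraMap A M) (φ' c) = φ c := fun c => rfl
  obtain ⟨G, hG⟩ := Polynomial.map_surjective φ' (by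
    intro b
    obtain ⟨c, hc⟩ := hsurj b
    exact ⟨c, Subtype.ext hc⟩) g
  set e := q ^ k with he
  let ρ : MvPolynomial {u // u ∈ U} F →+* MvPolynomial (Fin n) F :=
    (MvPolynomial.rename (Subtype.val : {u // u ∈ U} → Fin n) : MvPolynomial {u // u ∈ U} F →ₐ[F] MvPolynomial (Fin n) F)
  let Φ : MvPolynomial (Fin n) F := G.eval₂ ρ (MvPolynomial.X l ^ e)
  have hΦ : MvPolynomial.aeval ξ Φ = 0 := by
    have h1 : MvPolynomial.aeval ξ Φ = G.eval₂ ((MvPolynomial.aeval ξ : MvPolynomial (Fin n) F →ₐ[F] M).toRingHom.comp ρ)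
        (ξ l ^ e) := by
      change (MvPolynomial.aeval ξ : MvPolynomial (Fin n) F →ₐ[F] M).toRingHom (G.eval₂ ρ (MvPolynomial.X l ^ e)) = _
      rw [Polynomial.hom_eval₂]
      congr 1
      simp
    have h2 : (MvPolynomial.aeval ξ : MvPolynomial (Fin n) F →ₐ[F] M).toRingHom.comp ρ
        = (algebraMap A M).comp φ' := by
      ext1
      · ext r
        simp [ρ, hφ', φ]
      · rename_i u
        simp [ρ, hφ', φ]
    rw [h1, h2, ← Polynomial.eval₂_map, hG]
    exact hg
  -- the two near points
  let ψ : MvPolynomial {u // u ∈ U} F →+* R :=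
    (MvPolynomial.aeval (fun u => x u) : MvPolynomial {u // u ∈ U} F →ₐ[F] R)
  have key : ∀ y : Fin n → R, Near ε ξ y → (∀ u ∈ U, x u = y u) →
      (G.map ψ).eval (y l ^ e) = 0 := by
    intro y hy hyU
    have h0 := hy.2 Φ hΦ
    have h1 : MvPolynomial.aeval y Φ = G.eval₂ ((MvPolynomial.aeval y : MvPolynomial (Fin n) F →ₐ[F] R).toRingHom.comp ρ)
        (y l ^ e) := by
      change (MvPolynomial.aeval y : MvPolynomial (Fin n) F →ₐ[F] R).toRingHom (G.eval₂ ρ (MvPolynomial.X l ^ e)) = _
      rw [Polynomial.hom_eval₂]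
      congr 1
      simp
    have h2 : (MvPolynomial.aeval y : MvPolynomial (Fin n) F →ₐ[F] R).toRingHom.comp ρ = ψ := by
      ext1
      · ext r
        simp [ρ, ψ]
      · rename_i u
        simp [ρ, ψ, (hyU u u.2)]
    rw [h1, h2] at h0
    rw [Polynomial.eval_map]
    exact h0
  have hz := key x hx (fun _ _ => rfl)
  have hz' := key x' hx' hU
  set z := x l ^ e with hzdef
  set z' := x' l ^ e with hz'def
  obtain ⟨r, hr⟩ := Polynomial.binomExpansion (G.map ψ) z (z' - z)
  rw [add_sub_cancel, hz, hz'] at hr
  have hεψ : (ε : R →+* M).comp ψ = (algebraMap A M).comp φ' := by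
    ext1
    · ext s
      simp [hφ', φ, ψ]
    · rename_i u
      simp [hφ', φ, ψ, hx.1]
  have hne : (derivative (G.map ψ)).eval z + r * (z' - z) ≠ 0 := by
    intro h0
    apply hg'
    have h1 := congrArg ε h0
    rw [map_add, map_mul, map_sub, map_zero] at h1
    have h2 : ε z' = ε z := by
      rw [hzdef, hz'def, map_pow, map_pow, hx.1, hx'.1]
    rw [h2, sub_self, mul_zero, add_zero] at h1
    have h3 : ε (eval z (derivative (G.map ψ))) = aeval (ξ l ^ e) (derivative g) := by
      rw [Polynomial.derivative_map, Polynomial.eval_map, ← hG, Polynomial.derivative_map]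
      change (ε : R →+* M) _ = _
      rw [Polynomial.hom_eval₂, hεψ, Polynomial.aeval_def, Polynomial.eval₂_map]
      congr 1
      change ε z = _
      rw [hzdef, map_pow, hx.1]
    rw [← h3]
    exact h1
  have h5 : (z' - z) * ((derivative (G.map ψ)).eval z + r * (z' - z)) = 0 := by
    rw [hr]; ring
  have h6 : z' = z := by
    rcases mul_eq_zero.1 h5 with h | h
    · exact sub_eq_zero.1 h
    · exact absurd h hne
  have h7 : iterateFrobenius R q k (x' l) = iterateFrobenius R q k (x l) := by
    rw [iterateFrobenius_def, iterateFrobenius_def]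
    exact h6
  exact (iterateFrobenius_inj R q k h7).symm

end Pool.Agent.T2h48.AT
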