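import Pool.Agent.T2h48.AT.Stm

/-!
# Project AT: Noetherian induction
-/

set_option autoImplicit false
set_option maxHeartbeats 1000000

namespace Pool.Agent.T2h48.AT

open Pool.Agent.T2h48.DW MvPolynomial
open scoped Classical

section defs
variable {F : Type} [Field F] {n a : ℕ} (c : Fin 3 → Fin a → Fin n) (Φ : QF F n)

/-- the points of the formula in the zero set of the ideal -/
def Pts (I : Ideal (MvPolynomial (Fin n) F)) (K : Type) [Field K] [Algebra F K] : Set (Fin n → K) :=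
  {p | Φ.Holds p ∧ ∀ f ∈ I, aeval p f = 0}

/-- the three vertices -/
noncomputable def edge {K : Type} (p : Fin n → K) : Finset (Fin a → K) :=
  Finset.univ.image (fun j => p ∘ c j)

/-- the vertices that are covered by the edges -/
def Cov (K : Type) [Field K] [Algebra F K] : Set (Fin a → K) := {v | ∃ p j, Φ.Holds p ∧ v = p ∘ c j}

/-- no `m` edges span at most `m + 3` vertices -/
def Free (m : ℕ) (K : Type) [Field K] [Algebra F K] : Prop :=
  ∀ S : Finset (Finset (Fin a → K)), (∀ e ∈ S, ∃ p : Fin n → K, Φ.Holds p ∧ e = edge c p) →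
    S.card = m → m + 3 < (S.biUnion id).card

/-- this holds over a cofinal family of extensions -/
def Tower (m : ℕ) : Prop :=
  ∀ N : ℕ, 1 ≤ N → ∃ (K : Type) (_ : Field K) (_ : Finite K) (_ : Algebra F K),
    N ∣ Module.finrank F K ∧ Free c Φ m K

/-- the bound for the points in the zero set of `I` -/
def Claim (e : ℝ) (I : Ideal (MvPolynomial (Fin n) F)) : Prop :=
  ∃ C : ℕ, ∀ (K : Type) [Field K] [Finite K] [Algebra F K],
    ((Pts Φ I K).ncard : ℝ) ≤ C * ((Cov c Φ K).ncard : ℝ) ^ e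

end defs

section basic
variable {F : Type} [Field F] {n a : ℕ} {c : Fin 3 → Fin a → Fin n} {Φ : QF F n} {e : ℝ}

theorem claim_step {I J : Ideal (MvPolynomial (Fin n) F)}
    (X : (K : Type) → [Field K] → [Algebra F K] → Set (Fin n → K)) (C : ℕ)
    (h1 : ∀ (K : Type) [Field K] [Finite K] [Algebra F K], Pts Φ I K ⊆ X K ∪ Pts Φ J K)
    (h2 : ∀ (K : Type) [Field K] [Finite K] [Algebra F K],
      ((X K).ncard : ℝ) ≤ C * ((Cov c Φ K).ncard : ℝ) ^ e) (hJ : Claim c Φ e J) : Claim c Φ e I := by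
  obtain ⟨C', hJ⟩ := hJ
  refine ⟨C + C', fun K _ _ _ => ?_⟩
  have h3 := h2 K
  have h4 := hJ K
  have h5 : (Pts Φ I K).ncard ≤ (X K).ncard + (Pts Φ J K).ncard :=
    (Set.ncard_le_ncard (h1 K) (Set.toFinite _)).trans (Set.ncard_union_le _ _)
  have h6 : ((Pts Φ I K).ncard : ℝ) ≤ (X K).ncard + (Pts Φ J K).ncard := by exact_mod_cast h5
  push_cast
  rw [add_mul]
  linarith

theorem claim_union {I J J' : Ideal (MvPolynomial (Fin n) F)}
    (h : ∀ (K : Type) [Field K] [Finite K] [Algebra F K], Pts Φ I K ⊆ Pts Φ J K ∪ Pts Φ J' K)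
    (hJ : Claim c Φ e J) (hJ' : Claim c Φ e J') : Claim c Φ e I := by
  obtain ⟨C, hJ⟩ := hJ
  exact claim_step (fun K _ _ => Pts Φ J K) C h (fun K _ _ _ => hJ K) hJ'

theorem claim_sub {I J : Ideal (MvPolynomial (Fin n) F)}
    (h : ∀ (K : Type) [Field K] [Finite K] [Algebra F K], Pts Φ I K ⊆ Pts Φ J K)
    (hJ : Claim c Φ e J) : Claim c Φ e I := by
  refine claim_step (fun K _ _ => ∅) 0 (fun K _ _ _ => ?_) (fun K _ _ _ => ?_) hJ
  · rw [Set.empty_union]
    exact h K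
  · simp

theorem sup_span {I : Ideal (MvPolynomial (Fin n) F)} {s : MvPolynomial (Fin n) F} {K : Type} [Field K]
    [Algebra F K] (x : Fin n → K) : (∀ g ∈ I ⊔ Ideal.span {s}, aeval x g = 0) ↔
      (∀ g ∈ I, aeval x g = 0) ∧ aeval x s = 0 := by
  constructor
  · intro h
    exact ⟨fun g hg => h g (Ideal.mem_sup_left hg),
      h s (Ideal.mem_sup_right (Ideal.mem_span_singleton_self s))⟩
  · rintro ⟨h1, h2⟩ g hg
    have h3 : I ⊔ Ideal.span {s} ≤ RingHom.ker (aeval x : MvPolynomial (Fin n) F →ₐ[F] K) := by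
      rw [sup_le_iff]
      refine ⟨fun y hy => h1 y hy, ?_⟩
      rw [Ideal.span_le, Set.singleton_subset_iff]
      exact h2
    exact h3 hg

/-- homomorphisms of `F[x] / P` to `K` -/
theorem exists_pts {n : ℕ} (P : Ideal (MvPolynomial (Fin n) F)) (K : Type) [Field K] [Algebra F K] :
    ∃ e : (MvPolynomial (Fin n) F ⧸ P →ₐ[F] K) ≃ {x : Fin n → K // ∀ f ∈ P, aeval x f = 0},
      (∀ φ f, aeval (e φ).1 f = φ (Ideal.Quotient.mk P f)) ∧
      ∀ φ i, (e φ).1 i = φ (Ideal.Quotient.mk P (X i)) := by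
  have e : ∀ (φ : MvPolynomial (Fin n) F ⧸ P →ₐ[F] K) (f : MvPolynomial (Fin n) F),
      aeval (fun i => φ (Ideal.Quotient.mk P (X i))) f = φ (Ideal.Quotient.mk P f) := by
    intro φ f
    have h : (aeval (fun i => φ (Ideal.Quotient.mk P (X i))) : MvPolynomial (Fin n) F →ₐ[F] K) =
        φ.comp (Ideal.Quotient.mkₐ F P) := by
      apply MvPolynomial.algHom_ext
      intro i
      rw [aeval_X]
      rfl
    exact DFunLike.congr_fun h f
  let G : (MvPolynomial (Fin n) F ⧸ P →ₐ[F] K) → {x : Fin n → K // ∀ f ∈ P, aeval x f = 0} := fun φ =>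
    ⟨fun i => φ (Ideal.Quotient.mk P (X i)), fun f hf => by
      rw [e, Ideal.Quotient.eq_zero_iff_mem.2 hf, map_zero]⟩
  let H : {x : Fin n → K // ∀ f ∈ P, aeval x f = 0} → (MvPolynomial (Fin n) F ⧸ P →ₐ[F] K) := fun x =>
    Ideal.Quotient.liftₐ P (aeval x.1 : MvPolynomial (Fin n) F →ₐ[F] K) x.2
  refine ⟨⟨G, H, ?_, ?_⟩, e, fun _ _ => rfl⟩
  · intro φ
    refine AlgHom.ext fun y => ?_
    obtain ⟨f, rfl⟩ := Ideal.Quotient.mk_surjective y
    exact e φ f
  · intro x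
    apply Subtype.ext
    funext i
    exact aeval_X x.1 i

end basic

/-- real exponents -/
theorem rpow_bound {q D d C₁ C₂ N X m : ℕ} (hm : 2 ≤ m) (hq : 1 ≤ q) (hd : (m - 1) * D ≤ (2 * m - 3) * d)
    (h1 : q ^ d ≤ C₁ * N) (h2 : X ≤ C₂ * q ^ D) :
    (X : ℝ) ≤ ((C₂ * C₁ ^ 2 : ℕ) : ℝ) * (N : ℝ) ^ (2 - 1 / ((m : ℝ) - 1)) := by
  have hq0 : 0 < q ^ d := by positivity
  have hCN : 1 ≤ C₁ * N := by omega
  have hC : 1 ≤ C₁ := Nat.pos_of_ne_zero (by rintro rfl; simp at hCN)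
  have hN : 1 ≤ N := Nat.pos_of_ne_zero (by rintro rfl; simp at hCN)
  have hqr : (1 : ℝ) ≤ q := by exact_mod_cast hq
  have hCr : (1 : ℝ) ≤ C₁ := by exact_mod_cast hC
  have hNr : (1 : ℝ) ≤ N := by exact_mod_cast hN
  have hmr : (2 : ℝ) ≤ m := by exact_mod_cast hm
  have hm1 : (0 : ℝ) < (m : ℝ) - 1 := by linarith
  set e : ℝ := 2 - 1 / ((m : ℝ) - 1) with he
  have he2 : e ≤ 2 := by
    have : (0 : ℝ) < 1 / ((m : ℝ) - 1) := by positivity
    linarith
  have he1 : 1 ≤ e := by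
    have : 1 / ((m : ℝ) - 1) ≤ 1 := by
      rw [div_le_one hm1]
      linarith
    linarith
  have hde : (D : ℝ) ≤ d * e := by
    have h3 : (((m - 1 : ℕ) : ℝ)) * D ≤ ((2 * m - 3 : ℕ) : ℝ) * d := by exact_mod_cast hd
    rw [Nat.cast_sub (by omega), Nat.cast_sub (by omega)] at h3
    push_cast at h3
    have h4 : e * ((m : ℝ) - 1) = 2 * m - 3 := by
      rw [he, sub_mul, div_mul_cancel₀ _ hm1.ne']
      ring
    by_contra hlt
    push Not at hlt
    have h5 := mul_lt_mul_of_pos_right hlt hm1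
    have h6 : (d : ℝ) * e * ((m : ℝ) - 1) = (2 * m - 3) * d := by
      rw [mul_assoc, h4]
      ring
    rw [h6] at h5
    linarith
  have e1 : (q : ℝ) ^ D ≤ ((q : ℝ) ^ d) ^ e := by
    rw [← Real.rpow_natCast, ← Real.rpow_natCast, ← Real.rpow_mul (by linarith)]
    exact Real.rpow_le_rpow_of_exponent_le hqr hde
  have e3 : ((q : ℝ) ^ d) ^ e ≤ ((C₁ : ℝ) * N) ^ e := by
    apply Real.rpow_le_rpow (by positivity) _ (by linarith)
    exact_mod_cast h1
  have e4 : ((C₁ : ℝ) * N) ^ e = (C₁ : ℝ) ^ e * (N : ℝ) ^ e :=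
    Real.mul_rpow (by linarith) (by linarith)
  have e5 : (C₁ : ℝ) ^ e ≤ (C₁ : ℝ) ^ 2 := by
    rw [← Real.rpow_natCast (C₁ : ℝ) 2]
    apply Real.rpow_le_rpow_of_exponent_le hCr
    push_cast
    linarith
  have e7 : (X : ℝ) ≤ C₂ * (q : ℝ) ^ D := by exact_mod_cast h2
  calc (X : ℝ) ≤ C₂ * (q : ℝ) ^ D := e7
    _ ≤ C₂ * (((C₁ : ℝ) ^ 2) * (N : ℝ) ^ e) := by
        refine mul_le_mul_of_nonneg_left ?_ (Nat.cast_nonneg _)
        refine e1.trans (e3.trans ?_)
        rw [e4]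
        exact mul_le_mul_of_nonneg_right e5 (by positivity)
    _ = ((C₂ * C₁ ^ 2 : ℕ) : ℝ) * (N : ℝ) ^ e := by
        push_cast
        ring

/-- **GEN**: a formula is constant on a nonempty open subset of an irreducible set -/
theorem gen {F : Type} [Field F] (n : ℕ) (φ : QF F n) (P : Ideal (MvPolynomial (Fin n) F))
    (hP : P.IsPrime) : ∃ s, s ∉ P ∧
    ((∀ (k : Type) [Field k] [Algebra F k] (x : Fin n → k), (∀ f ∈ P, MvPolynomial.aeval x f = 0) →
      MvPolynomial.aeval x s ≠ 0 → φ.Holds x) ∨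
    (∀ (k : Type) [Field k] [Algebra F k] (x : Fin n → k), (∀ f ∈ P, MvPolynomial.aeval x f = 0) →
      MvPolynomial.aeval x s ≠ 0 → ¬ φ.Holds x)) := by
  induction φ with
  | eq f =>
    by_cases hf : f ∈ P
    · exact ⟨1, (Ideal.ne_top_iff_one P).1 hP.ne_top, Or.inl fun k _ _ x hx _ => hx f hf⟩
    · exact ⟨f, hf, Or.inr fun k _ _ x _ hs => hs⟩
  | neg φ ih =>
    obtain ⟨s, hs, h⟩ := ih
    refine ⟨s, hs, ?_⟩
    rcases h with h | h
    · exact Or.inr fun k _ _ x hx hsx => not_not_intro (h k x hx hsx)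
    · exact Or.inl fun k _ _ x hx hsx => h k x hx hsx
  | and φ ψ ih1 ih2 =>
    obtain ⟨s, hs, h⟩ := ih1
    obtain ⟨t, ht, h'⟩ := ih2
    have hst : ∀ (k : Type) [Field k] [Algebra F k] (x : Fin n → k), MvPolynomial.aeval x (s * t) ≠ 0 →
        MvPolynomial.aeval x s ≠ 0 ∧ MvPolynomial.aeval x t ≠ 0 := by
      intro k _ _ x hx
      rw [map_mul] at hx
      exact ⟨left_ne_zero_of_mul hx, right_ne_zero_of_mul hx⟩
    refine ⟨s * t, fun hm => (hP.mem_or_mem hm).elim hs ht, ?_⟩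
    rcases h with h | h
    · rcases h' with h' | h'
      · exact Or.inl fun k _ _ x hx hsx =>
          ⟨h k x hx (hst k x hsx).1, h' k x hx (hst k x hsx).2⟩
      · exact Or.inr fun k _ _ x hx hsx hh => h' k x hx (hst k x hsx).2 hh.2
    · exact Or.inr fun k _ _ x hx hsx hh => h k x hx (hst k x hsx).1 hh.1

end Pool.Agent.T2h48.AT
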