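import Pool.Agent.T2h48.AT.Ind

/-!
# Project AT: the configurations
-/

set_option autoImplicit false
set_option maxHeartbeats 1000000

namespace Pool.Agent.T2h48.AT

open Pool.Agent.T2h48.DW MvPolynomial
open scoped Classical

/-- the case in which there are configurations near the generic edge -/
theorem conf_case (hSPEC : S_SPEC) {F : Type} [Field F] [Finite F] {n a : ℕ} {c : Fin 3 → Fin a → Fin n}
    (hc : ∀ l : Fin n, ∃ j i, c j i = l) {Φ : QF F n}
    (hΦ : ∀ (k : Type) [Field k] [Algebra F k] (p : Fin n → k), Φ.Holds p → ∀ j j' : Fin 3, j ≠ j' →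
      p ∘ c j ≠ p ∘ c j') {m : ℕ} (s₀ : MvPolynomial (Fin n) F)
    (M : Type) [Field M] [Algebra F M] (ξ : Fin n → M) (hs₀ : aeval ξ s₀ ≠ 0)
    (hs₀' : ∀ (k : Type) [Field k] [Algebra F k] (x : Fin n → k),
      (∀ f : MvPolynomial (Fin n) F, aeval ξ f = 0 → MvPolynomial.aeval x f = 0) →
      MvPolynomial.aeval x s₀ ≠ 0 → Φ.Holds x)
    (R : Type) [CommRing R] [IsDomain R] [Algebra F R] (ε : R →ₐ[F] M) (T : Finset (Fin n → R))
    (hTm : T.card = m) (hTn : ∀ x ∈ T, Near ε ξ x)
    (hTs : ∑ j, ((fun x : Fin n → R => x ∘ c j) '' (T : Set (Fin n → R))).ncard ≤ m + 3) :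
    ∃ N : ℕ, 1 ≤ N ∧ ∀ (K : Type) [Field K] [Finite K] [Algebra F K], N ∣ Module.finrank F K →
      ¬ Free c Φ m K := by
  -- the ring
  let G : Finset R := (T ×ˢ (Finset.univ : Finset (Fin n))).image fun z => z.1 z.2
  let B : Subalgebra F R := Algebra.adjoin F (G : Set R)
  have hB : B.FG := ⟨G, rfl⟩
  have hBft : Algebra.FiniteType F B := (Subalgebra.fg_iff_finiteType B).1 hB
  have hmemB : ∀ x ∈ T, ∀ l, x l ∈ B := by
    intro x hx l
    refine Algebra.subset_adjoin ?_
    rw [Finset.mem_coe, Finset.mem_image]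
    exact ⟨(x, l), by simp [hx], rfl⟩
  let g : {x // x ∈ T} → Fin n → B := fun x l => ⟨x.1 l, hmemB x.1 x.2 l⟩
  have hg : ∀ x l, ((g x l : B) : R) = x.1 l := fun _ _ => rfl
  have hgf : ∀ x (f : MvPolynomial (Fin n) F), ((aeval (g x) f : B) : R) = aeval x.1 f := by
    intro x f
    have h1 : B.val.comp (aeval (g x)) = aeval x.1 := by
      apply MvPolynomial.algHom_ext
      intro l
      rw [AlgHom.comp_apply, aeval_X, aeval_X]
      rfl
    exact DFunLike.congr_fun h1 f
  have hεf : ∀ x ∈ T, ∀ (f : MvPolynomial (Fin n) F), ε (aeval x f) = aeval ξ f := by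
    intro x hx f
    have h1 : ε.comp (aeval x) = aeval ξ := by
      apply MvPolynomial.algHom_ext
      intro l
      rw [AlgHom.comp_apply, aeval_X, aeval_X]
      exact (hTn x hx).1 l
    exact DFunLike.congr_fun h1 f
  -- the element `t`
  let Z := {x // x ∈ T} × {x // x ∈ T} × (Fin 3 × Fin 3) × Fin a
  let df : Z → B := fun z => g z.1 (c z.2.2.1.1 z.2.2.2) - g z.2.1 (c z.2.2.1.2 z.2.2.2)
  let t : B := (∏ z : Z, if df z = 0 then 1 else df z) * ∏ x : {x // x ∈ T}, aeval (g x) s₀
  have ht : t ≠ 0 := by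
    refine mul_ne_zero ?_ ?_
    · rw [Finset.prod_ne_zero_iff]
      intro z _
      split_ifs with h
      · exact one_ne_zero
      · exact h
    · rw [Finset.prod_ne_zero_iff]
      intro x _ h
      apply hs₀
      rw [← hεf x.1 x.2, ← hgf, h]
      simp
  obtain ⟨N, hN1, hN⟩ := hSPEC F B t ht
  refine ⟨N, hN1, fun K _ _ _ hK hfree => ?_⟩
  obtain ⟨χ, hχ⟩ := hN K hK
  -- the points
  let q : {x // x ∈ T} → (Fin n → K) := fun x l => χ (g x l)
  have hq : ∀ x (f : MvPolynomial (Fin n) F), aeval (q x) f = χ (aeval (g x) f) := by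
    intro x f
    have h1 : χ.comp (aeval (g x)) = aeval (q x) := by
      apply MvPolynomial.algHom_ext
      intro l
      rw [AlgHom.comp_apply, aeval_X, aeval_X]
    exact (DFunLike.congr_fun h1 f).symm
  have hχ1 : ∀ z : Z, df z ≠ 0 → χ (df z) ≠ 0 := by
    intro z hz h
    apply hχ
    rw [map_mul, map_prod]
    rw [Finset.prod_eq_zero (Finset.mem_univ z), zero_mul]
    rw [if_neg hz, h]
  have hχ2 : ∀ x : {x // x ∈ T}, χ (aeval (g x) s₀) ≠ 0 := by
    intro x h
    apply hχ
    rw [map_mul, map_prod _ _ (Finset.univ : Finset {x // x ∈ T})]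
    rw [Finset.prod_eq_zero (Finset.mem_univ x) h, mul_zero]
  have hqΦ : ∀ x, Φ.Holds (q x) := by
    intro x
    refine hs₀' K (q x) ?_ ?_
    · intro f hf
      have h1 : aeval (g x) f = 0 := by
        apply Subtype.ext
        rw [hgf]
        exact (hTn x.1 x.2).2 f hf
      rw [hq, h1, map_zero]
    · rw [hq]
      exact hχ2 x
  -- the generic edge has distinct vertices
  have hgenΦ : Φ.Holds ξ := hs₀' M ξ (fun f hf => hf) hs₀
  -- equal vertices
  have hvert : ∀ (x x' : {x // x ∈ T}) (j j' : Fin 3), q x ∘ c j = q x' ∘ c j' →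
      j = j' ∧ x.1 ∘ c j = x'.1 ∘ c j' := by
    intro x x' j j' h
    have h1 : ∀ i, g x (c j i) = g x' (c j' i) := by
      intro i
      by_contra h2
      have h3 := hχ1 (x, x', (j, j'), i) (sub_ne_zero.2 h2)
      apply h3
      rw [map_sub]
      exact sub_eq_zero.2 (congrFun h i)
    have h2 : ∀ i, x.1 (c j i) = x'.1 (c j' i) := by
      intro i
      exact congrArg (fun b : B => (b : R)) (h1 i)
    refine ⟨?_, funext h2⟩
    by_contra hjj
    refine hΦ M _ hgenΦ j j' hjj ?_
    funext i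
    have := congrArg ε (h2 i)
    rw [(hTn x.1 x.2).1, (hTn x'.1 x'.2).1] at this
    exact this
  -- distinct edges
  have hinj : Function.Injective fun x : {x // x ∈ T} => edge c (q x) := by
    intro x x' h
    have h1 : ∀ j, q x ∘ c j = q x' ∘ c j := by
      intro j
      have h2 : q x ∘ c j ∈ edge c (q x') := by
        have h3 : q x ∘ c j ∈ edge c (q x) := Finset.mem_image_of_mem _ (Finset.mem_univ j)
        have h4 : edge c (q x) = edge c (q x') := h
        rwa [h4] at h3
      obtain ⟨j', -, hj'⟩ := Finset.mem_image.1 h2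
      obtain ⟨rfl, -⟩ := hvert x x' j j' hj'.symm
      exact hj'.symm
    apply Subtype.ext
    funext l
    obtain ⟨j, i, rfl⟩ := hc l
    exact congrFun (hvert x x' j j (h1 j)).2 i
  -- the configuration
  let S : Finset (Finset (Fin a → K)) := Finset.univ.image fun x : {x // x ∈ T} => edge c (q x)
  have hScard : S.card = m := by
    rw [Finset.card_image_of_injective _ hinj, Finset.card_univ, Fintype.card_coe, hTm]
  have h1 := hfree S (by
    intro e he
    obtain ⟨x, -, rfl⟩ := Finset.mem_image.1 he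
    exact ⟨q x, hqΦ x, rfl⟩) hScard
  -- the number of the vertices
  have h2 : (S.biUnion id).card ≤
      ∑ j : Fin 3, ((fun x : Fin n → R => x ∘ c j) '' (T : Set (Fin n → R))).ncard := by
    have h3 : S.biUnion id ⊆ (Finset.univ : Finset (Fin 3)).biUnion fun j =>
        (Finset.univ : Finset {x // x ∈ T}).image fun x => q x ∘ c j := by
      intro v hv
      obtain ⟨e, he, hv⟩ := Finset.mem_biUnion.1 hv
      obtain ⟨x, -, rfl⟩ := Finset.mem_image.1 he
      obtain ⟨j, -, rfl⟩ := Finset.mem_image.1 hv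
      exact Finset.mem_biUnion.2 ⟨j, Finset.mem_univ j, Finset.mem_image_of_mem _ (Finset.mem_univ x)⟩
    refine (Finset.card_le_card h3).trans (Finset.card_biUnion_le.trans ?_)
    refine Finset.sum_le_sum fun j _ => ?_
    have h4 : ((fun x : Fin n → R => x ∘ c j) '' (T : Set (Fin n → R))) =
        (((Finset.univ : Finset {x // x ∈ T}).image fun x => x.1 ∘ c j :
          Finset (Fin a → R)) : Set (Fin a → R)) := by
      ext v
      simp
    rw [h4, Set.ncard_coe_finset]
    have h5 : ((Finset.univ : Finset {x // x ∈ T}).image fun x => q x ∘ c j) ⊆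
        ((Finset.univ : Finset {x // x ∈ T}).image fun x => x.1 ∘ c j).image
          fun v => fun i => if h : v i ∈ B then χ ⟨v i, h⟩ else 0 := by
      intro v hv
      obtain ⟨x, -, rfl⟩ := Finset.mem_image.1 hv
      rw [Finset.mem_image]
      refine ⟨_, Finset.mem_image_of_mem _ (Finset.mem_univ x), ?_⟩
      funext i
      have h6 : x.1 (c j i) ∈ B := hmemB x.1 x.2 _
      show (if h : x.1 (c j i) ∈ B then χ ⟨x.1 (c j i), h⟩ else 0) = _
      rw [dif_pos h6]
      rfl
    exact (Finset.card_le_card h5).trans Finset.card_image_le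
  omega

end Pool.Agent.T2h48.AT
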