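import Pool.Agent.T2h48.AT.Ind2

/-!
# Project AT: the prime case
-/

set_option autoImplicit false
set_option maxHeartbeats 1000000

namespace Pool.Agent.T2h48.AT

open Pool.Agent.T2h48.DW MvPolynomial
open scoped Classical

/-- the number of the points is at most the number of the homomorphisms -/
theorem pts_le {F : Type} [Field F] {n : ℕ} (Φ : QF F n) (P : Ideal (MvPolynomial (Fin n) F))
    (u : MvPolynomial (Fin n) F) (K : Type) [Field K] [Finite K] [Algebra F K] :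
    {p | p ∈ Pts Φ P K ∧ aeval p u ≠ 0}.ncard ≤
      Nat.card {ψ : MvPolynomial (Fin n) F ⧸ P →ₐ[F] K // ψ (Ideal.Quotient.mk P u) ≠ 0} := by
  obtain ⟨e, he, -⟩ := exists_pts P K
  have h1 : Finite {x : Fin n → K // ∀ f ∈ P, aeval x f = 0} := inferInstance
  have h2 : Finite (MvPolynomial (Fin n) F ⧸ P →ₐ[F] K) := Finite.of_equiv _ e.symm
  rw [← Nat.card_coe_set_eq]
  refine Nat.card_le_card_of_injective
    (fun p : {p | p ∈ Pts Φ P K ∧ aeval p u ≠ 0} => (⟨e.symm ⟨p.1, p.2.1.2⟩, ?_⟩ :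
      {ψ : MvPolynomial (Fin n) F ⧸ P →ₐ[F] K // ψ (Ideal.Quotient.mk P u) ≠ 0})) ?_
  · rw [← he, Equiv.apply_symm_apply]
    exact p.2.2
  · intro p p' h
    have h3 := congrArg Subtype.val h
    simp only at h3
    have h4 := e.symm.injective h3
    apply Subtype.ext
    have h5 := congrArg Subtype.val h4
    exact h5

/-- the prime case -/
theorem prime_case (hBAS : S_BAS) (hCORE : S_CORE) (hSPEC : S_SPEC) (hCOUNT : S_COUNT)
    (hLOWER : S_LOWER) {F : Type} [Field F] [Finite F] {n a : ℕ} {c : Fin 3 → Fin a → Fin n}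
    (hc : ∀ l : Fin n, ∃ j i, c j i = l) {Φ : QF F n}
    (hΦ : ∀ (k : Type) [Field k] [Algebra F k] (p : Fin n → k), Φ.Holds p → ∀ j j' : Fin 3, j ≠ j' →
      p ∘ c j ≠ p ∘ c j') {m : ℕ} (hm : 2 ≤ m) (hT : Tower c Φ m)
    (P : Ideal (MvPolynomial (Fin n) F)) (hP : P.IsPrime)
    (ih : ∀ s, s ∉ P → Claim c Φ (2 - 1 / ((m : ℝ) - 1)) (P ⊔ Ideal.span {s})) :
    Claim c Φ (2 - 1 / ((m : ℝ) - 1)) P := by
  set A := MvPolynomial (Fin n) F ⧸ P with hA
  obtain ⟨s₀, hs₀, hgen⟩ := gen n Φ P hP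
  rcases hgen with hgen | hgen
  swap
  · refine claim_sub (fun K _ _ _ => ?_) (ih s₀ hs₀)
    intro x hx
    refine ⟨hx.1, ?_⟩
    rw [sup_span]
    refine ⟨hx.2, ?_⟩
    by_contra h
    exact hgen K x hx.2 h hx.1
  set M := FractionRing A with hM
  have hinj : Function.Injective (algebraMap A M) := IsFractionRing.injective A M
  let y : Fin n → A := fun l => Ideal.Quotient.mk P (X l)
  let ξ : Fin n → M := fun l => algebraMap A M (y l)
  have hyf : ∀ f : MvPolynomial (Fin n) F, aeval y f = Ideal.Quotient.mk P f := by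
    intro f
    have h1 : aeval y = Ideal.Quotient.mkₐ F P := by
      apply MvPolynomial.algHom_ext
      intro l
      rw [aeval_X]
      rfl
    rw [h1]
    rfl
  have hξf : ∀ f : MvPolynomial (Fin n) F, aeval ξ f = algebraMap A M (Ideal.Quotient.mk P f) := by
    intro f
    rw [← hyf]
    exact aeval_algebraMap_apply M y f
  have hξ0 : ∀ f : MvPolynomial (Fin n) F, aeval ξ f = 0 ↔ f ∈ P := by
    intro f
    rw [hξf, ← Ideal.Quotient.eq_zero_iff_mem, map_eq_zero_iff _ hinj]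
  obtain ⟨hbas, -⟩ := hBAS F M n ξ
  obtain ⟨U₀, -, hU₀i, hU₀d⟩ := hbas Finset.univ
  have hU₀d' : ∀ l, Dep F ξ U₀ l := fun l => hU₀d l (Finset.mem_univ l)
  have hU : ∀ j : Fin 3, ∃ U ⊆ Finset.univ.image (c j), Ind F ξ U ∧ ∀ l ∈ Finset.univ.image (c j), Dep F ξ U l :=
    fun j => hbas _
  choose U hUs hUi hUd using hU
  by_cases hd : ∀ j, (2 * m - 3) * (U j).card < (m - 1) * U₀.card
  · obtain ⟨R, iR, iD, iA, ε, T, hT1, hT2, hT3⟩ := hCORE F M n a ξ c U₀ hU₀i hU₀d' m hm U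
      (fun j i => hUd j (c j i) (Finset.mem_image_of_mem _ (Finset.mem_univ i))) hd
    obtain ⟨N, hN1, hN⟩ := conf_case hSPEC hc hΦ s₀ M ξ (by rwa [ne_eq, hξ0])
      (fun k _ _ x hx hxs => hgen k x (fun f hf => hx f ((hξ0 f).2 hf)) hxs) R ε T hT1 hT2 hT3
    obtain ⟨K, iK, iF, iAK, hK1, hK2⟩ := hT N hN1
    exact absurd hK2 (hN K hK1)
  push Not at hd
  obtain ⟨j, hj⟩ := hd
  -- the upper bound
  have halg : Algebra.IsAlgebraic (Algebra.adjoin F
      (Set.range (Fin.elim0 : Fin 0 → A) ∪ ((U₀.image y : Finset A) : Set A))) A := by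
    set R₀ := Algebra.adjoin F (Set.range (Fin.elim0 : Fin 0 → A) ∪ ((U₀.image y : Finset A) : Set A)) with hR₀
    have h1 : ∀ l, IsAlgebraic R₀ (y l) := by
      intro l
      have himg : R₀.map (IsScalarTower.toAlgHom F A M) = Algebra.adjoin F (ξ '' (U₀ : Set (Fin n))) := by
        rw [hR₀, AlgHom.map_adjoin]
        congr 1
        rw [Set.image_union, Set.range_eq_empty, Set.image_empty, Set.empty_union, Finset.coe_image,
          ← Set.image_comp]
        rfl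
      let f : R₀ →+* Algebra.adjoin F (ξ '' (U₀ : Set (Fin n))) :=
        ((algebraMap A M).comp (algebraMap R₀ A)).codRestrict
          (Algebra.adjoin F (ξ '' (U₀ : Set (Fin n)))).toSubring (by
            intro r
            have h2 : algebraMap A M (r : A) ∈ Algebra.adjoin F (ξ '' (U₀ : Set (Fin n))) := by
              rw [← himg]
              exact ⟨r, r.2, rfl⟩
            exact h2)
      have hfs : Function.Surjective f := by
        rintro ⟨r, hr⟩
        have hr' := hr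
        rw [← himg] at hr'
        obtain ⟨r', hr'1, hr'2⟩ := hr'
        exact ⟨⟨r', hr'1⟩, Subtype.ext hr'2⟩
      exact (hU₀d' l).of_ringHom_of_comp_eq f (algebraMap A M) hfs hinj rfl
    have h2 : Algebra.adjoin F (Set.range y) = ⊤ := by
      rw [eq_top_iff]
      rintro z -
      obtain ⟨f, rfl⟩ := Ideal.Quotient.mk_surjective z
      rw [← hyf]
      rw [Algebra.adjoin_range_eq_range_aeval]
      exact ⟨f, rfl⟩
    constructor
    intro z
    refine IsAlgebraic.adjoin_of_forall_isAlgebraic (s := Set.range y) ?_ ?_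
    · rintro _ ⟨⟨l, rfl⟩, -⟩
      exact h1 l
    · have hz : z ∈ Algebra.adjoin F (Set.range y) := by rw [h2]; trivial
      exact isAlgebraic_algebraMap (⟨z, hz⟩ : Algebra.adjoin F (Set.range y))
  obtain ⟨c₂, C₂, hc₂, hup⟩ := hCOUNT F A 0 Fin.elim0 (U₀.image y) halg
  have hup' : ∀ (K : Type) [Field K] [Finite K] [Algebra F K],
      Nat.card {ψ : A →ₐ[F] K // ψ c₂ ≠ 0} ≤ C₂ * Nat.card K ^ U₀.card := by
    intro K _ _ _
    refine (hup c₂ (dvd_refl c₂) K).trans (Nat.mul_le_mul_left _ ?_)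
    have h1 : (Set.range fun (ψ : {ψ : A →ₐ[F] K // ψ c₂ ≠ 0}) (i : Fin 0) =>
        ψ.1 ((Fin.elim0 : Fin 0 → A) i)).ncard ≤ 1 := by
      refine (Set.ncard_le_ncard (Set.subset_univ _) (Set.toFinite _)).trans ?_
      rw [Set.ncard_univ, Nat.card_eq_fintype_card]
      simp
    calc _ ≤ 1 * Nat.card K ^ (U₀.image y).card := Nat.mul_le_mul_right _ h1
      _ = Nat.card K ^ (U₀.image y).card := one_mul _
      _ ≤ _ := Nat.pow_le_pow_right Nat.card_pos Finset.card_image_le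
  -- the lower bound
  have hch : ∀ u : {u // u ∈ U j}, ∃ i : Fin a, c j i = u.1 := by
    intro u
    obtain ⟨i, -, hi⟩ := Finset.mem_image.1 (hUs j u.2)
    exact ⟨i, hi⟩
  choose g hg using hch
  have hginj : Function.Injective g := by
    intro u u' h
    apply Subtype.ext
    rw [← hg, ← hg, h]
  let U' : Finset (Fin a) := Finset.univ.image g
  have hU'card : U'.card = (U j).card := by
    rw [Finset.card_image_of_injective _ hginj, Finset.card_univ, Fintype.card_coe]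
  have hU'ind : AlgebraicIndependent F (fun u : {u // u ∈ U'} => y (c j u)) := by
    have h1 : AlgebraicIndependent F (fun u : {u // u ∈ U j} => y u.1) := by
      have h2 : (fun u : {u // u ∈ U j} => ξ u.1) = (IsScalarTower.toAlgHom F A M) ∘ fun u => y u.1 := rfl
      have h3 : AlgebraicIndependent F (fun u : {u // u ∈ U j} => ξ u.1) := hUi j
      rw [h2] at h3
      exact AlgebraicIndependent.of_comp _ h3
    have hch2 : ∀ u : {u // u ∈ U'}, ∃ v : {u // u ∈ U j}, g v = u.1 := by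
      intro u
      obtain ⟨v, -, hv⟩ := Finset.mem_image.1 u.2
      exact ⟨v, hv⟩
    choose h hh using hch2
    have h4 : (fun u : {u // u ∈ U'} => y (c j u)) = (fun u : {u // u ∈ U j} => y u.1) ∘ h := by
      funext u
      show y (c j u.1) = y (h u).1
      rw [← hh, hg]
    rw [h4]
    refine h1.comp h ?_
    intro u u' huu
    apply Subtype.ext
    rw [← hh, ← hh, huu]
  obtain ⟨C₁, s, hs, hlow⟩ := hLOWER F A a (fun i => y (c j i)) U' hU'ind (Ideal.Quotient.mk P s₀)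
    (by rwa [ne_eq, Ideal.Quotient.eq_zero_iff_mem])
  obtain ⟨s, rfl⟩ := Ideal.Quotient.mk_surjective s
  obtain ⟨c₂, rfl⟩ := Ideal.Quotient.mk_surjective c₂
  have hs' : s ∉ P := by rwa [ne_eq, Ideal.Quotient.eq_zero_iff_mem] at hs
  have hc₂' : c₂ ∉ P := by rwa [ne_eq, Ideal.Quotient.eq_zero_iff_mem] at hc₂
  have hsc : c₂ * s ∉ P := fun h => (hP.mem_or_mem h).elim hc₂' hs'
  refine claim_step (fun K _ _ => {p | p ∈ Pts Φ P K ∧ aeval p (c₂ * s) ≠ 0})
    (C₂ * C₁ ^ 2 + C₁ ^ n) (fun K _ _ _ => ?_) (fun K _ _ _ => ?_) (ih _ hsc)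
  · intro p hp
    by_cases h : aeval p (c₂ * s) = 0
    · right
      refine ⟨hp.1, ?_⟩
      rw [sup_span]
      exact ⟨hp.2, h⟩
    · left
      exact ⟨hp, h⟩
  have hm1 : (0 : ℝ) ≤ 2 - 1 / ((m : ℝ) - 1) := by
    have hmr : (2 : ℝ) ≤ m := by exact_mod_cast hm
    have : 1 / ((m : ℝ) - 1) ≤ 1 := by
      rw [div_le_one (by linarith)]
      linarith
    linarith
  rcases Set.eq_empty_or_nonempty {p | p ∈ Pts Φ P K ∧ aeval p (c₂ * s) ≠ 0} with h0 | ⟨p, hp⟩
  · rw [h0, Set.ncard_empty, Nat.cast_zero]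
    positivity
  have hN : 1 ≤ (Cov c Φ K).ncard := by
    rw [Nat.one_le_iff_ne_zero, ← Nat.pos_iff_ne_zero, Set.ncard_pos (Set.toFinite _)]
    exact ⟨p ∘ c 0, p, 0, hp.1.1, rfl⟩
  have hN' : (1 : ℝ) ≤ ((Cov c Φ K).ncard : ℝ) ^ (2 - 1 / ((m : ℝ) - 1)) :=
    Real.one_le_rpow (by exact_mod_cast hN) hm1
  have hps : aeval p c₂ ≠ 0 ∧ aeval p s ≠ 0 := by
    have := hp.2
    rw [map_mul] at this
    exact ⟨left_ne_zero_of_mul this, right_ne_zero_of_mul this⟩
  have hX1 : {p | p ∈ Pts Φ P K ∧ aeval p (c₂ * s) ≠ 0}.ncard ≤ C₂ * Nat.card K ^ U₀.card := by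
    refine le_trans (Set.ncard_le_ncard ?_ (Set.toFinite _)) ((pts_le Φ P c₂ K).trans (hup' K))
    rintro p' ⟨h1, h2⟩
    refine ⟨h1, fun h3 => h2 ?_⟩
    rw [map_mul, h3, zero_mul]
  push_cast
  rw [add_mul]
  by_cases hq : C₁ < Nat.card K
  · obtain ⟨e, he, he'⟩ := exists_pts P K
    have h1 := hlow K hq ⟨e.symm ⟨p, hp.1.2⟩, by
      rw [← he, Equiv.apply_symm_apply]
      exact hps.2⟩
    have h2 : (Set.range fun (ψ : {ψ : A →ₐ[F] K // ψ (Ideal.Quotient.mk P s₀) ≠ 0}) (i : Fin a) =>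
        ψ.1 (y (c j i))).ncard ≤ (Cov c Φ K).ncard := by
      refine Set.ncard_le_ncard ?_ (Set.toFinite _)
      rintro _ ⟨ψ, rfl⟩
      refine ⟨(e ψ.1).1, j, hgen K _ (e ψ.1).2 ?_, ?_⟩
      · rw [he]
        exact ψ.2
      · funext i
        exact (he' ψ.1 (c j i)).symm
    have h3 : Nat.card K ^ (U j).card ≤ C₁ * (Cov c Φ K).ncard := by
      rw [← hU'card]
      exact h1.trans (Nat.mul_le_mul_left _ h2)
    have h4 := rpow_bound hm Nat.card_pos hj h3 hX1
    push_cast at h4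
    have h5 : (0 : ℝ) ≤ (C₁ : ℝ) ^ n * ((Cov c Φ K).ncard : ℝ) ^ (2 - 1 / ((m : ℝ) - 1)) := by positivity
    linarith
  · have h1 : {p | p ∈ Pts Φ P K ∧ aeval p (c₂ * s) ≠ 0}.ncard ≤ C₁ ^ n := by
      refine (Set.ncard_le_ncard (Set.subset_univ _) (Set.toFinite _)).trans ?_
      rw [Set.ncard_univ, Nat.card_fun, Nat.card_eq_fintype_card (α := Fin n), Fintype.card_fin]
      exact Nat.pow_le_pow_left (not_lt.1 hq) n
    have h2 : (({p | p ∈ Pts Φ P K ∧ aeval p (c₂ * s) ≠ 0}.ncard : ℕ) : ℝ) ≤ (C₁ : ℝ) ^ n := by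
      exact_mod_cast h1
    have h3 : (0 : ℝ) ≤ (C₂ : ℝ) * (C₁ : ℝ) ^ 2 * ((Cov c Φ K).ncard : ℝ) ^ (2 - 1 / ((m : ℝ) - 1)) := by
      positivity
    have h4 : (C₁ : ℝ) ^ n * 1 ≤ (C₁ : ℝ) ^ n * ((Cov c Φ K).ncard : ℝ) ^ (2 - 1 / ((m : ℝ) - 1)) :=
      mul_le_mul_of_nonneg_left hN' (by positivity)
    rw [mul_one] at h4
    linarith

end Pool.Agent.T2h48.AT
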