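import Pool.Agent.T2h48.DW.Defs

/-!
# Project AT: the Brown–Erdős–Sós problem for algebraic triple systems over the extensions of a finite field

Statements of the tasks.

`F` is a field, `M` an extension, `ξ : Fin n → M` the coordinates of the generic edge. The point `x : Fin n → R`
of a domain `R` over `F` with an `F`-homomorphism `ε : R → M` is *near* `ξ` if `ε ∘ x = ξ` and all
polynomials over `F` that vanish at `ξ` vanish at `x`. By Krull's height theorem there are many such points that
satisfy given equalities of coordinates (EXT), and a near point is determined by the coordinates of a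
transcendence basis (UNIQ). So there are configurations of near points with few vertices (CORE), by the
combinatorial statement COMB.
-/

set_option autoImplicit false

namespace Pool.Agent.T2h48.AT

open MvPolynomial

section defs
variable {F M R : Type} [Field F] [Field M] [CommRing R] [Algebra F M] [Algebra F R]

/-- near points -/
def Near (ε : R →ₐ[F] M) {n : ℕ} (ξ : Fin n → M) (x : Fin n → R) : Prop :=
  (∀ l, ε (x l) = ξ l) ∧ ∀ f : MvPolynomial (Fin n) F, aeval ξ f = 0 → aeval x f = 0

variable (F)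

/-- `ξ l` is algebraic over the ring generated by the `ξ u`, `u ∈ U` -/
def Dep {n : ℕ} (ξ : Fin n → M) (U : Finset (Fin n)) (l : Fin n) : Prop :=
  IsAlgebraic (Algebra.adjoin F (ξ '' (U : Set (Fin n)))) (ξ l)

/-- the `ξ u`, `u ∈ U`, are algebraically independent -/
def Ind {n : ℕ} (ξ : Fin n → M) (U : Finset (Fin n)) : Prop :=
  AlgebraicIndependent F (fun u : {u // u ∈ U} => ξ u)

end defs

/-- **BAS**: transcendence bases among the coordinates. (`exists_isTranscendenceBasis_subset`,
`exists_isTranscendenceBasis_between`, `IsTranscendenceBasis.cardinalMk_eq`; `AB/T_LOWER.lean`, `basis_part`,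
`exists_basis` has similar arguments. Take care that `ξ` is possibly not injective.) -/
def S_BAS : Prop :=
  ∀ (F M : Type) [Field F] [Field M] [Algebra F M] (n : ℕ) (ξ : Fin n → M),
    (∀ W : Finset (Fin n), ∃ U ⊆ W, Ind F ξ U ∧ ∀ l ∈ W, Dep F ξ U l) ∧
    ∀ U U₀ : Finset (Fin n), Ind F ξ U → (∀ l, Dep F ξ U₀ l) →
      U.card ≤ U₀.card ∧ (U.card = U₀.card → ∀ l, Dep F ξ U l)

/-- **MIN**: the prime ideal `P` of the polynomials that vanish at `ξ` is a minimal prime of an ideal
generated by `n - D` elements, `D = #U₀`. Proof. For `l ∉ U₀` there is `p_l ∈ P`, a polynomial in `X_l` and the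
`X_u`, `u ∈ U₀`, that is not zero as a polynomial in `X_l` over `F[X_u : u ∈ U₀]`; `s = {p_l}`. Let `f ∈ P` and
suppose that no `y f ^ k` with `y ∉ P` is in the ideal `I` of `s`. These elements form a multiplicative
set, so (`Ideal.exists_le_prime_disjoint`) there is a prime `Q ⊇ I` with `f ∉ Q`, `Q ≤ P`. The ring `MvPolynomial ⧸ Q`
is algebraic over its subring `F[X_u]` (generated by the images of the `X_l`, and the image of `p_l` is not zero
since the coefficients are in `F[X_u]`, and `F[X_u] ∩ Q = 0` as `F[X_u] ∩ P = 0`). So the image `f'` of `f` is a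
root of a polynomial over `F[X_u]` with nonzero constant coefficient `c` (`Q` is prime, `f' ≠ 0`:
`IsAlgebraic.exists_nonzero_coeff_and_aeval_eq_zero`), so `c ∈ Q + (f) ⊆ P`, a contradiction. -/
def S_MIN : Prop :=
  ∀ (F M : Type) [Field F] [Field M] [Algebra F M] (n : ℕ) (ξ : Fin n → M) (U₀ : Finset (Fin n)),
    Ind F ξ U₀ → (∀ l, Dep F ξ U₀ l) →
    ∃ s : Finset (MvPolynomial (Fin n) F), s.card + U₀.card ≤ n ∧ (∀ g ∈ s, aeval ξ g = 0) ∧
      ∀ f : MvPolynomial (Fin n) F, aeval ξ f = 0 → ∃ (y : MvPolynomial (Fin n) F) (k : ℕ),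
        aeval ξ y ≠ 0 ∧ y * f ^ k ∈ Ideal.span (s : Set (MvPolynomial (Fin n) F))

/-- **HTP**: the height of the ideal of a point of the affine space is at least the dimension. (Chain
of the kernels of `X_i ↦ a_i` (`i ∈ S`), `X_i ↦ X_i` (`i ∉ S`), `MvPolynomial σ M → MvPolynomial σ M`, for growing
sets `S`; `Ideal.height_add_one_le_of_lt_of_isPrime`, induction on `#S`.) -/
def S_HTP : Prop :=
  ∀ (M σ : Type) [Field M] [Fintype σ] (a : σ → M),
    (Fintype.card σ : ℕ∞) ≤
      (RingHom.ker (MvPolynomial.aeval a : MvPolynomial σ M →ₐ[M] M)).height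

/-- **KRU**: Krull's height theorem, in the following form. (`Ideal.height_le_height_add_spanFinrank_of_le`
for the ideal `J` generated by the `g k`, then `Ideal.exists_ltSeries_length_eq_height` for the prime
`m / J` of `S / J`; `Q` is the preimage of the smallest prime of the series. The images of the primes of the
series in `S / Q` (or in `(S / J) / q`) form a series again, so the height of `m / Q` is at least its length.) -/
def S_KRU : Prop :=
  ∀ (S : Type) [CommRing S] [IsNoetherianRing S] (m : Ideal S) [m.IsPrime] (κ : Type) [Fintype κ]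
    (g : κ → S), (∀ k, g k ∈ m) → ∃ Q : Ideal S, Q.IsPrime ∧ (∀ k, g k ∈ Q) ∧ Q ≤ m ∧
      m.height ≤ (m.map (Ideal.Quotient.mk Q)).height + Fintype.card κ

/-- **EXT** (from MIN, HTP, KRU). Proof. `S = MvPolynomial (B × Fin n) M`, the point `none` is the constant point
`ξ`, the point `some b` is `l ↦ X (b, l)`; `m` is the kernel of `X (b, l) ↦ ξ l`, of height `≥ #B n` by HTP. Apply
KRU to the elements `g (X (b, ·))`, `b ∈ B`, `g ∈ s` (`s` from MIN), and `x (p k) l - x (p' k) l`, `l ∈ U k`; let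
`R = S / Q`. If `f` vanishes at `ξ`, `y f ^ k ∈ (s)` with `y(ξ) ≠ 0`, then `y(x_b) f(x_b) ^ k ∈ Q`
and `y(x_b) ∉ Q` since `Q ≤ m` and `ε (y(x_b)) = y(ξ) ≠ 0`; so `f(x_b) ∈ Q`. So the height of the prime ideal
`m' = m.map (mk Q) = ker ε` of `R` is at least `#B n - #B #s - ∑ #(U k) ≥ #B D - ∑ #(U k)`. The ideal `m'` is generated
by the `x_b l - ξ l`, so by at most `n #{x_b}` elements, and by Krull its height is at most this number
(`Ideal.height_le_card_of_mem_minimalPrimes_span`). -/
def S_EXT : Prop :=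
  ∀ (F M : Type) [Field F] [Field M] [Algebra F M] (n : ℕ) (ξ : Fin n → M) (U₀ : Finset (Fin n)),
    Ind F ξ U₀ → (∀ l, Dep F ξ U₀ l) →
    ∀ (B κ : Type) [Fintype B] [Fintype κ] (p p' : κ → Option B) (U : κ → Finset (Fin n)),
    ∃ (R : Type) (_ : CommRing R) (_ : IsDomain R) (_ : Algebra F R) (ε : R →ₐ[F] M)
      (x : Option B → Fin n → R), (∀ b, Near ε ξ (x b)) ∧ (∀ k, ∀ l ∈ U k, x (p k) l = x (p' k) l) ∧
      Fintype.card B * U₀.card ≤ n * (Set.range fun b : B => x (some b)).ncard + ∑ k, (U k).card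

/-- **UNIQ**. Proof. Let `L = F(ξ_u : u ∈ U)`. `ξ l` is algebraic over `L`, so `y = (ξ l) ^ e` is separable over `L`
for some power `e = q ^ k` of the exponential characteristic `q` (`L(ξ l)` is purely inseparable over the
separable closure of `L` in it). Clear the denominators of the minimal polynomial: there is a polynomial
`g ∈ F[X_u : u ∈ U][T]` with `g(ξ)(y) = 0` and `g'(ξ)(y) ≠ 0`. The polynomial `g(X_l ^ e) ∈ F[X]` vanishes at `ξ`,
so at `x` and `x'`: `h(z) = h(z') = 0` for `z = (x l) ^ e`, `z' = (x' l) ^ e` and `h = g(x) = g(x') ∈ R[T]`. Now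
`h(z') - h(z) = (z' - z) (h'(z) + (z' - z) r)` (`Polynomial.binomExpansion`/`evalSubFactor`), and
`ε (h'(z) + (z' - z) r) = g'(ξ)(y) ≠ 0`, so `z = z'`, and `x l = x' l` by the injectivity of the Frobenius map of
the domain `R`. -/
def S_UNIQ : Prop :=
  ∀ (F M R : Type) [Field F] [Field M] [CommRing R] [IsDomain R] [Algebra F M] [Algebra F R]
    (ε : R →ₐ[F] M) (n : ℕ) (ξ : Fin n → M) (x x' : Fin n → R), Near ε ξ x → Near ε ξ x' →
    ∀ (U : Finset (Fin n)) (l : Fin n), (∀ u ∈ U, x u = x' u) → Dep F ξ U l → x l = x' l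

/-- **COMB**. `E` are edges with vertices `r 0 e`, `r 1 e`, `r 2 e` of three types, two edges have at most one
vertex in common. Every strip `ψ i 0 = e₀, ψ i 1, …, ψ i (m - 1)` satisfies: `ψ i (k + 1)` shares the vertex of
type `1` (`k` even) or `2` (`k` odd) with `ψ i k`, and `ψ i (k + 2)` shares the vertex of type `0` with `ψ i k`.
If the strips have at least `m` distinct edges then there are `m` edges with at most `m + 3` vertices.
Proof. For a finite set `S` of edges let `δ S = ∑_j #(r j '' S) - #S`.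
(a) `δ (S ∪ T) + δ (S ∩ T) ≤ δ S + δ T`. (b) If `S` is not empty and `#(r 0 '' S) ≤ 2` then `δ S ≥ 2`: if
`#(r 0 '' S) = 1` then `#(r 1 '' S) = #(r 2 '' S) = #S` (linearity), and `1 + 2 #S - #S ≥ 2`; if it is `2`, one of
the two rows has `≥ #S / 2` elements, so `#(r 1 '' S), #(r 2 '' S) ≥ #S / 2`.
(c) all prefixes `{ψ i 0, …, ψ i k}`, `k < m`, have `δ ≤ 3`: `δ {e₀} = 2`, the edge `ψ i 1` adds at most two vertices,
and every other new edge adds at most one vertex.
(d) If a strip is injective it has `m` edges and `δ ≤ 3`, done. Otherwise `δ` of the whole strip is `≤ 2`: let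
`j` be the first index with `ψ i j = ψ i i'`, `i' < j`. If `j = 1` all edges of the strip are `e₀` (linearity).
If `i' = j - 1 ≥ 1` then `ψ i j = ψ i (j - 1)` shares the vertices of type `0` and of type `1` or `2` with
`ψ i (j - 2)`, so is equal to it, a contradiction. `j = 2`, `i' = 0` is impossible in the same way. So
`i' ≤ j - 2`, `j ≥ 3`, and all three vertices of `ψ i (j - 1)` lie on earlier edges (the vertex that it shares
with `ψ i j = ψ i i'` as well), so at this step `δ` went down by one, and it never goes up after step `1`.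
(e) Let `W s` be the union of the first `s` strips and `{e₀}`; `δ (W s) ≤ 2` by (a), (b) (the intersection with a
strip contains `e₀`, and has at most two vertices of type `0`), and `δ (W s ∪ prefix) ≤ 3`. The sets
`W s ∪ prefix` grow by at most one edge in each step, so one of them has exactly `m` edges. -/
def S_COMB : Prop :=
  ∀ (E V : Type) (r : Fin 3 → E → V),
    (∀ i j : Fin 3, i ≠ j → ∀ e f : E, r i e = r i f → r j e = r j f → e = f) →
    ∀ (m N : ℕ), 1 ≤ m → ∀ (e₀ : E) (ψ : Fin N → ℕ → E), (∀ i, ψ i 0 = e₀) →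
      (∀ i k, k + 1 < m → r (if Even k then 1 else 2) (ψ i (k + 1)) =
        r (if Even k then 1 else 2) (ψ i k)) →
      (∀ i k, k + 2 < m → r 0 (ψ i (k + 2)) = r 0 (ψ i k)) →
      m ≤ {e | ∃ i, ∃ k < m, e = ψ i k}.ncard →
      ∃ T : Finset E, T.card = m ∧ ∑ j, ((r j) '' (T : Set E)).ncard ≤ m + 3

/-- **CORE** (from BAS, EXT, UNIQ, COMB). Case B: some `i ≠ j` such that not all coordinates are dependent
on `W = range (c i) ∪ range (c j)`. Let `U` be a basis of `W` (BAS), `#U < #U₀`. EXT with `B = κ = Fin N`,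
`N = n m`, `p k = some k`, `p' k = none`, `U k = U` gives `N ≤ n #{x_b}`, so `m` distinct points `x_b` whose vertices
`i` and `j` are those of `x none` (UNIQ). Case A: all coordinates are dependent on `range (c i) ∪ range (c j)` for
all `i ≠ j`. By UNIQ two near points with two equal vertices are equal. EXT with `B = Fin N × Fin (m - 1)`
(`N = n m`, the point `ψ i (k + 1)` is `x (some (i, k))`, `ψ i 0 = x none`), `κ = B × Bool`, the constraints of COMB,
of total cost `≤ N (2 m - 3) max #(U j) ≤ N ((m - 1) #U₀ - 1)`; so `N ≤ n #{x_b}`. Apply COMB to the type of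
the near points, `r j x = x ∘ c j`. -/
def S_CORE : Prop :=
  ∀ (F M : Type) [Field F] [Field M] [Algebra F M] (n a : ℕ) (ξ : Fin n → M)
    (c : Fin 3 → Fin a → Fin n) (U₀ : Finset (Fin n)), Ind F ξ U₀ → (∀ l, Dep F ξ U₀ l) →
    ∀ (m : ℕ), 2 ≤ m → ∀ U : Fin 3 → Finset (Fin n), (∀ j i, Dep F ξ (U j) (c j i)) →
    (∀ j, (2 * m - 3) * (U j).card < (m - 1) * U₀.card) →
    ∃ (R : Type) (_ : CommRing R) (_ : IsDomain R) (_ : Algebra F R) (ε : R →ₐ[F] M)
      (T : Finset (Fin n → R)), T.card = m ∧ (∀ x ∈ T, Near ε ξ x) ∧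
      ∑ j, ((fun x : Fin n → R => x ∘ c j) '' (T : Set (Fin n → R))).ncard ≤ m + 3

/-- **SPEC**: a point with `t ≠ 0`, over all extensions of degree divisible by some `n`. (A maximal ideal of
`B[1/t]` gives `B → K₀`, `K₀` a finite extension of `F` (Nullstellensatz, e.g.
`finite_of_finite_type_of_isJacobsonRing`), `n = [K₀ : F]`; `K₀` embeds in `K` over `F` if `n ∣ [K : F]`,
`FiniteField.nonempty_algHom_iff_finrank_dvd`.) -/
def S_SPEC : Prop :=
  ∀ (F : Type) [Field F] [Finite F] (B : Type) [CommRing B] [IsDomain B] [Algebra F B]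
    [Algebra.FiniteType F B] (t : B), t ≠ 0 → ∃ n : ℕ, 1 ≤ n ∧
      ∀ (K : Type) [Field K] [Finite K] [Algebra F K], n ∣ Module.finrank F K →
        ∃ χ : B →ₐ[F] K, χ t ≠ 0

/-- **COUNT** (copy of `AB/T_LOWER.lean`, theorem `count`, with `F` and `A →ₐ[F] K` for `ℤ` and `A →+* k`) -/
def S_COUNT : Prop :=
  ∀ (F A : Type) [Field F] [Finite F] [CommRing A] [IsDomain A] [Algebra F A] [Algebra.FiniteType F A]
    (a : ℕ) (v : Fin a → A) (G : Finset A),
    Algebra.IsAlgebraic (Algebra.adjoin F (Set.range v ∪ (G : Set A))) A →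
    ∃ (c : A) (C : ℕ), c ≠ 0 ∧ ∀ t : A, c ∣ t → ∀ (K : Type) [Field K] [Finite K] [Algebra F K],
      Nat.card {ψ : A →ₐ[F] K // ψ t ≠ 0} ≤ C * (
        (Set.range fun (ψ : {ψ : A →ₐ[F] K // ψ t ≠ 0}) (i : Fin a) => ψ.1 (v i)).ncard *
          Nat.card K ^ G.card)

/-- **LWF**: the lower bound of Lang and Weil. (Adapt `LF/T_RINGF.lean`, theorem `piece`, and
`LP/T_RING.lean`, theorem `landau_dom`: there `d` comes from `LP.S_MAIN`, where it is the transcendence degree
over `ZMod p` of the field of fractions, and this is `D` since `F` is algebraic over `ZMod p`. `LP.main_all : S_MAIN`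
in `LP/All.lean`. The element `s` is the `a` of `LP.exists_hom`; if `ψ s ≠ 0` for some `ψ` then `f' ∣ [K : F]`, and
`#{ψ // ψ (t * s * s_L) ≠ 0} = f' q ^ D + O(q ^ (D - 1/2)) ≥ q ^ D / 2` for large `q`.) -/
def S_LWF : Prop :=
  ∀ (F A : Type) [Field F] [Finite F] [CommRing A] [IsDomain A] [Algebra F A] [Algebra.FiniteType F A]
    (D : ℕ), Algebra.trdeg F A = D → ∃ s : A, s ≠ 0 ∧ ∀ t : A, t ≠ 0 → ∃ C : ℕ,
      ∀ (K : Type) [Field K] [Finite K] [Algebra F K], C < Nat.card K → (∃ ψ : A →ₐ[F] K, ψ s ≠ 0) →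
        Nat.card K ^ D ≤ C * Nat.card {ψ : A →ₐ[F] K // ψ t ≠ 0}

/-- **LOWER** (from COUNT and LWF; compare `AB/T_LOWER.lean`, `exists_basis` and `t_LOWER`). Extend the
independent `v u`, `u ∈ U`, by a set `G` of `D - #U` elements of `A` to a transcendence basis, and use LWF with
`t = s₀ c` (`c` from COUNT). -/
def S_LOWER : Prop :=
  ∀ (F A : Type) [Field F] [Finite F] [CommRing A] [IsDomain A] [Algebra F A] [Algebra.FiniteType F A]
    (a : ℕ) (v : Fin a → A) (U : Finset (Fin a)),
    AlgebraicIndependent F (fun u : {u // u ∈ U} => v u) → ∀ s₀ : A, s₀ ≠ 0 →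
    ∃ (C : ℕ) (s : A), s ≠ 0 ∧ ∀ (K : Type) [Field K] [Finite K] [Algebra F K], C < Nat.card K →
      (∃ ψ : A →ₐ[F] K, ψ s ≠ 0) → Nat.card K ^ U.card ≤ C *
        (Set.range fun (ψ : {ψ : A →ₐ[F] K // ψ s₀ ≠ 0}) (i : Fin a) => ψ.1 (v i)).ncard

end Pool.Agent.T2h48.AT
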