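import Pool.Agent.T2h48.AT.Main

/-!
# Project AT, second part: the exponent `2 - 1 / (s - 1)` is optimal

Statements of the tasks. The examples: `D` of the `3 d` coordinates of the edge are free (`u ∈ K ^ D`), the other
`r = 3 d - D` coordinates are generic polynomials of `u`. By a dimension count, if
`(s - 1) D < (2 s - 3) d`, a generic edge is not in any configuration of `s` edges with `s + 3` vertices; so
there is a polynomial `g ≠ 0` such that the edges with `g(u) ≠ 0` contain no configuration.
-/

set_option autoImplicit false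

namespace Pool.Agent.T2h48.AT

open MvPolynomial Pool.Agent.T2h48.DW

/-- the indices of the coefficients of `r` polynomials in `D` variables, of degree `< s` in each variable -/
abbrev Par (s D r : ℕ) : Type := Fin r × (Fin D → Fin s)

/-- the value at `u` of the polynomial with the coefficients `c` -/
def val {s D : ℕ} {K : Type} [CommRing K] (c : (Fin D → Fin s) → K) (u : Fin D → K) : K :=
  ∑ α, c α * ∏ m, u m ^ (α m : ℕ)

/-- the coordinates of the edge with the parameter `u` -/
def pt {s d D r : ℕ} (w : Fin 3 × Fin d ≃ Fin D ⊕ Fin r) {K : Type} [CommRing K] (φ : Par s D r → K)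
    (u : Fin D → K) (z : Fin 3 × Fin d) : K :=
  Sum.elim u (fun i => val (fun α => φ (i, α)) u) (w z)

/-- the vertex of type `j` of the edge with the parameter `u` -/
def vert {s d D r : ℕ} (w : Fin 3 × Fin d ≃ Fin D ⊕ Fin r) {K : Type} [CommRing K] (φ : Par s D r → K)
    (j : Fin 3) (u : Fin D → K) : Fin d → K :=
  fun i => pt w φ u (j, i)

/-- labels of the types -/
def lab {K : Type} [CommRing K] : Fin 3 → Fin 2 → K := ![![0, 0], ![1, 0], ![0, 1]]

/-- the vertex with its label -/
def vtx {s d D r : ℕ} (w : Fin 3 × Fin d ≃ Fin D ⊕ Fin r) {K : Type} [CommRing K] (φ : Par s D r → K)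
    (j : Fin 3) (u : Fin D → K) : Fin (d + 2) → K :=
  Fin.append (vert w φ j u) (lab j)

/-- the triple system: the edges with the parameters `u` with `g(u) ≠ 0` -/
def fam {F : Type} [Field F] {s d D r : ℕ} (w : Fin 3 × Fin d ≃ Fin D ⊕ Fin r) (φ : Par s D r → F)
    (g : MvPolynomial (Fin D) F) (K : Type) [Field K] [Algebra F K] : Set (Finset (Fin (d + 2) → K)) :=
  {e | ∃ u : Fin D → K, aeval u g ≠ 0 ∧
    (e : Set (Fin (d + 2) → K)) = Set.range fun j : Fin 3 => vtx w (fun z => algebraMap F K (φ z)) j u}

/-- **LIN**: the `s` vectors of the values of the monomials of degree `< s` in each variable at `s` distinct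
points are linearly independent (Lagrange interpolation: for each `k` the polynomial
`∏_{l ≠ k} (X_{m l} - U l (m l))`, where `U k` and `U l` differ in the coordinate `m l`, vanishes at all `U l`,
`l ≠ k`, and not at `U k`, and is of total degree `s - 1`; it is `∑_α c α X ^ α` with `α : Fin D → Fin s`), so they
are `s` rows of an invertible matrix (extend to a basis). -/
def S_LIN : Prop :=
  ∀ (L : Type) [Field L] (s D : ℕ) (U : Fin s → Fin D → L), Function.Injective U →
    ∃ (T T' : Matrix (Fin D → Fin s) (Fin D → Fin s) L) (ι : Fin s → (Fin D → Fin s)),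
      Function.Injective ι ∧ T' * T = 1 ∧ ∀ k α, T (ι k) α = ∏ m, U k m ^ (α m : ℕ)

/-- **TD** (from LIN): the dimension count. Proof. Let `VV` be the set of the coordinates
`vert w φ j (U l) i`, `l` in the image of `τ j`: at most `d (s + 3)` elements. Let `L = k(VV)`. All coordinates of all
`vert w φ j (U l)` are in `VV`, so all `U l m` and all `val (φ (i, ·)) (U l)` are in `L` (`w` is a bijection). Take
`T, T', ι` from LIN over `L` and let `c' i β = ∑_α T β α φ (i, α)`. `c' i (ι l) = val (φ (i, ·)) (U l) ∈ L`, and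
`φ (i, α) = ∑_β T' α β c' i β`. So all `φ (i, α)` and `U l m` are in
`k(VV ∪ {c' i β | β not in the image of ι})`, which is generated by at most `d (s + 3) + r (s ^ D - s)` elements;
so the number `r s ^ D + D` of the algebraically independent elements is at most this number (compare
`AB/Ind2.lean`, `trdeg_adjoin_le`), and `r = 3 d - D`. -/
def S_TD : Prop :=
  ∀ (k M : Type) [Field k] [Field M] [Algebra k M] (s d D r : ℕ)
    (w : Fin 3 × Fin d ≃ Fin D ⊕ Fin r) (φ : Par s D r → M) (U : Fin s → Fin D → M) (hs : 0 < s),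
    Function.Injective U → AlgebraicIndependent k (Sum.elim φ (U ⟨0, hs⟩)) →
    ∀ τ : Fin 3 → Fin s → Fin s, (∀ j l, vert w φ j (U (τ j l)) = vert w φ j (U l)) →
      ∑ j, (Finset.univ.image (τ j)).card ≤ s + 3 → (2 * s - 3) * d ≤ (s - 1) * D

/-- **NB** (from TD). Proof. For every `τ : Fin 3 → Fin s → Fin s` with `∑_j #(image of τ j) ≤ s + 3` and every
`m : Fin s → Fin s → Fin D` there is `g ≠ 0` with `g(φ, U 0) = 0` for all fields `K ⊇ k` and all `φ`, `U` over `K` with
`vert w φ j (U (τ j l)) = vert w φ j (U l)` for all `j, l` and `U l (m l l') ≠ U l' (m l l')` for `l ≠ l'`; the product of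
these `g` has the required property (`τ j l` = a canonical index with the same vertex).
Let `A = MvPolynomial (Par s D r ⊕ (Fin s × Fin D)) k`, `I` the ideal generated by the coordinates of
`vert w X j (X (τ j l)) - vert w X j (X l)` (generic `φ` and `U` over `A`), `t` the product over `l ≠ l'` of the
differences of the variables `U l (m l l')`, `U l' (m l l')`. If `g t ^ n ∈ I` for some `n` and some `g ≠ 0` in the
variables `φ`, `U 0`, this `g` will do. Otherwise there is a prime ideal `Q ⊇ I` that contains no such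
element (`Ideal.exists_le_prime_disjoint`), and the images of the variables in `M = FractionRing (A ⧸ Q)`
contradict TD (`U` is injective as `t ∉ Q`; algebraically independent as `g ∉ Q`). -/
def S_NB : Prop :=
  ∀ (k : Type) [Field k] (s d D r : ℕ) (w : Fin 3 × Fin d ≃ Fin D ⊕ Fin r) (hs : 0 < s),
    (s - 1) * D < (2 * s - 3) * d →
    ∃ g : MvPolynomial (Par s D r ⊕ Fin D) k, g ≠ 0 ∧
      ∀ (K : Type) [Field K] [Algebra k K] (φ : Par s D r → K) (U : Fin s → Fin D → K),
        Function.Injective U → aeval (Sum.elim φ (U ⟨0, hs⟩)) g ≠ 0 →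
          s + 3 < ∑ j, (Set.range fun l => vert w φ j (U l)).ncard

/-- **FAM** (from NB and SPEC): specialisation of the coefficients to a finite field. (NB over `ZMod p`; SPEC for
`B = MvPolynomial (Par s D r ⊕ Fin D) (ZMod p)`, `t = g`, and `F = GaloisField p n`; `g(φ, X)` is not zero since it
has a nonzero value.) -/
def S_FAM : Prop :=
  ∀ (p : ℕ) [Fact p.Prime] (s d D r : ℕ) (w : Fin 3 × Fin d ≃ Fin D ⊕ Fin r) (hs : 0 < s),
    (s - 1) * D < (2 * s - 3) * d →
    ∃ (F : Type) (_ : Field F) (_ : Finite F) (_ : CharP F p) (φ : Par s D r → F)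
      (g : MvPolynomial (Fin D) F), g ≠ 0 ∧
      ∀ (K : Type) [Field K] [Algebra F K] (U : Fin s → Fin D → K),
        Function.Injective U → aeval (U ⟨0, hs⟩) g ≠ 0 →
          s + 3 < ∑ j, (Set.range fun l => vert w (fun z => algebraMap F K (φ z)) j (U l)).ncard

/-- **CNT**: Schwartz–Zippel (`MvPolynomial.schwartz_zippel_totalDegree` or a neighbour, for the map of `g` to
`K`; `C = 2 * totalDegree`) -/
def S_CNT : Prop :=
  ∀ (F : Type) [Field F] [Finite F] (D : ℕ) (g : MvPolynomial (Fin D) F), g ≠ 0 →
    ∃ C : ℕ, ∀ (K : Type) [Field K] [Finite K] [Algebra F K], C < Nat.card K →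
      Nat.card K ^ D ≤ 2 * {u : Fin D → K | aeval u g ≠ 0}.ncard

/-- **EQN**: the formula. (`E` is the conjunction of: the last two coordinates of the `j`-th point are `lab j`;
the coordinate `z` with `w z = inr i` is equal to the value of the `i`-th polynomial at the coordinates `w.symm (inl m)`;
`g ≠ 0` at these coordinates. Use `all`, `all_holds` of `AT/Main.lean`, or prove that a finite list of equations is
expressible. `triples` is defined in `AT/Main.lean`; the three points are distinct by their labels.) -/
def S_EQN : Prop :=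
  ∀ (F : Type) [Field F] (s d D r : ℕ) (w : Fin 3 × Fin d ≃ Fin D ⊕ Fin r) (φ : Par s D r → F)
    (g : MvPolynomial (Fin D) F), ∃ E : QF F ((d + 2) + (d + 2) + (d + 2)),
      ∀ (K : Type) [Field K] [Algebra F K], triples E K = fam w φ g K

/-- **HD** (from FAM's property): no configurations. (An edge `e` of the family has a unique parameter `u`:
its point with the label `lab j` is `vtx w φ j u`, and `u` consists of some of the coordinates. So `s` distinct
edges have distinct parameters `U : Fin s → K ^ D`, and the number of the vertices on them is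
`∑_j #(range of l ↦ vert w φ j (U l))` since the labels are distinct.) -/
def S_HD : Prop :=
  ∀ (F : Type) [Field F] (s d D r : ℕ) (w : Fin 3 × Fin d ≃ Fin D ⊕ Fin r) (φ : Par s D r → F)
    (g : MvPolynomial (Fin D) F) (hs : 0 < s) (K : Type) [Field K] [Finite K] [Algebra F K],
    (∀ (U : Fin s → Fin D → K), Function.Injective U → aeval (U ⟨0, hs⟩) g ≠ 0 →
      s + 3 < ∑ j, (Set.range fun l => vert w (fun z => algebraMap F K (φ z)) j (U l)).ncard) →
    ¬ HasDense (fam w φ g K) s ∧ (fam w φ g K).ncard = {u : Fin D → K | aeval u g ≠ 0}.ncard ∧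
      (covered (fam w φ g K)).ncard ≤ 3 * Nat.card K ^ d

/-- **OPT** (from FAM, CNT, EQN, HD). For `s ≥ 3` and `ε > 0` take `d = (s - 1) k`, `D = (2 s - 3) k - 1` for large `k`,
`r = 3 d - D`, `w` any bijection. With `q = #K`: `#H(K) ≥ q ^ D / 2`, the number `N` of the vertices is at most
`3 q ^ d`, so `N ^ (2 - 1 / (s - 1) - ε) ≤ #H(K)` if `q` is large, as `D / d = 2 - 1 / (s - 1) - 1 / d`; and `#H(K) ≤ N ^ 3`,
so `N ≥ q` if `D ≥ 4`. -/
def S_OPT : Prop :=
  ∀ (p : ℕ) [Fact p.Prime] (s : ℕ), 3 ≤ s → ∀ ε : ℝ, 0 < ε →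
    ∃ (F : Type) (_ : Field F) (_ : Finite F) (_ : CharP F p) (a : ℕ) (E : QF F (a + a + a)) (C : ℕ),
      ∀ (K : Type) [Field K] [Finite K] [Algebra F K], ¬ HasDense (triples E K) s ∧
        (C < Nat.card K → Nat.card K ≤ (covered (triples E K)).ncard ∧
          ((covered (triples E K)).ncard : ℝ) ^ (2 - 1 / ((s : ℝ) - 1) - ε) ≤ ((triples E K).ncard : ℝ))

end Pool.Agent.T2h48.AT
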