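import Pool.Agent.T2h48.AT.Stm2

/-! NB -/

set_option autoImplicit false
set_option maxHeartbeats 1000000

namespace Pool.Agent.T2h48.AT

open MvPolynomial

section nat
variable {s d D r : ℕ} (w : Fin 3 × Fin d ≃ Fin D ⊕ Fin r) {A K : Type} [CommRing A] [CommRing K]

theorem val_map (f : A →+* K) (c : (Fin D → Fin s) → A) (u : Fin D → A) :
    f (val c u) = val (fun α => f (c α)) (fun m => f (u m)) := by
  unfold val
  rw [map_sum]
  refine Finset.sum_congr rfl fun α _ => ?_
  rw [map_mul, map_prod]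
  simp only [map_pow]

theorem vert_map (f : A →+* K) (φ : Par s D r → A) (j : Fin 3) (u : Fin D → A) (i : Fin d) :
    f (vert w φ j u i) = vert w (fun z => f (φ z)) j (fun m => f (u m)) i := by
  unfold vert pt
  rcases w (j, i) with m | m
  · rfl
  · exact val_map f _ u

end nat

/-- one type of configurations -/
theorem nb_type (h : S_TD) (k : Type) [Field k] (s d D r : ℕ) (w : Fin 3 × Fin d ≃ Fin D ⊕ Fin r)
    (hs : 0 < s) (hcond : (s - 1) * D < (2 * s - 3) * d) (τ : Fin 3 → Fin s → Fin s)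
    (hτ : ∑ j, (Finset.univ.image (τ j)).card ≤ s + 3) (m : Fin s → Fin s → Fin D) :
    ∃ g : MvPolynomial (Par s D r ⊕ Fin D) k, g ≠ 0 ∧
      ∀ (K : Type) [Field K] [Algebra k K] (φ : Par s D r → K) (U : Fin s → Fin D → K),
        (∀ j l, vert w φ j (U (τ j l)) = vert w φ j (U l)) →
        (∀ l l', l ≠ l' → U l (m l l') ≠ U l' (m l l')) → aeval (Sum.elim φ (U ⟨0, hs⟩)) g = 0 := by
  classical
  let A := MvPolynomial (Par s D r ⊕ (Fin s × Fin D)) k
  let ΦA : Par s D r → A := fun z => X (Sum.inl z)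
  let UA : Fin s → Fin D → A := fun l m => X (Sum.inr (l, m))
  let ρ : MvPolynomial (Par s D r ⊕ Fin D) k →ₐ[k] A :=
    rename (Sum.map id (fun m => ((⟨0, hs⟩ : Fin s), m)))
  have hev : ∀ (K : Type) [Field K] [Algebra k K] (f : A →ₐ[k] K) (g : MvPolynomial (Par s D r ⊕ Fin D) k),
      f (ρ g) = aeval (Sum.elim (fun z => f (ΦA z)) (fun m => f (UA ⟨0, hs⟩ m))) g := by
    intro K _ _ f g
    have h1 : f.comp ρ = aeval (Sum.elim (fun z => f (ΦA z)) (fun m => f (UA ⟨0, hs⟩ m))) := by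
      apply MvPolynomial.algHom_ext
      intro i
      rw [AlgHom.comp_apply, aeval_X]
      rcases i with z | m
      · show f (rename _ (X (Sum.inl z))) = _
        rw [rename_X]
        rfl
      · show f (rename _ (X (Sum.inr m))) = _
        rw [rename_X]
        rfl
    exact DFunLike.congr_fun h1 g
  let eqs : Fin 3 × Fin s × Fin d → A := fun z =>
    vert w ΦA z.1 (UA (τ z.1 z.2.1)) z.2.2 - vert w ΦA z.1 (UA z.2.1) z.2.2
  let I : Ideal A := Ideal.span (Set.range eqs)
  let t : A := ∏ z : Fin s × Fin s, if z.1 = z.2 then 1 else UA z.1 (m z.1 z.2) - UA z.2 (m z.1 z.2)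
  let S : Submonoid A :=
    { carrier := {x | ∃ (g : MvPolynomial (Par s D r ⊕ Fin D) k) (n : ℕ), g ≠ 0 ∧ x = ρ g * t ^ n}
      one_mem' := ⟨1, 0, one_ne_zero, by simp⟩
      mul_mem' := by
        rintro _ _ ⟨g, n, hg, rfl⟩ ⟨g', n', hg', rfl⟩
        refine ⟨g * g', n + n', mul_ne_zero hg hg', ?_⟩
        rw [map_mul, pow_add]
        ring }
  by_cases hdis : Disjoint (I : Set A) (S : Set A)
  · exfalso
    obtain ⟨Q, hQ, hIQ, hQS⟩ := Ideal.exists_le_prime_disjoint I S hdis
    have hQm : ∀ x ∈ S, x ∉ Q := fun x hx hxQ => Set.disjoint_left.1 hQS hxQ hx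
    let M := FractionRing (A ⧸ Q)
    let π : A →ₐ[k] M := (IsScalarTower.toAlgHom k (A ⧸ Q) M).comp (Ideal.Quotient.mkₐ k Q)
    have hπ : ∀ x, π x = 0 ↔ x ∈ Q := by
      intro x
      show algebraMap (A ⧸ Q) M (Ideal.Quotient.mk Q x) = 0 ↔ _
      rw [map_eq_zero_iff _ (IsFractionRing.injective (A ⧸ Q) M), Ideal.Quotient.eq_zero_iff_mem]
    have h1 := h k M s d D r w (fun z => π (ΦA z)) (fun l m => π (UA l m)) hs ?_ ?_ τ ?_ hτ
    · omega
    · intro l l' hll
      by_contra hne
      have h2 : π (UA l (m l l') - UA l' (m l l')) = 0 := by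
        rw [map_sub, sub_eq_zero]
        exact congrFun hll (m l l')
      rw [hπ] at h2
      have h3 : t ∈ Q := by
        have h4 : (if (l, l').1 = (l, l').2 then (1 : A) else UA (l, l').1 (m (l, l').1 (l, l').2) -
            UA (l, l').2 (m (l, l').1 (l, l').2)) ∣ t :=
          Finset.dvd_prod_of_mem (fun z : Fin s × Fin s => if z.1 = z.2 then (1 : A) else
            UA z.1 (m z.1 z.2) - UA z.2 (m z.1 z.2)) (Finset.mem_univ (l, l'))
        rw [if_neg (by exact hne)] at h4
        exact Ideal.mem_of_dvd Q h4 h2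
      exact hQm t ⟨1, 1, one_ne_zero, by simp⟩ h3
    · rw [algebraicIndependent_iff]
      intro g hg
      by_contra hg0
      have h2 : π (ρ g) = 0 := by
        rw [hev M π g]
        exact hg
      rw [hπ] at h2
      exact hQm (ρ g) ⟨g, 0, hg0, by simp⟩ h2
    · intro j l
      funext i
      have h2 : eqs (j, l, i) ∈ Q := hIQ (Ideal.subset_span ⟨_, rfl⟩)
      rw [← hπ] at h2
      have h3 : π (vert w ΦA j (UA (τ j l)) i) = π (vert w ΦA j (UA l) i) := by
        rw [← sub_eq_zero, ← map_sub]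
        exact h2
      have h4 := vert_map w (π : A →+* M) ΦA j (UA (τ j l)) i
      have h5 := vert_map w (π : A →+* M) ΦA j (UA l) i
      rw [RingHom.coe_coe] at h4 h5
      rw [← h4, ← h5]
      exact h3
  · rw [Set.not_disjoint_iff] at hdis
    obtain ⟨x, hxI, g, n, hg0, hx⟩ := hdis
    refine ⟨g, hg0, ?_⟩
    intro K _ _ φ U hU1 hU2
    let f : A →ₐ[k] K := aeval (Sum.elim φ (fun z => U z.1 z.2))
    have hfΦ : ∀ z, f (ΦA z) = φ z := fun z => by
      show aeval _ (X (Sum.inl z)) = _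
      rw [aeval_X]
      rfl
    have hfU : ∀ l m, f (UA l m) = U l m := fun l m => by
      show aeval _ (X (Sum.inr (l, m))) = _
      rw [aeval_X]
      rfl
    have h1 : f x = 0 := by
      have h2 : I ≤ RingHom.ker f := by
        refine Ideal.span_le.2 ?_
        rintro _ ⟨⟨j, l, i⟩, rfl⟩
        show f (vert w ΦA j (UA (τ j l)) i - vert w ΦA j (UA l) i) = 0
        rw [map_sub]
        have h4 := vert_map w (f : A →+* K) ΦA j (UA (τ j l)) i
        have h5 := vert_map w (f : A →+* K) ΦA j (UA l) i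
        rw [RingHom.coe_coe] at h4 h5
        rw [h4, h5]
        simp only [hfΦ, hfU]
        rw [sub_eq_zero]
        exact congrFun (hU1 j l) i
      exact h2 hxI
    rw [hx, map_mul, map_pow, hev K f g] at h1
    have ht : f t ≠ 0 := by
      show f (∏ z : Fin s × Fin s, _) ≠ 0
      rw [map_prod, Finset.prod_ne_zero_iff]
      rintro ⟨l, l'⟩ _
      by_cases hll : l = l'
      · simp [hll]
      · rw [if_neg (by exact hll), map_sub, hfU, hfU]
        exact sub_ne_zero.2 (hU2 l l' hll)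
    rcases mul_eq_zero.1 h1 with h2 | h2
    · have e1 : (fun z => f (ΦA z)) = φ := funext hfΦ
      have e2 : (fun m => f (UA ⟨0, hs⟩ m)) = U ⟨0, hs⟩ := funext (hfU _)
      rw [e1, e2] at h2
      exact h2
    · exact absurd h2 (pow_ne_zero n ht)

/-- **NB** -/
theorem t_NB (h : S_TD) : S_NB := by
  classical
  intro k _ s d D r w hs hcond
  have hs2 : 2 ≤ s := by
    by_contra hlt
    have : s = 1 := by omega
    subst this
    simp at hcond
  have hex : ∀ z : (Fin 3 → Fin s → Fin s) × (Fin s → Fin s → Fin D),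
      ∃ g : MvPolynomial (Par s D r ⊕ Fin D) k, g ≠ 0 ∧ (∑ j, (Finset.univ.image (z.1 j)).card ≤ s + 3 →
      ∀ (K : Type) [Field K] [Algebra k K] (φ : Par s D r → K) (U : Fin s → Fin D → K),
        (∀ j l, vert w φ j (U (z.1 j l)) = vert w φ j (U l)) →
        (∀ l l', l ≠ l' → U l (z.2 l l') ≠ U l' (z.2 l l')) → aeval (Sum.elim φ (U ⟨0, hs⟩)) g = 0) := by
    rintro ⟨τ, m⟩
    by_cases hτ : ∑ j, (Finset.univ.image (τ j)).card ≤ s + 3
    · obtain ⟨g, hg, hg'⟩ := nb_type h k s d D r w hs hcond τ hτ m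
      exact ⟨g, hg, fun _ => hg'⟩
    · exact ⟨1, one_ne_zero, fun h => absurd h hτ⟩
  choose G hG0 hG using hex
  refine ⟨∏ z, G z, Finset.prod_ne_zero_iff.2 fun z _ => hG0 z, ?_⟩
  intro K _ _ φ U hU hg
  by_contra hlt
  push Not at hlt
  -- the canonical index
  have h1 : ∀ (j : Fin 3) (v : Fin d → K), ∃ l' : Fin s, (∃ l, vert w φ j (U l) = v) → vert w φ j (U l') = v := by
    intro j v
    by_cases hv : ∃ l, vert w φ j (U l) = v
    · obtain ⟨l, hl⟩ := hv
      exact ⟨l, fun _ => hl⟩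
    · exact ⟨⟨0, hs⟩, fun h => absurd h hv⟩
  choose rep hrep using h1
  let τ : Fin 3 → Fin s → Fin s := fun j l => rep j (vert w φ j (U l))
  have hτ1 : ∀ j l, vert w φ j (U (τ j l)) = vert w φ j (U l) := fun j l => hrep j _ ⟨l, rfl⟩
  have hτ2 : ∑ j, (Finset.univ.image (τ j)).card ≤ s + 3 := by
    refine le_trans (Finset.sum_le_sum fun j _ => ?_) hlt
    have h2 : Set.range (fun l => vert w φ j (U l)) =
        ((Finset.univ.image fun l => vert w φ j (U l) : Finset (Fin d → K)) : Set (Fin d → K)) := by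
      simp
    rw [h2, Set.ncard_coe_finset]
    have h3 : Finset.univ.image (τ j) = (Finset.univ.image fun l => vert w φ j (U l)).image (rep j) := by
      rw [Finset.image_image]
      rfl
    rw [h3]
    exact Finset.card_image_le
  have h4 : ∀ l l' : Fin s, l ≠ l' → ∃ m, U l m ≠ U l' m := by
    intro l l' hll
    by_contra hcon
    push Not at hcon
    exact hll (hU (funext hcon))
  obtain ⟨m₀, -⟩ := h4 ⟨0, hs⟩ ⟨1, hs2⟩ (by
    intro h
    have := congrArg Fin.val h
    simp at this)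
  have h5 : ∀ l l' : Fin s, ∃ m, l ≠ l' → U l m ≠ U l' m := by
    intro l l'
    by_cases hll : l = l'
    · exact ⟨m₀, fun h => absurd hll h⟩
    · obtain ⟨m, hm⟩ := h4 l l' hll
      exact ⟨m, fun _ => hm⟩
  choose m hm using h5
  apply hg
  rw [map_prod]
  exact Finset.prod_eq_zero (Finset.mem_univ (τ, m)) (hG (τ, m) hτ2 K φ U hτ1 hm)

end Pool.Agent.T2h48.AT
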